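import Pool.Agent.HYP4.HS

/-!
# HYP4/CompG (good_comp), HYP4/RootG (exists_root): comparison of two functions with the same simple zeros

`exists_root`: `f1 = u f2` with `u` continuous and nowhere zero on the disc: `u z = f1 z / f2 z` outside the zeros,
`u p = f1' p / f2' p` at a zero `p` (the zeros are isolated: `finite_act`; slopes tend to the derivatives:
`hasDerivAt_iff_tendsto_slope`). Then an `m`-th root of `u`: `L` with `exp (L z) = u z / u 0` by lifting the homotopy
`(t, z) ↦ u (t z)/u 0` through `exp` (see `exists_hlog` in HYP4/PushK, copy or import), `r = exp (L/m) * root of u 0`.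
`good_comp`: `z ↦ cb (sg γ) (f (γ z))` is again good: for `sg γ = false` chain rule with the Moebius map (derivative
`1/q²`), for `sg γ = true`: `γ z = mb (conj z)`, `conj (f (M (conj z)))` is complex differentiable with derivative the
conjugate (`HasDerivAt.star_conj` or slopes).
-/

namespace HYP4

open Complex Topology Set ASP87

variable {Γ : Type} [Group Γ] {F : FD Γ}

/-- the derivative of a Moebius map -/
private theorem hasDerivAt_mob {α β : ℂ} (h : ‖α‖ ^ 2 - ‖β‖ ^ 2 = 1) {w : ℂ}
    (hq : (starRingEnd ℂ) β * w + (starRingEnd ℂ) α ≠ 0) :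
    HasDerivAt (fun z => (α * z + β) / ((starRingEnd ℂ) β * z + (starRingEnd ℂ) α))
      (((starRingEnd ℂ) β * w + (starRingEnd ℂ) α) ^ 2)⁻¹ w := by
  have h1 : HasDerivAt (fun z : ℂ => α * z + β) α w := by
    simpa using ((hasDerivAt_id w).const_mul α).add_const β
  have h2 : HasDerivAt (fun z : ℂ => (starRingEnd ℂ) β * z + (starRingEnd ℂ) α)
      ((starRingEnd ℂ) β) w := by
    simpa using ((hasDerivAt_id w).const_mul ((starRingEnd ℂ) β)).add_const ((starRingEnd ℂ) α)
  have h3 := h1.div h2 hq
  have h4 : (α * ((starRingEnd ℂ) β * w + (starRingEnd ℂ) α) - (α * w + β) * (starRingEnd ℂ) β) /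
      ((starRingEnd ℂ) β * w + (starRingEnd ℂ) α) ^ 2 =
      (((starRingEnd ℂ) β * w + (starRingEnd ℂ) α) ^ 2)⁻¹ := by
    rw [inv_eq_one_div]
    congr 1
    have h5 : α * (starRingEnd ℂ) α - β * (starRingEnd ℂ) β = 1 := by
      rw [Complex.mul_conj, Complex.mul_conj, Complex.normSq_eq_norm_sq, Complex.normSq_eq_norm_sq]
      exact_mod_cast h
    linear_combination h5
  rw [← h4]
  exact h3

theorem good_comp {x0 : ℂ} (hx0 : ‖x0‖ < 1) {f : ℂ → ℂ} (h : Good F x0 f) (γ : Γ) :
    Good F x0 (fun z => cb (F.sg γ) (f (F.act γ z))) := by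
  refine ⟨?_, ?_, ?_⟩
  · refine (cb_cont _).comp_continuousOn (h.cont.comp (act_cont F γ) ?_)
    intro z hz
    rw [mem_ball_zero_iff] at hz ⊢
    exact act_norm F γ hz
  · intro z hz
    show cb (F.sg γ) (f (F.act γ z)) = 0 ↔ _
    rw [cb_eq_zero, h.zero _ (act_norm F γ hz)]
    constructor
    · rintro ⟨δ, hδ⟩
      refine ⟨γ⁻¹ * δ, ?_⟩
      rw [act_mul F _ _ hx0, ← hδ, act_inv_act F γ hz]
    · rintro ⟨δ, hδ⟩
      refine ⟨γ * δ, ?_⟩
      rw [act_mul F _ _ hx0, ← hδ]
  · intro δ
    obtain ⟨f1, hf1, hd⟩ := h.der (γ * δ)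
    have hp : ‖F.act δ x0‖ < 1 := act_norm F δ hx0
    rw [act_mul F _ _ hx0] at hd
    set p : ℂ := F.act δ x0 with hpd
    have hnm := F.nm γ
    rcases hs : F.sg γ with _ | _
    · -- orientation preserving
      have hact : F.act γ = fun z => (F.al γ * z + F.be γ) /
          ((starRingEnd ℂ) (F.be γ) * z + (starRingEnd ℂ) (F.al γ)) := by
        funext z
        unfold FD.act mb cb
        rw [hs]
        simp
      have hq : (starRingEnd ℂ) (F.be γ) * p + (starRingEnd ℂ) (F.al γ) ≠ 0 := by
        have := mb_den hnm false hp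
        unfold cb at this
        simpa using this
      have hm := hasDerivAt_mob hnm hq
      rw [← hact] at hm
      refine ⟨f1 * (((starRingEnd ℂ) (F.be γ) * p + (starRingEnd ℂ) (F.al γ)) ^ 2)⁻¹,
        mul_ne_zero hf1 (inv_ne_zero (pow_ne_zero 2 hq)), ?_⟩
      have hc : (fun z => cb false (f (F.act γ z))) = f ∘ F.act γ := by
        funext z
        simp [cb]
      rw [hc]
      exact hd.comp p hm
    · -- orientation reversing
      set M : ℂ → ℂ := fun z => (F.al γ * z + F.be γ) /
          ((starRingEnd ℂ) (F.be γ) * z + (starRingEnd ℂ) (F.al γ)) with hM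
      have hact : ∀ z, F.act γ z = M ((starRingEnd ℂ) z) := by
        intro z
        unfold FD.act mb cb
        rw [hs]
        simp [hM]
      have hp' : ‖(starRingEnd ℂ) p‖ < 1 := by
        rw [RCLike.norm_conj]
        exact hp
      have hq : (starRingEnd ℂ) (F.be γ) * (starRingEnd ℂ) p + (starRingEnd ℂ) (F.al γ) ≠ 0 := by
        have := mb_den hnm false hp'
        unfold cb at this
        simpa using this
      have hm : HasDerivAt M ((((starRingEnd ℂ) (F.be γ) * (starRingEnd ℂ) p +
          (starRingEnd ℂ) (F.al γ)) ^ 2)⁻¹) ((starRingEnd ℂ) p) := hasDerivAt_mob hnm hq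
      rw [hact] at hd
      have h5 := (hd.comp _ hm).conj_conj
      rw [Complex.conj_conj] at h5
      refine ⟨_, ?_, h5.congr_of_eventuallyEq (Filter.Eventually.of_forall fun z => ?_)⟩
      · rw [map_ne_zero]
        exact mul_ne_zero hf1 (inv_ne_zero (pow_ne_zero 2 hq))
      · show cb true (f (F.act γ z)) = _
        rw [hact]
        simp [cb]

end HYP4
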