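import Pool.Agent.HYP4.GQ

/-!
# HYP4/PcG: tuples of points of the disc in different orbits form a path connected space

Induction-free: move one coordinate at a time. (1) the disc minus a countable set is path connected (the disc is
homeomorphic to `ℂ`, `ASP87.dH`, `ASP87.dK`, `Set.Countable.isPathConnected_compl_of_one_lt_rank`). (2) For `x` in the
space and `i`: a point `w` not in the (countable) orbits of the `x j`, `j ≠ i`: `x` and `Function.update x i w` are joined
(`G_zero`, `countable_FD`). (3) Given `x, y` choose `w : B → D` (by induction over the finite type) with `w i` outside the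
orbits of all `x j, y j, w j` (`j ≠ i`); then `x` is joined to `w` changing the coordinates one after the other
(induction over `Finset`), likewise `y`. Nonempty: same choice.
-/

namespace HYP4

open Complex Topology Set ASP87

variable {Γ : Type} [Group Γ] {F : FD Γ} {G : ℂ → ℂ → ℂ}

private theorem disc_pc {T : Set ℂ} (hT : T.Countable) : IsPathConnected (Dc \ T) := by
  have hrk : 1 < Module.rank ℝ ℂ := by
    rw [Complex.rank_real_complex]
    norm_num
  let f : ℂ → ℂ := fun u => ((Homeomorph.unitBall u : Metric.ball (0 : ℂ) 1) : ℂ)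
  have hfc : Continuous f := continuous_subtype_val.comp (Homeomorph.unitBall).continuous
  have hfi : Function.Injective f := Subtype.val_injective.comp (Homeomorph.unitBall).injective
  have hT' : (f ⁻¹' T).Countable := hT.preimage hfi
  have hpc := (hT'.isPathConnected_compl_of_one_lt_rank hrk).image hfc
  have e : f '' (f ⁻¹' T)ᶜ = Dc \ T := by
    ext z
    constructor
    · rintro ⟨u, hu, rfl⟩
      exact ⟨(Homeomorph.unitBall u).2, hu⟩
    · rintro ⟨hz, hzT⟩
      have hfz : f (Homeomorph.unitBall.symm ⟨z, hz⟩) = z := by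
        show ((Homeomorph.unitBall (Homeomorph.unitBall.symm ⟨z, hz⟩) :
          Metric.ball (0 : ℂ) 1) : ℂ) = z
        rw [Homeomorph.apply_symm_apply]
      refine ⟨Homeomorph.unitBall.symm ⟨z, hz⟩, ?_, hfz⟩
      show ¬ f (Homeomorph.unitBall.symm ⟨z, hz⟩) ∈ T
      rw [hfz]
      exact hzT
  rw [← e]
  exact hpc

private theorem orb_countable (F : FD Γ) {B : Type*} [Finite B] (x : B → ℂ) :
    {w : ℂ | ∃ j γ, w = F.act γ (x j)}.Countable := by
  have := countable_FD F
  have e : {w : ℂ | ∃ j γ, w = F.act γ (x j)} =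
      Set.range (fun q : B × Γ => F.act q.2 (x q.1)) := by
    ext w
    constructor
    · rintro ⟨j, γ, h⟩
      exact ⟨(j, γ), h.symm⟩
    · rintro ⟨⟨j, γ⟩, h⟩
      exact ⟨j, γ, h.symm⟩
  rw [e]
  exact Set.countable_range _

private theorem joined_update (hG : IsG F G) {B : Type*} [Finite B] (x : ConfG G B) (i : B) (w : ℂ)
    (hw : ‖w‖ < 1) (hn : ∀ j, j ≠ i → ∀ γ, w ≠ F.act γ (x.1 j)) [DecidableEq B] :
    ∃ y : ConfG G B, y.1 = Function.update x.1 i w ∧ Joined x y := by
  set T : Set ℂ := {w | ∃ j γ, j ≠ i ∧ w = F.act γ (x.1 j)} with hT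
  have hTc : T.Countable := (orb_countable F x.1).mono (by
    rintro w ⟨j, γ, -, h⟩
    exact ⟨j, γ, h⟩)
  have key : ∀ v : ℂ, v ∈ Dc \ T → (∀ j, ‖Function.update x.1 i v j‖ < 1) ∧
      ∀ j k, j ≠ k → G (Function.update x.1 i v j) (Function.update x.1 i v k) ≠ 0 := by
    intro v hv
    have hv1 : ‖v‖ < 1 := by simpa using hv.1
    refine ⟨?_, ?_⟩
    · intro j
      by_cases h : j = i
      · subst h
        rw [Function.update_self]
        exact hv1
      · rw [Function.update_of_ne h]
        exact x.2.1 j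
    · intro j k hjk
      by_cases h : j = i
      · subst h
        rw [Function.update_self, Function.update_of_ne hjk.symm]
        intro h0
        rw [G_symm hG hv1 (x.2.1 k)] at h0
        obtain ⟨γ, hγ⟩ := (G_zero hG (x.2.1 k) hv1).1 h0
        exact hv.2 ⟨k, γ, hjk.symm, hγ⟩
      · by_cases h' : k = i
        · subst h'
          rw [Function.update_self, Function.update_of_ne hjk]
          intro h0
          obtain ⟨γ, hγ⟩ := (G_zero hG (x.2.1 j) hv1).1 h0
          exact hv.2 ⟨j, γ, hjk, hγ⟩
        · rw [Function.update_of_ne h, Function.update_of_ne h']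
          exact x.2.2 j k hjk
  have hx : x.1 i ∈ Dc \ T := by
    refine ⟨by simpa using x.2.1 i, ?_⟩
    rintro ⟨j, γ, hj, h⟩
    exact x.2.2 j i hj ((G_zero hG (x.2.1 j) (x.2.1 i)).2 ⟨γ, h⟩)
  have hwT : w ∈ Dc \ T := by
    refine ⟨by simpa using hw, ?_⟩
    rintro ⟨j, γ, hj, h⟩
    exact hn j hj γ h
  obtain ⟨p, hp⟩ := (disc_pc hTc).joinedIn _ hx _ hwT
  refine ⟨⟨Function.update x.1 i w, key w hwT⟩, rfl,
    ⟨⟨⟨fun t => ⟨Function.update x.1 i (p t), key _ (hp t)⟩, ?_⟩, ?_, ?_⟩⟩⟩
  · refine Continuous.subtype_mk ?_ _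
    exact continuous_const.update i p.continuous
  · apply Subtype.ext
    simp
  · apply Subtype.ext
    simp

private theorem exists_w (F : FD Γ) {B : Type*} [Finite B] {O : Set ℂ} (hO : O.Countable) :
    ∃ w : B → ℂ, (∀ i, ‖w i‖ < 1 ∧ w i ∉ O) ∧ ∀ i j, i ≠ j → ∀ γ, w i ≠ F.act γ (w j) := by
  classical
  have := Fintype.ofFinite B
  have key : ∀ s : Finset B, ∃ w : B → ℂ, (∀ i, ‖w i‖ < 1) ∧ (∀ i ∈ s, w i ∉ O) ∧
      ∀ i ∈ s, ∀ j ∈ s, i ≠ j → ∀ γ, w i ≠ F.act γ (w j) := by
    intro s
    induction s using Finset.induction_on with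
    | empty => exact ⟨fun _ => 0, by simp, by simp, by simp⟩
    | insert a s ha ih =>
      obtain ⟨w, h1, h2, h3⟩ := ih
      obtain ⟨p, hp, hpT⟩ := (disc_pc (hO.union (orb_countable F w))).nonempty
      have hp1 : ‖p‖ < 1 := by simpa using hp
      have hpO : p ∉ O := fun h => hpT (Or.inl h)
      have hpw : ∀ j γ, p ≠ F.act γ (w j) := fun j γ h => hpT (Or.inr ⟨j, γ, h⟩)
      refine ⟨Function.update w a p, ?_, ?_, ?_⟩
      · intro i
        by_cases h : i = a
        · subst h
          rw [Function.update_self]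
          exact hp1
        · rw [Function.update_of_ne h]
          exact h1 i
      · intro i hi
        by_cases h : i = a
        · subst h
          rw [Function.update_self]
          exact hpO
        · rw [Function.update_of_ne h]
          exact h2 i ((Finset.mem_insert.1 hi).resolve_left h)
      · intro i hi j hj hij γ
        by_cases h : i = a
        · subst h
          rw [Function.update_self, Function.update_of_ne hij.symm]
          exact hpw j γ
        · have hi' := (Finset.mem_insert.1 hi).resolve_left h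
          by_cases h' : j = a
          · subst h'
            rw [Function.update_self, Function.update_of_ne hij]
            intro e
            apply hpw i γ⁻¹
            rw [e, act_inv_act F γ hp1]
          · rw [Function.update_of_ne h, Function.update_of_ne h']
            exact h3 i hi' j ((Finset.mem_insert.1 hj).resolve_left h') hij γ
  obtain ⟨w, h1, h2, h3⟩ := key Finset.univ
  exact ⟨w, fun i => ⟨h1 i, h2 i (Finset.mem_univ _)⟩,
    fun i j h => h3 i (Finset.mem_univ _) j (Finset.mem_univ _) h⟩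

private theorem joined_w (hG : IsG F G) {B : Type*} [Finite B] (x : ConfG G B) (w : B → ℂ)
    (h1 : ∀ i, ‖w i‖ < 1) (h2 : ∀ i j γ, w i ≠ F.act γ (x.1 j))
    (h3 : ∀ i j, i ≠ j → ∀ γ, w i ≠ F.act γ (w j)) (y : ConfG G B) (hy : y.1 = w) :
    Joined x y := by
  classical
  have := Fintype.ofFinite B
  have key : ∀ s : Finset B, ∃ z : ConfG G B, (∀ i ∈ s, z.1 i = w i) ∧
      (∀ i, i ∉ s → z.1 i = x.1 i) ∧ Joined x z := by
    intro s
    induction s using Finset.induction_on with
    | empty => exact ⟨x, by simp, by simp, Joined.refl x⟩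
    | insert a s ha ih =>
      obtain ⟨z, hz1, hz2, hz3⟩ := ih
      obtain ⟨u, hu, hzu⟩ := joined_update hG z a (w a) (h1 a) (by
        intro j hj γ
        by_cases h : j ∈ s
        · rw [hz1 j h]
          exact h3 a j hj.symm γ
        · rw [hz2 j h]
          exact h2 a j γ)
      refine ⟨u, ?_, ?_, hz3.trans hzu⟩
      · intro i hi
        rw [hu]
        by_cases h : i = a
        · subst h
          rw [Function.update_self]
        · rw [Function.update_of_ne h]
          exact hz1 i ((Finset.mem_insert.1 hi).resolve_left h)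
      · intro i hi
        rw [Finset.mem_insert, not_or] at hi
        rw [hu, Function.update_of_ne hi.1]
        exact hz2 i hi.2
  obtain ⟨z, hz1, -, hz⟩ := key Finset.univ
  have hzy : z = y := by
    apply Subtype.ext
    rw [hy]
    funext i
    exact hz1 i (Finset.mem_univ i)
  rw [← hzy]
  exact hz

theorem confG_pc (hG : IsG F G) (B : Type*) [Finite B] : PathConnectedSpace (ConfG G B) := by
  have mk : ∀ w : B → ℂ, (∀ i, ‖w i‖ < 1) → (∀ i j, i ≠ j → ∀ γ, w i ≠ F.act γ (w j)) →
      (∀ i, ‖w i‖ < 1) ∧ ∀ i j, i ≠ j → G (w i) (w j) ≠ 0 := by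
    intro w h1 h3
    refine ⟨h1, fun i j hij h0 => ?_⟩
    obtain ⟨γ, hγ⟩ := (G_zero hG (h1 i) (h1 j)).1 h0
    exact h3 j i hij.symm γ hγ
  refine ⟨?_, ?_⟩
  · obtain ⟨w, h1, h3⟩ := exists_w F (B := B) Set.countable_empty
    exact ⟨⟨w, mk w (fun i => (h1 i).1) h3⟩⟩
  · intro x y
    obtain ⟨w, h1, h3⟩ := exists_w F (B := B)
      ((orb_countable F x.1).union (orb_countable F y.1))
    let v : ConfG G B := ⟨w, mk w (fun i => (h1 i).1) h3⟩
    have hx : Joined x v := joined_w hG x w (fun i => (h1 i).1)
      (fun i j γ h => (h1 i).2 (Or.inl ⟨j, γ, h⟩)) h3 v rfl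
    have hy : Joined y v := joined_w hG y w (fun i => (h1 i).1)
      (fun i j γ h => (h1 i).2 (Or.inr ⟨j, γ, h⟩)) h3 v rfl
    exact hx.trans hy.symm

end HYP4
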