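import Pool.Agent.HYP4.HS

/-!
# HYP4/GQ: consequences of `IsG`
-/

namespace HYP4

open Complex Topology Set ASP87

variable {Γ : Type} [Group Γ] {F : FD Γ} {G : ℂ → ℂ → ℂ}

private theorem exists_R {c z : ℂ} (hc : ‖c‖ < 1) (hz : ‖z‖ < 1) :
    ∃ R : ℝ, R < 1 ∧ ‖c‖ < R ∧ ‖z‖ < R := by
  have h : max ‖c‖ ‖z‖ < 1 := max_lt hc hz
  obtain ⟨R, h1, h2⟩ := exists_between h
  exact ⟨R, h2, (le_max_left _ _).trans_lt h1, (le_max_right _ _).trans_lt h1⟩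

/-- on `ball 0 R ×ˢ ball 0 R`, `G = V * product` is continuous (`act_cont`); these open sets cover -/
theorem G_cont (hG : IsG F G) : ContinuousOn (fun q : ℂ × ℂ => G q.1 q.2) (Dc ×ˢ Dc) := by
  rintro ⟨c, z⟩ ⟨hc, hz⟩
  have hc' : ‖c‖ < 1 := by simpa using hc
  have hz' : ‖z‖ < 1 := by simpa using hz
  obtain ⟨R, hR, hcR, hzR⟩ := exists_R hc' hz'
  obtain ⟨S, V, hV, hV2, -⟩ := hG R hR
  have h1 : ContinuousOn (fun q : ℂ × ℂ => V q * ∏ γ ∈ S, (q.2 - F.act γ q.1))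
      (Metric.ball (0 : ℂ) R ×ˢ Metric.ball (0 : ℂ) R) := by
    refine hV.mul (continuousOn_finsetProd _ fun γ _ => ?_)
    refine continuous_snd.continuousOn.sub ?_
    refine (act_cont F γ).comp continuous_fst.continuousOn ?_
    rintro ⟨c, z⟩ ⟨hc, hz⟩
    exact Metric.ball_subset_ball hR.le hc
  have h2 : ContinuousOn (fun q : ℂ × ℂ => G q.1 q.2)
      (Metric.ball (0 : ℂ) R ×ˢ Metric.ball (0 : ℂ) R) := by
    refine h1.congr ?_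
    rintro ⟨c, z⟩ ⟨hc, hz⟩
    exact (hV2 c z (by simpa using hc) (by simpa using hz)).2
  have h3 : Metric.ball (0 : ℂ) R ×ˢ Metric.ball (0 : ℂ) R ∈ 𝓝 (c, z) :=
    (Metric.isOpen_ball.prod Metric.isOpen_ball).mem_nhds
      ⟨by simpa using hcR, by simpa using hzR⟩
  exact (h2.continuousAt h3).continuousWithinAt

theorem G_zero (hG : IsG F G) {c z : ℂ} (hc : ‖c‖ < 1) (hz : ‖z‖ < 1) :
    G c z = 0 ↔ ∃ γ, z = F.act γ c := by
  obtain ⟨R, hR, hcR, hzR⟩ := exists_R hc hz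
  obtain ⟨S, V, hV, hV2, hV3⟩ := hG R hR
  obtain ⟨h1, h2⟩ := hV2 c z hcR hzR
  rw [h2, mul_eq_zero]
  constructor
  · rintro (h | h)
    · exact absurd h h1
    · obtain ⟨γ, _, hγ⟩ := Finset.prod_eq_zero_iff.1 h
      exact ⟨γ, sub_eq_zero.1 hγ⟩
  · rintro ⟨γ, hγ⟩
    right
    by_cases hS : γ ∈ S
    · exact Finset.prod_eq_zero hS (sub_eq_zero.2 hγ)
    · exact absurd hγ (hV3 γ hS c z hcR hzR)

theorem G_act (hG : IsG F G) {c z : ℂ} (hc : ‖c‖ < 1) (hz : ‖z‖ < 1) (γ δ : Γ) :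
    G (F.act γ c) (F.act δ z) = 0 ↔ G c z = 0 := by
  rw [G_zero hG (act_norm F γ hc) (act_norm F δ hz), G_zero hG hc hz]
  constructor
  · rintro ⟨ε, hε⟩
    refine ⟨δ⁻¹ * (ε * γ), ?_⟩
    rw [act_mul F _ _ hc, act_mul F _ _ hc, ← hε, act_inv_act F δ hz]
  · rintro ⟨ε, hε⟩
    refine ⟨δ * (ε * γ⁻¹), ?_⟩
    rw [act_mul F _ _ (act_norm F γ hc), act_mul F _ _ (act_norm F γ hc), act_inv_act F γ hc, hε]

theorem G_symm (hG : IsG F G) {c z : ℂ} (hc : ‖c‖ < 1) (hz : ‖z‖ < 1) :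
    G c z = 0 ↔ G z c = 0 := by
  rw [G_zero hG hc hz, G_zero hG hz hc]
  constructor
  · rintro ⟨γ, h⟩
    exact ⟨γ⁻¹, by rw [h, act_inv_act F γ hc]⟩
  · rintro ⟨γ, h⟩
    exact ⟨γ⁻¹, by rw [h, act_inv_act F γ hz]⟩

end HYP4
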