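import Mathlib

/-!
# HYP4/HLog: continuous logarithms by homotopy lifting

Lift the homotopy `(t, a) ↦ f (t, a)` in `{z : ℂ // z ≠ 0}` through `Complex.isCoveringMap_exp`
(`IsCoveringMap.liftHomotopy`) starting with `0`; `L a` = the value at `t = 1`.
-/

namespace HYP4

open scoped unitInterval
open Complex Topology Set

theorem exists_hlog {A : Type*} [TopologicalSpace A] (f : I × A → ℂ) (hf : Continuous f)
    (h0 : ∀ q, f q ≠ 0) (h1 : ∀ a, f (0, a) = 1) :
    ∃ L : A → ℂ, Continuous L ∧ ∀ a, exp (L a) = f (1, a) := by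
  let H : C(I × A, {z : ℂ // z ≠ 0}) := ⟨fun q => ⟨f q, h0 q⟩, hf.subtype_mk _⟩
  have hH : ∀ a, H (0, a) = (fun z : ℂ ↦ (⟨_, z.exp_ne_zero⟩ : {z : ℂ // z ≠ 0}))
      ((ContinuousMap.const A (0 : ℂ)) a) := by
    intro a
    apply Subtype.ext
    simp [H, h1 a]
  let T := isCoveringMap_exp.liftHomotopy H (ContinuousMap.const A (0 : ℂ)) hH
  refine ⟨fun a => T (1, a), T.continuous.comp (by fun_prop), fun a => ?_⟩
  have h2 := congrFun (isCoveringMap_exp.liftHomotopy_lifts H (ContinuousMap.const A (0 : ℂ)) hH)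
    (1, a)
  exact congrArg Subtype.val h2

end HYP4
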