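import Pool.Agent.HYP4.Push
import Pool.Agent.HYP4.GQ
import Pool.Agent.HYP4.HLog

/-!
# HYP4/PushK: roots of the ratios by homotopy lifting

`exists_hlog`: lift the homotopy `(t, a) ↦ f (t, a)` in `{z : ℂ // z ≠ 0}` through `Complex.isCoveringMap_exp`
(`IsCoveringMap.liftHomotopy`) starting with `0`.
`exists_TP`: `H, K, ε` from `exists_push`. `A = {(b, (c, z)) : ‖c‖ < 1, ‖z‖ < 1, G c z ≠ 0}`,
`f (t, (b, c, z)) = G (H b_t c) (H b_t z) / G c z`, `b_t = b0 + t (b - b0)`; not zero: `G_zero`, equivariance (and `K`);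
`f (0, _) = 1` as `H b0 = id`, `b_1 = b`. `ka b c z = exp (L (b, c, z) / m)` on `A`, `1` elsewhere. `He`: `G_zero`,
`H b (γ c) = γ (H b c)`, and injectivity of `H b`.
-/

namespace HYP4

open scoped unitInterval
open Complex Topology Set ASP87

variable {Γ : Type} [Group Γ] {F : FD Γ} {G : ℂ → ℂ → ℂ}

private theorem G_push (hG : IsG F G) {B : Type*} {H K : (B → ℂ) → ℂ → ℂ}
    (hHK : ∀ b z, ‖z‖ < 1 → ‖H b z‖ < 1 ∧ ‖K b z‖ < 1 ∧ K b (H b z) = z ∧ H b (K b z) = z)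
    (heq : ∀ b γ z, ‖z‖ < 1 → H b (F.act γ z) = F.act γ (H b z)) (b : B → ℂ) {c z : ℂ}
    (hc : ‖c‖ < 1) (hz : ‖z‖ < 1) : G (H b c) (H b z) = 0 ↔ G c z = 0 := by
  rw [G_zero hG (hHK b c hc).1 (hHK b z hz).1, G_zero hG hc hz]
  refine exists_congr fun γ => ?_
  rw [← heq b γ c hc]
  constructor
  · intro h
    rw [← (hHK b z hz).2.2.1, h, (hHK b _ (act_norm F γ hc)).2.2.1]
  · intro h
    rw [h]

open Classical in
theorem exists_TP (hG : IsG F G) {m : ℕ} (hm : m ≠ 0) {B : Type*} [Finite B] (b0 : ConfG G B) :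
    ∃ (ε : ℝ) (H K : (B → ℂ) → ℂ → ℂ) (ka : (B → ℂ) → ℂ → ℂ → ℂ), 0 < ε ∧ TP G m H K ka ∧
      ∀ b, (∀ i, ‖b i - b0.1 i‖ ≤ ε) → ∀ i, H b (b0.1 i) = b i := by
  obtain ⟨ε, H, K, hε, hH, hK, hHK, heq, hH0, hmv⟩ := exists_push F (b0 := b0.1) b0.2.1
    (fun i j hij γ h => b0.2.2 i j hij ((G_zero hG (b0.2.1 i) (b0.2.1 j)).2 ⟨γ, h⟩))
  let A : Type _ := {q : (B → ℂ) × (ℂ × ℂ) // ‖q.2.1‖ < 1 ∧ ‖q.2.2‖ < 1 ∧ G q.2.1 q.2.2 ≠ 0}
  have hv : Continuous (fun q : I × A => q.2.1) := continuous_subtype_val.comp continuous_snd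
  have hv1 : Continuous (fun q : I × A => q.2.1.1) := continuous_fst.comp hv
  have hv2 : Continuous (fun q : I × A => q.2.1.2.1) :=
    continuous_fst.comp (continuous_snd.comp hv)
  have hv3 : Continuous (fun q : I × A => q.2.1.2.2) :=
    continuous_snd.comp (continuous_snd.comp hv)
  have ht : Continuous (fun q : I × A => ((q.1 : ℝ) : ℂ)) :=
    Complex.continuous_ofReal.comp (continuous_subtype_val.comp continuous_fst)
  have hb : Continuous (fun q : I × A => b0.1 + ((q.1 : ℝ) : ℂ) • (q.2.1.1 - b0.1)) :=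
    continuous_const.add (ht.smul (hv1.sub continuous_const))
  have hc1 : Continuous (fun q : I × A => H (b0.1 + ((q.1 : ℝ) : ℂ) • (q.2.1.1 - b0.1)) q.2.1.2.1) :=
    hH.comp_continuous (hb.prodMk hv2) fun q =>
      ⟨mem_univ _, mem_ball_zero_iff.2 q.2.2.1⟩
  have hc2 : Continuous (fun q : I × A => H (b0.1 + ((q.1 : ℝ) : ℂ) • (q.2.1.1 - b0.1)) q.2.1.2.2) :=
    hH.comp_continuous (hb.prodMk hv3) fun q =>
      ⟨mem_univ _, mem_ball_zero_iff.2 q.2.2.2.1⟩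
  have hc3 : Continuous (fun q : I × A => G (H (b0.1 + ((q.1 : ℝ) : ℂ) • (q.2.1.1 - b0.1)) q.2.1.2.1)
      (H (b0.1 + ((q.1 : ℝ) : ℂ) • (q.2.1.1 - b0.1)) q.2.1.2.2)) :=
    (G_cont hG).comp_continuous (hc1.prodMk hc2) fun q =>
      ⟨mem_ball_zero_iff.2 (hHK _ _ q.2.2.1).1, mem_ball_zero_iff.2 (hHK _ _ q.2.2.2.1).1⟩
  have hc4 : Continuous (fun q : I × A => G q.2.1.2.1 q.2.1.2.2) :=
    (G_cont hG).comp_continuous (hv2.prodMk hv3) fun q =>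
      ⟨mem_ball_zero_iff.2 q.2.2.1, mem_ball_zero_iff.2 q.2.2.2.1⟩
  obtain ⟨L, hL, hLe⟩ := exists_hlog (A := A)
    (fun q : I × A => G (H (b0.1 + ((q.1 : ℝ) : ℂ) • (q.2.1.1 - b0.1)) q.2.1.2.1)
      (H (b0.1 + ((q.1 : ℝ) : ℂ) • (q.2.1.1 - b0.1)) q.2.1.2.2) / G q.2.1.2.1 q.2.1.2.2)
    (hc3.div hc4 fun q => q.2.2.2.2)
    (fun q => div_ne_zero (fun h => q.2.2.2.2 ((G_push hG hHK heq _ q.2.2.1 q.2.2.2.1).1 h))
      q.2.2.2.2)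
    (fun a => by
      have h1 : b0.1 + (((0 : I) : ℝ) : ℂ) • (a.1.1 - b0.1) = b0.1 := by
        simp
      show G (H (b0.1 + (((0 : I) : ℝ) : ℂ) • (a.1.1 - b0.1)) a.1.2.1)
        (H (b0.1 + (((0 : I) : ℝ) : ℂ) • (a.1.1 - b0.1)) a.1.2.2) / G a.1.2.1 a.1.2.2 = 1
      rw [h1, hH0 _ a.2.1, hH0 _ a.2.2.1, div_self a.2.2.2])
  have hL1 : ∀ a : A, exp (L a) = G (H a.1.1 a.1.2.1) (H a.1.1 a.1.2.2) / G a.1.2.1 a.1.2.2 := by
    intro a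
    have h1 : b0.1 + (((1 : I) : ℝ) : ℂ) • (a.1.1 - b0.1) = a.1.1 := by
      simp
    have h2 := hLe a
    rw [h2]
    show G (H (b0.1 + (((1 : I) : ℝ) : ℂ) • (a.1.1 - b0.1)) a.1.2.1)
        (H (b0.1 + (((1 : I) : ℝ) : ℂ) • (a.1.1 - b0.1)) a.1.2.2) / G a.1.2.1 a.1.2.2 = _
    rw [h1]
  refine ⟨ε, H, K, fun b c z => if h : ‖c‖ < 1 ∧ ‖z‖ < 1 ∧ G c z ≠ 0 then
    exp (L ⟨(b, (c, z)), h⟩ / m) else 1, hε, ?_, hmv⟩
  refine ⟨hH, hK, fun b z hz => (hHK b z hz).1, fun b z hz => (hHK b z hz).2.1,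
    fun b z hz => (hHK b z hz).2.2.1, fun b z hz => (hHK b z hz).2.2.2,
    fun b c z hc hz => G_push hG hHK heq b hc hz, ?_, ?_⟩
  · rw [continuousOn_iff_continuous_domRestrict]
    have h1 : Continuous (fun a : A => exp (L a / m)) :=
      Complex.continuous_exp.comp (hL.div_const _)
    refine h1.congr fun a => ?_
    have h2 : ‖a.1.2.1‖ < 1 ∧ ‖a.1.2.2‖ < 1 ∧ G a.1.2.1 a.1.2.2 ≠ 0 := a.2
    show exp (L a / m) = dite _ _ _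
    rw [dif_pos h2]
  · intro b c z hc hz hcz
    have h2 : ‖c‖ < 1 ∧ ‖z‖ < 1 ∧ G c z ≠ 0 := ⟨hc, hz, hcz⟩
    show (dite _ _ _) ^ m * _ = _
    rw [dif_pos h2, ← Complex.exp_nat_mul, mul_div_cancel₀ _ (Nat.cast_ne_zero.2 hm), hL1,
      div_mul_cancel₀ _ hcz]

end HYP4
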