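import Pool.Agent.HYP4.TrG
import Pool.Agent.HYP4.PushK
import Pool.Agent.HYP4.PcG

/-!
# HYP4/ForgetG: forgetting points is locally trivial (copy of TOR4/ForgetT)
-/

namespace HYP4

open Complex Topology Set ASP87

variable {Γ : Type} [Group Γ] {F : FD Γ} {G : ℂ → ℂ → ℂ}

theorem forget_ltsG (hG : IsG F G) {A R B : Type*} [Finite B] {m : ℕ} (hm : m ≠ 0) (S : SysG A R)
    (j : B → A) (hj : ∀ b b', b ≠ b' → S.ne (j b) (j b')) (b0 : ConfG G B) :
    LTS (forgetG G m S j hj) b0 := by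
  obtain ⟨ε, H, K, ka, hε, hT, hb⟩ := exists_TP hG hm b0
  have hGc := G_cont hG
  have hp : ∀ (y : GG G m S) (b : B), (forgetG G m S j hj y).1 b = y.1.1 (j b) := fun _ _ => rfl
  have hpc := forgetG_continuous G m S j hj
  generalize forgetG G m S j hj = p at hp hpc ⊢
  let U : Set (ConfG G B) := {b | ∀ i, ‖b.1 i - b0.1 i‖ ≤ ε}
  have hU : U ∈ 𝓝 b0 := by
    refine Filter.eventually_all.2 fun i => ?_
    have hc : Continuous (fun b : ConfG G B => ‖b.1 i - b0.1 i‖) :=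
      (((continuous_apply i).comp continuous_subtype_val).sub continuous_const).norm
    have h0 : ‖b0.1 i - b0.1 i‖ < ε := by simpa using hε
    exact ((hc.tendsto b0).eventually (gt_mem_nhds h0)).mono fun _ h => h.le
  have hfib : ∀ y : p ⁻¹' {b0}, ∀ i, y.1.1.1 (j i) = b0.1 i := by
    intro y i
    have h1 : p y.1 = b0 := y.2
    rw [← hp, h1]
  have hF : ∀ (b : ConfG G B) (_ : b ∈ U) (y : p ⁻¹' {b0}),
      p ⟨trG S (H b.1) (ka b.1) y.1.1, trG_mem hT hm _ y.1.2⟩ = b := by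
    intro b hbU y
    refine Subtype.ext (funext fun i => ?_)
    rw [hp]
    show H b.1 (y.1.1.1 (j i)) = b.1 i
    rw [hfib, hb b.1 hbU]
  have hG' : ∀ y : p ⁻¹' U, p ⟨trI S (K (p y.1).1) (ka (p y.1).1) y.1.1, trI_mem hT hm _ y.1.2⟩ = b0 := by
    intro y
    refine Subtype.ext (funext fun i => ?_)
    rw [hp]
    show K (p y.1).1 (y.1.1.1 (j i)) = b0.1 i
    have h1 := hb (p y.1).1 y.2 i
    rw [← hp, ← h1, hT.KH _ _ (b0.2.1 i)]
  let F' : U × (p ⁻¹' {b0}) → p ⁻¹' U := fun q =>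
    ⟨⟨trG S (H q.1.1.1) (ka q.1.1.1) q.2.1.1, trG_mem hT hm _ q.2.1.2⟩, by
      show p _ ∈ U
      rw [hF q.1.1 q.1.2 q.2]
      exact q.1.2⟩
  let G' : p ⁻¹' U → U × (p ⁻¹' {b0}) := fun y =>
    (⟨p y.1, y.2⟩, ⟨⟨trI S (K (p y.1).1) (ka (p y.1).1) y.1.1, trI_mem hT hm _ y.1.2⟩, hG' y⟩)
  have hFc : Continuous F' := by
    refine Continuous.subtype_mk (Continuous.subtype_mk ?_ _) _
    refine (trG_cont (S := S) hGc hT hm).comp_continuous
      (f := fun q : U × (p ⁻¹' {b0}) => (q.1.1.1, q.2.1.1)) ?_ (fun q => ⟨mem_univ _, q.2.1.2⟩)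
    exact (continuous_subtype_val.comp (continuous_subtype_val.comp continuous_fst)).prodMk
      (continuous_subtype_val.comp (continuous_subtype_val.comp continuous_snd))
  have hGc' : Continuous G' := by
    refine Continuous.prodMk ?_ ?_
    · exact Continuous.subtype_mk (hpc.comp continuous_subtype_val) _
    · refine Continuous.subtype_mk (Continuous.subtype_mk ?_ _) _
      refine (trI_cont (S := S) hGc hT hm).comp_continuous
        (f := fun y : p ⁻¹' U => ((p y.1).1, y.1.1)) ?_ (fun y => ⟨mem_univ _, y.1.2⟩)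
      exact (continuous_subtype_val.comp (hpc.comp continuous_subtype_val)).prodMk
        (continuous_subtype_val.comp continuous_subtype_val)
  have hGF : ∀ q, G' (F' q) = q := by
    intro q
    have h1 : p (F' q).1 = q.1.1 := hF q.1.1 q.1.2 q.2
    refine Prod.ext (Subtype.ext h1) (Subtype.ext (Subtype.ext ?_))
    show trI S (K (p (F' q).1).1) (ka (p (F' q).1).1) (trG S (H q.1.1.1) (ka q.1.1.1) q.2.1.1) = q.2.1.1
    rw [h1]
    exact trI_trG hT hm _ q.2.1.2
  have hFG : ∀ y, F' (G' y) = y := by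
    intro y
    refine Subtype.ext (Subtype.ext ?_)
    show trG S (H (p y.1).1) (ka (p y.1).1) (trI S (K (p y.1).1) (ka (p y.1).1) y.1.1) = y.1.1
    exact trG_trI hT hm _ y.1.2
  exact ⟨U, hU, ⟨⟨F', G', hGF, hFG⟩, hFc, hGc'⟩, fun u f => hF u.1 u.2 f⟩

theorem forget_loctrivG (hG : IsG F G) {A R B : Type*} [Finite B] {m : ℕ} (hm : m ≠ 0)
    (S : SysG A R) (j : B → A) (hj : ∀ b b', b ≠ b' → S.ne (j b) (j b')) (b0 : ConfG G B) :
    LocTriv (forgetG G m S j hj ⁻¹' {b0}) (forgetG G m S j hj) := by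
  haveI := confG_pc hG B
  exact loctriv_of_lts (forgetG_continuous G m S j hj) (forget_ltsG hG hm S j hj) b0

end HYP4
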