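import Pool.Agent.HYP4.SGA
import Pool.Agent.HYP4.ForgetG
import Pool.Agent.ASP87.Fib
import Pool.Agent.ASP87.ExtPi

/-!
# HYP4/ConfAG: tuples of points in different orbits form an aspherical space (copy of TOR4/ConfA)
-/

namespace HYP4

open Complex Topology Set ASP87

variable {Γ : Type} [Group Γ] {F : FD Γ} {G : ℂ → ℂ → ℂ}

private theorem tca_empty : Asph (ConfG G PEmpty.{1}) := by
  intro d _ f _
  have hs : ∀ a b : ConfG G PEmpty.{1}, a = b := fun a b => Subtype.ext (funext fun i => i.elim)
  exact ⟨fun _ => ⟨fun i => i.elim, fun i => i.elim, fun i => i.elim⟩, continuous_const, fun x _ => hs _ _⟩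

private theorem tca_equiv {α β : Type} (e : α ≃ β) (h : Asph (ConfG G α)) : Asph (ConfG G β) := by
  intro d hd
  refine ext_retract (X := ConfG G α) (Y := ConfG G β)
    (fun b => ⟨fun a => b.1 (e a), fun i => b.2.1 _, fun i j hij => b.2.2 _ _ fun h => hij (e.injective h)⟩) ?_
    (fun a => ⟨fun b => a.1 (e.symm b), fun i => a.2.1 _, fun i j hij => a.2.2 _ _ fun h => hij (e.symm.injective h)⟩)
    ?_ ?_ (h d hd)
  · refine Continuous.subtype_mk (continuous_pi fun a => ?_) _
    have h1 : Continuous fun b : β → ℂ => b (e a) := continuous_apply (e a)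
    exact h1.comp continuous_subtype_val
  · refine Continuous.subtype_mk (continuous_pi fun b => ?_) _
    have h1 : Continuous fun a : α → ℂ => a (e.symm b) := continuous_apply (e.symm b)
    exact h1.comp continuous_subtype_val
  · intro b
    apply Subtype.ext
    funext x
    show b.1 (e (e.symm x)) = b.1 x
    rw [e.apply_symm_apply]

private def tcaS (α : Type) : SysG (Option α) Empty where
  src := Empty.elim
  tgt := Empty.elim
  ne := fun a b => a ≠ b

private theorem tca_hj (α : Type) : ∀ b b' : α, b ≠ b' → (tcaS α).ne (some b) (some b') :=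
  fun _ _ h h' => h (Option.some_injective _ h')

private theorem tca_fib (hG : IsG F G) {α : Type} [Finite α] (b0 : ConfG G α) :
    Asph (forgetG G 1 (tcaS α) some (tca_hj α) ⁻¹' {b0}) := by
  have h2 : Asph (SG G 1 (Empty.elim : Empty → ℂ) b0.1) :=
    asph_SG hG one_ne_zero (fun i => i.elim) b0.2.1 (fun i => i.elim) b0.2.2 (fun i => i.elim)
  have hval : ∀ y : (forgetG G 1 (tcaS α) some (tca_hj α) ⁻¹' {b0}), ∀ i,
      y.1.1.1 (some i) = b0.1 i := fun y i => congrFun (congrArg Subtype.val y.2) i
  have hne : ∀ y : (forgetG G 1 (tcaS α) some (tca_hj α) ⁻¹' {b0}), ∀ i,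
      G (y.1.1.1 none) (b0.1 i) ≠ 0 := by
    intro y i
    rw [← hval y i]
    exact y.1.2.2.2 none (some i) (by simp [tcaS])
  have hmem : ∀ c : SG G 1 (Empty.elim : Empty → ℂ) b0.1,
      (((fun o : Option α => o.elim c.1.1 b0.1), fun r : Empty => r.elim) :
        (Option α → ℂ) × (Empty → ℂ)) ∈ GG G 1 (tcaS α) := by
    intro c
    refine ⟨?_, fun r => r.elim, ?_⟩
    · intro a
      cases a with
      | none => exact c.2.1
      | some i => exact b0.2.1 i
    intro a b hab
    have hab' : a ≠ b := hab
    cases a with
    | none =>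
      cases b with
      | none => exact absurd rfl hab'
      | some j => exact c.2.2.2 j
    | some i =>
      cases b with
      | none =>
        have h3 := c.2.2.2 i
        show G (b0.1 i) c.1.1 ≠ 0
        exact fun h => h3 ((G_symm hG (b0.2.1 i) c.2.1).mp h)
      | some j => exact b0.2.2 i j fun h => hab' (congrArg some h)
  intro d hd
  refine ext_retract (X := SG G 1 (Empty.elim : Empty → ℂ) b0.1)
    (Y := (forgetG G 1 (tcaS α) some (tca_hj α) ⁻¹' {b0}))
    (fun y => ⟨(y.1.1.1 none, fun i => i.elim), y.1.2.1 none, fun i => i.elim, hne y⟩) ?_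
    (fun c => ⟨⟨_, hmem c⟩, Subtype.ext (funext fun i => rfl)⟩) ?_ ?_ (h2 d hd)
  · exact Continuous.subtype_mk (((continuous_apply none).comp (continuous_fst.comp
      (continuous_subtype_val.comp continuous_subtype_val))).prodMk continuous_const) _
  · refine Continuous.subtype_mk (Continuous.subtype_mk (Continuous.prodMk ?_
      continuous_const) _) _
    refine continuous_pi fun o => ?_
    cases o with
    | none => exact continuous_fst.comp continuous_subtype_val
    | some i => exact continuous_const
  · intro y
    apply Subtype.ext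
    apply Subtype.ext
    refine Prod.ext (funext fun o => ?_) (funext fun r => r.elim)
    cases o with
    | none => rfl
    | some i => exact (hval y i).symm

private theorem tca_option (hG : IsG F G) {α : Type} [Finite α] (h : Asph (ConfG G α)) :
    Asph (ConfG G (Option α)) := by
  intro d hd
  obtain ⟨b0⟩ : Nonempty (ConfG G α) := (confG_pc hG α).nonempty
  have h1 := ext_total (forget_loctrivG hG one_ne_zero (tcaS α) some (tca_hj α) b0) (h d hd)
    (tca_fib hG b0 d hd)
  refine ext_retract (X := GG G 1 (tcaS α)) (Y := ConfG G (Option α))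
    (fun z => ⟨(z.1, fun r => r.elim), ⟨z.2.1, fun r => r.elim, fun a b hab => z.2.2 a b hab⟩⟩) ?_
    (fun y => ⟨y.1.1, y.2.1, fun a b hab => y.2.2.2 a b hab⟩) ?_ (fun z => rfl) h1
  · exact Continuous.subtype_mk (continuous_subtype_val.prodMk continuous_const) _
  · exact Continuous.subtype_mk (continuous_fst.comp continuous_subtype_val) _

theorem asph_confG (hG : IsG F G) (B : Type) [Finite B] : Asph (ConfG G B) := by
  exact Finite.induction_empty_option (P := fun α : Type => Asph (ConfG G α))
    (fun e h => tca_equiv e h) tca_empty (fun h => tca_option hG h) B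

end HYP4
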