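import Pool.Agent.HYP4.HS

/-!
# HYP4/GP: the Weierstrass product

`p γ = γ 0 / ‖γ 0‖` (`1` if `γ 0 = 0`), `‖p γ‖ = 1`, `‖γ 0 - p γ‖ = 1 - ‖γ 0‖ ≤ 1 - ‖γ 0‖² = 1/‖α‖²`;
`‖γ c - γ 0‖ = ‖c‖/(‖q c‖ ‖α‖) ≤ ‖c‖ / (‖α‖² (1 - ‖c‖))` (`mb_sub`, `mb_den_le`, `‖β‖ ≤ ‖α‖`). So
`u γ c z = (γ c - p γ)/(z - p γ)` has `‖u‖ ≤ 1 / ((1 - ‖c‖)(1 - ‖z‖) ‖α‖²)`. `E u = (1 - u) exp u`,
`1 - u = (z - γ c)/(z - p γ)`. `G c z = ∏' γ, E (u γ c z)`.
Fix `R < 1` (if `R ≤ 0` the discs are empty, take anything), `C = 1/(1-R)²`; `S` = the finite set of `γ` with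
`C / ‖α‖² > 1/2` (`finite_al`). For `γ ∉ S`, `‖c‖, ‖z‖ < R`: `‖u‖ ≤ 1/2`, `1 - u ≠ 0`, `E u = exp (l u)`,
`l u = log (1 - u) + u`, `‖l u‖ ≤ ‖u‖²` (`Complex.norm_log_one_add_sub_self_le`) `≤ C² / ‖α‖⁴`: `Σ_{γ ∉ S} l (u γ c z)` converges
uniformly to a continuous function `T (c,z)` (`continuousOn_tsum`). `G c z = (∏_{γ ∈ S} E (u γ)) exp (T (c,z))`
(HasProd of finite part and complement: `HasSum.cexp`, `Complex.cexp_tsum_eq_tprod`, `Finset.hasProd_compl_iff`...),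
`V (c,z) = (∏_{γ ∈ S} exp (u γ)/(z - p γ)) exp (T (c,z))`.
-/

namespace HYP4

open Complex Topology Set ASP87

variable {Γ : Type} [Group Γ] (F : FD Γ)

/-- the boundary point next to `γ 0` -/
private noncomputable def pg (γ : Γ) : ℂ :=
  if F.act γ 0 = 0 then 1 else F.act γ 0 / (‖F.act γ 0‖ : ℂ)

private theorem pg_norm (γ : Γ) : ‖pg F γ‖ = 1 := by
  unfold pg
  split_ifs with h
  · simp
  · rw [norm_div, Complex.norm_real, norm_norm]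
    exact div_self (norm_ne_zero_iff.mpr h)

private theorem pg_sub (γ : Γ) : ‖F.act γ 0 - pg F γ‖ ≤ (‖F.al γ‖ ^ 2)⁻¹ := by
  have h1 : ‖F.act γ 0‖ < 1 := act_norm F γ (by simp)
  have h2 : ‖F.act γ 0 - pg F γ‖ = 1 - ‖F.act γ 0‖ := by
    unfold pg
    split_ifs with h
    · rw [h]; simp
    · have hn : (‖F.act γ 0‖ : ℂ) ≠ 0 := by
        exact_mod_cast norm_ne_zero_iff.mpr h
      have : F.act γ 0 - F.act γ 0 / (‖F.act γ 0‖ : ℂ) =
          (F.act γ 0 / (‖F.act γ 0‖ : ℂ)) * ((‖F.act γ 0‖ - 1 : ℝ) : ℂ) := by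
        push_cast
        field_simp
      rw [this, norm_mul, norm_div, Complex.norm_real, norm_norm, div_self (norm_ne_zero_iff.mpr h),
        Complex.norm_real, one_mul, Real.norm_eq_abs, abs_of_neg (by linarith)]
      ring
  rw [h2, ← act_zero_norm F γ]
  nlinarith [norm_nonneg (F.act γ 0)]

private theorem be_le (γ : Γ) : ‖F.be γ‖ ≤ ‖F.al γ‖ := by
  have := F.nm γ
  have h1 := norm_nonneg (F.be γ)
  have h2 := norm_nonneg (F.al γ)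
  nlinarith

private theorem al_pos (γ : Γ) : 0 < ‖F.al γ‖ := by
  have := F.nm γ
  have h1 := norm_nonneg (F.be γ)
  have h2 := norm_nonneg (F.al γ)
  by_contra h
  have h3 : ‖F.al γ‖ = 0 := le_antisymm (not_lt.mp h) h2
  rw [h3] at this
  nlinarith

private theorem act_sub_zero (γ : Γ) {c : ℂ} (hc : ‖c‖ < 1) :
    ‖F.act γ c - F.act γ 0‖ ≤ ‖c‖ / (‖F.al γ‖ ^ 2 * (1 - ‖c‖)) := by
  have ha := al_pos F γ
  have h0 : ‖(0 : ℂ)‖ < 1 := by simp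
  unfold FD.act
  rw [mb_sub (F.nm γ) (F.sg γ) hc h0, norm_div, cb_norm, sub_zero, norm_mul, cb_zero, mul_zero,
    zero_add, RCLike.norm_conj]
  have hq := mb_den_le (α := F.al γ) (β := F.be γ) (F.sg γ) c
  have h1 : 0 ≤ ‖c‖ := norm_nonneg c
  have h2 : ‖F.al γ‖ * (1 - ‖c‖) ≤
      ‖(starRingEnd ℂ) (F.be γ) * cb (F.sg γ) c + (starRingEnd ℂ) (F.al γ)‖ := by
    have := mul_le_mul_of_nonneg_right (be_le F γ) h1
    linarith
  have h3 : 0 < ‖F.al γ‖ * (1 - ‖c‖) := mul_pos ha (by linarith)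
  refine div_le_div_of_nonneg_left h1 (by nlinarith) ?_
  calc ‖F.al γ‖ ^ 2 * (1 - ‖c‖) = (‖F.al γ‖ * (1 - ‖c‖)) * ‖F.al γ‖ := by ring
    _ ≤ _ := mul_le_mul_of_nonneg_right h2 ha.le

private theorem act_sub_pg (γ : Γ) {c : ℂ} (hc : ‖c‖ < 1) :
    ‖F.act γ c - pg F γ‖ ≤ (‖F.al γ‖ ^ 2)⁻¹ * (1 - ‖c‖)⁻¹ := by
  have ha := al_pos F γ
  have h1 : F.act γ c - pg F γ = (F.act γ c - F.act γ 0) + (F.act γ 0 - pg F γ) := by ring
  rw [h1]
  refine (norm_add_le _ _).trans ((add_le_add (act_sub_zero F γ hc) (pg_sub F γ)).trans ?_)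
  have h2 : 0 < 1 - ‖c‖ := by linarith
  apply le_of_eq
  field_simp
  ring

/-- the quotient -/
private noncomputable def ug (γ : Γ) (q : ℂ × ℂ) : ℂ := (F.act γ q.1 - pg F γ) / (q.2 - pg F γ)

private theorem den_le (γ : Γ) (z : ℂ) : 1 - ‖z‖ ≤ ‖z - pg F γ‖ := by
  have := norm_sub_norm_le (pg F γ) z
  rw [pg_norm, norm_sub_rev] at this
  exact this

private theorem den_ne (γ : Γ) {z : ℂ} (hz : ‖z‖ < 1) : z - pg F γ ≠ 0 := by
  have := den_le F γ z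
  rw [← norm_pos_iff]
  linarith

private theorem ug_le {R : ℝ} (hR : R < 1) (γ : Γ) {q : ℂ × ℂ} (hc : ‖q.1‖ < R) (hz : ‖q.2‖ < R) :
    ‖ug F γ q‖ ≤ ((1 - R) ^ 2)⁻¹ * (‖F.al γ‖ ^ 2)⁻¹ := by
  have ha := al_pos F γ
  have hR' : 0 < 1 - R := by linarith
  unfold ug
  rw [norm_div]
  have h1 := act_sub_pg F γ (hc.trans hR)
  have h2 := den_le F γ q.2
  have h3 : (1 - ‖q.1‖)⁻¹ ≤ (1 - R)⁻¹ := inv_anti₀ hR' (by linarith)
  have h4 : 0 < (‖F.al γ‖ ^ 2)⁻¹ := by positivity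
  have h5 : ‖F.act γ q.1 - pg F γ‖ ≤ (‖F.al γ‖ ^ 2)⁻¹ * (1 - R)⁻¹ :=
    h1.trans (mul_le_mul_of_nonneg_left h3 h4.le)
  have h6 : 1 - R ≤ ‖q.2 - pg F γ‖ := by linarith
  calc ‖F.act γ q.1 - pg F γ‖ / ‖q.2 - pg F γ‖
      ≤ ((‖F.al γ‖ ^ 2)⁻¹ * (1 - R)⁻¹) / (1 - R) := by
        refine div_le_div₀ (by positivity) h5 hR' h6
    _ = ((1 - R) ^ 2)⁻¹ * (‖F.al γ‖ ^ 2)⁻¹ := by
        field_simp

private theorem one_sub_ug (γ : Γ) {q : ℂ × ℂ} (hz : ‖q.2‖ < 1) :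
    1 - ug F γ q = (q.2 - F.act γ q.1) / (q.2 - pg F γ) := by
  have := den_ne F γ hz
  unfold ug
  field_simp
  ring

private theorem ug_cont {R : ℝ} (hR : R < 1) (γ : Γ) :
    ContinuousOn (ug F γ) (Metric.ball (0 : ℂ) R ×ˢ Metric.ball (0 : ℂ) R) := by
  unfold ug
  refine ContinuousOn.div ?_ ?_ ?_
  · refine ContinuousOn.sub ?_ continuousOn_const
    refine (act_cont F γ).comp continuousOn_fst ?_
    rintro ⟨c, z⟩ ⟨hc, _⟩
    rw [mem_ball_zero_iff] at hc ⊢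
    exact hc.trans hR
  · exact continuousOn_snd.sub continuousOn_const
  · rintro ⟨c, z⟩ ⟨_, hz⟩
    rw [mem_ball_zero_iff] at hz
    exact den_ne F γ (hz.trans hR)

theorem exists_G : ∃ G : ℂ → ℂ → ℂ, IsG F G := by
  refine ⟨fun c z => ∏' γ, ((1 - ug F γ (c, z)) * exp (ug F γ (c, z))), ?_⟩
  intro R hR
  classical
  have hR' : 0 < 1 - R := by linarith
  obtain ⟨C, hC⟩ : ∃ C, C = ((1 - R) ^ 2)⁻¹ := ⟨_, rfl⟩
  have hC0 : 0 < C := by rw [hC]; positivity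
  obtain ⟨S, hS⟩ : ∃ S : Finset Γ, ∀ γ, γ ∈ S ↔ ‖F.al γ‖ ≤ √(2 * C) :=
    ⟨(finite_al F (√(2 * C))).toFinset, fun γ => by simp⟩
  -- outside `S`
  have hsm : ∀ γ, γ ∉ S → C * (‖F.al γ‖ ^ 2)⁻¹ ≤ 1 / 2 := by
    intro γ hγ
    rw [hS, not_le] at hγ
    have ha := al_pos F γ
    have h1 : 2 * C < ‖F.al γ‖ ^ 2 := by
      have h2 : √(2 * C) ^ 2 < ‖F.al γ‖ ^ 2 := by gcongr
      rwa [Real.sq_sqrt (by positivity)] at h2
    rw [← div_eq_mul_inv, div_le_iff₀ (by positivity)]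
    linarith
  have hul : ∀ γ, γ ∉ S → ∀ q : ℂ × ℂ, ‖q.1‖ < R → ‖q.2‖ < R → ‖ug F γ q‖ ≤ 1 / 2 := by
    intro γ hγ q h1 h2
    refine (ug_le F hR γ h1 h2).trans ?_
    rw [← hC]
    exact hsm γ hγ
  have hslit : ∀ γ, γ ∉ S → ∀ q : ℂ × ℂ, ‖q.1‖ < R → ‖q.2‖ < R → 1 - ug F γ q ∈ slitPlane := by
    intro γ hγ q h1 h2
    have h3 := hul γ hγ q h1 h2
    have h4 := (Complex.abs_re_le_norm (ug F γ q))
    have h5 := (abs_le.mp h4).2
    left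
    rw [Complex.sub_re, Complex.one_re]
    linarith
  -- the terms
  let l : (((S : Set Γ)ᶜ : Set Γ)) → ℂ × ℂ → ℂ :=
    fun γ q => Complex.log (1 - ug F γ.1 q) + ug F γ.1 q
  let b : (((S : Set Γ)ᶜ : Set Γ)) → ℝ := fun γ => C ^ 2 * ((‖F.al γ.1‖ ^ 2)⁻¹) ^ 2
  have hb : Summable b := ((summ_al F).subtype _).mul_left (C ^ 2)
  have hlb : ∀ γ, ∀ q ∈ Metric.ball (0 : ℂ) R ×ˢ Metric.ball (0 : ℂ) R, ‖l γ q‖ ≤ b γ := by
    rintro ⟨γ, hγ⟩ q ⟨h1, h2⟩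
    rw [mem_ball_zero_iff] at h1 h2
    have hγ' : γ ∉ S := by
      intro h
      exact hγ (Finset.mem_coe.mpr h)
    have h3 := hul γ hγ' q h1 h2
    have h4 := norm_log_one_add_sub_self_le (z := -ug F γ q) (by rw [norm_neg]; linarith)
    rw [norm_neg, ← sub_eq_add_neg, sub_neg_eq_add] at h4
    have h5 := ug_le F hR γ h1 h2
    rw [← hC] at h5
    have h0 := norm_nonneg (ug F γ q)
    show ‖Complex.log (1 - ug F γ q) + ug F γ q‖ ≤ C ^ 2 * ((‖F.al γ‖ ^ 2)⁻¹) ^ 2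
    have h6 : (1 - ‖ug F γ q‖)⁻¹ ≤ 2 := by
      rw [inv_le_comm₀ (by linarith) (by norm_num)]
      linarith
    have h7 : ‖ug F γ q‖ ^ 2 * (1 - ‖ug F γ q‖)⁻¹ / 2 ≤ ‖ug F γ q‖ ^ 2 := by
      have := mul_le_mul_of_nonneg_left h6 (sq_nonneg ‖ug F γ q‖)
      linarith
    refine h4.trans (h7.trans ?_)
    rw [← mul_pow]
    exact pow_le_pow_left₀ h0 h5 2
  have hlc : ∀ γ, ContinuousOn (l γ) (Metric.ball (0 : ℂ) R ×ˢ Metric.ball (0 : ℂ) R) := by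
    rintro ⟨γ, hγ⟩
    have hγ' : γ ∉ S := by
      intro h
      exact hγ (Finset.mem_coe.mpr h)
    refine ContinuousOn.add (ContinuousOn.clog (continuousOn_const.sub (ug_cont F hR γ)) ?_)
      (ug_cont F hR γ)
    rintro q ⟨h1, h2⟩
    rw [mem_ball_zero_iff] at h1 h2
    exact hslit γ hγ' q h1 h2
  have hT : ContinuousOn (fun q => ∑' γ, l γ q) (Metric.ball (0 : ℂ) R ×ˢ Metric.ball (0 : ℂ) R) :=
    continuousOn_tsum hlc hb hlb
  refine ⟨S, fun q => (∏ γ ∈ S, (exp (ug F γ q) / (q.2 - pg F γ))) * exp (∑' γ, l γ q),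
    ?_, ?_, ?_⟩
  · refine ContinuousOn.mul ?_ hT.cexp
    refine continuousOn_finsetProd _ fun γ _ => ?_
    refine ContinuousOn.div (ug_cont F hR γ).cexp (continuousOn_snd.sub continuousOn_const) ?_
    rintro ⟨c, z⟩ ⟨_, hz⟩
    rw [mem_ball_zero_iff] at hz
    exact den_ne F γ (hz.trans hR)
  · intro c z hc hz
    have hz1 : ‖z‖ < 1 := hz.trans hR
    refine ⟨?_, ?_⟩
    · refine mul_ne_zero (Finset.prod_ne_zero_iff.mpr fun γ _ => ?_) (exp_ne_zero _)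
      exact div_ne_zero (exp_ne_zero _) (den_ne F γ hz1)
    · have hsum : HasSum (fun γ => l γ (c, z)) (∑' γ, l γ (c, z)) := by
        refine (Summable.of_norm_bounded hb fun γ => ?_).hasSum
        refine hlb γ (c, z) ⟨?_, ?_⟩
        · rwa [mem_ball_zero_iff]
        · rwa [mem_ball_zero_iff]
      have hprod := hsum.cexp
      have hfun : (cexp ∘ fun γ => l γ (c, z)) =
          (fun γ => (1 - ug F γ (c, z)) * exp (ug F γ (c, z))) ∘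
            ((↑) : (((S : Set Γ)ᶜ : Set Γ)) → Γ) := by
        funext γ
        show exp (Complex.log (1 - ug F γ.1 (c, z)) + ug F γ.1 (c, z)) = _
        have hγ' : γ.1 ∉ S := by
          intro h
          exact γ.2 (Finset.mem_coe.mpr h)
        rw [exp_add, exp_log (slitPlane_ne_zero (hslit γ.1 hγ' (c, z) hc hz))]
        rfl
      rw [hfun] at hprod
      have hall := (S.hasProd (fun γ => (1 - ug F γ (c, z)) * exp (ug F γ (c, z)))).mul_compl hprod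
      show ∏' γ, ((1 - ug F γ (c, z)) * exp (ug F γ (c, z))) = _
      rw [hall.tprod_eq]
      have h8 : ∏ γ ∈ S, ((1 - ug F γ (c, z)) * exp (ug F γ (c, z))) =
          (∏ γ ∈ S, (exp (ug F γ (c, z)) / (z - pg F γ))) * ∏ γ ∈ S, (z - F.act γ c) := by
        rw [← Finset.prod_mul_distrib]
        refine Finset.prod_congr rfl fun γ _ => ?_
        rw [one_sub_ug F γ (q := (c, z)) hz1]
        have := den_ne F γ hz1
        field_simp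
      rw [h8]
      show _ = ((∏ γ ∈ S, (exp (ug F γ (c, z)) / (z - pg F γ))) * exp (∑' γ, l γ (c, z))) *
        ∏ γ ∈ S, (z - F.act γ c)
      ring
  · intro γ hγ c z hc hz hzc
    have h1 := slitPlane_ne_zero (hslit γ hγ (c, z) hc hz)
    rw [one_sub_ug F γ (q := (c, z)) (hz.trans hR)] at h1
    apply h1
    show (z - F.act γ c) / (z - pg F γ) = 0
    rw [hzc, sub_self, zero_div]

end HYP4
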