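import Pool.Agent.HYP4.GQ

/-! # HYP4/GoodG: `G x0` is good -/

namespace HYP4

open Complex Topology Set ASP87

variable {Γ : Type} [Group Γ] {F : FD Γ} {G : ℂ → ℂ → ℂ}

/-- at `γ x0`: `G x0 z = (z - γ x0) W z`, `W` continuous there, `W (γ x0) ≠ 0` (the other factors do not vanish,
`act_free`) -/
theorem good_G (hG : IsG F G) {x0 : ℂ} (hx0 : ‖x0‖ < 1) : Good F x0 (G x0) := by
  classical
  refine ⟨?_, fun z hz => G_zero hG hx0 hz, fun γ => ?_⟩
  · have h := G_cont hG
    exact h.comp (f := fun z : ℂ => (x0, z)) (by fun_prop) (fun z hz => ⟨by simpa using hx0, hz⟩)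
  · set p := F.act γ x0 with hp
    have hp1 : ‖p‖ < 1 := act_norm F γ hx0
    obtain ⟨R, hR, hR1⟩ := exists_between (max_lt hx0 hp1)
    have hx : ‖x0‖ < R := (le_max_left _ _).trans_lt hR
    have hpR : ‖p‖ < R := (le_max_right _ _).trans_lt hR
    obtain ⟨S, V, hVc, hV, hS⟩ := hG R hR1
    have hγ : γ ∈ S := by
      by_contra h
      exact hS γ h x0 p hx hpR hp
    set W : ℂ → ℂ := fun z => V (x0, z) * ∏ δ ∈ S.erase γ, (z - F.act δ x0) with hW
    have hWp : W p ≠ 0 := by
      refine mul_ne_zero (hV x0 p hx hpR).1 (Finset.prod_ne_zero_iff.2 fun δ hδ => ?_)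
      rw [sub_ne_zero]
      intro h
      exact (Finset.ne_of_mem_erase hδ) (act_free F hx0 (hp.symm.trans h)).symm
    have hVat : ContinuousAt (fun z => V (x0, z)) p := by
      have h1 : ContinuousAt V (x0, p) := hVc.continuousAt
        (prod_mem_nhds (Metric.isOpen_ball.mem_nhds (by simpa using hx))
          (Metric.isOpen_ball.mem_nhds (by simpa using hpR)))
      exact ContinuousAt.comp (f := fun z : ℂ => (x0, z)) (x := p) h1 (by fun_prop)
    have hWc : ContinuousAt W p := hVat.mul (by fun_prop)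
    refine ⟨W p, hWp, ?_⟩
    rw [hasDerivAt_iff_tendsto_slope]
    have h2 : Filter.Tendsto W (𝓝[≠] p) (𝓝 (W p)) := hWc.tendsto.mono_left nhdsWithin_le_nhds
    refine h2.congr' ?_
    have h3 : Metric.ball (0 : ℂ) R ∈ 𝓝[≠] p :=
      mem_nhdsWithin_of_mem_nhds (Metric.isOpen_ball.mem_nhds (by simpa using hpR))
    filter_upwards [h3, self_mem_nhdsWithin] with z hz hzp
    have hz' : ‖z‖ < R := by simpa using hz
    have key : ∀ w, ‖w‖ < R → G x0 w = (w - p) * W w := by
      intro w hw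
      rw [(hV x0 w hx hw).2, ← Finset.mul_prod_erase S _ hγ]
      simp only [hW]
      ring
    have hzp' : z - p ≠ 0 := sub_ne_zero.2 hzp
    rw [slope_def_field, key z hz', key p hpR, sub_self, zero_mul, sub_zero,
      mul_div_cancel_left₀ _ hzp']

end HYP4
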