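import Pool.Agent.HYP4.HS
import Pool.Agent.HYP4.HLog

/-!
# HYP4/RootG: comparison of two functions with the same simple zeros

`exists_root`: `f1 = u f2` with `u` continuous and nowhere zero on the disc: `u z = f1 z / f2 z` outside the zeros,
`u p = f1' p / f2' p` at a zero `p` (slopes tend to the derivatives: `hasDerivAt_iff_tendsto_slope`). Then an `m`-th
root of `u`: `L` with `exp (L z) = u z / u 0` by lifting the homotopy `(t, z) ↦ u (t z)/u 0` through `exp`
(`exists_hlog`), `r = exp (L/m) * root of u 0`.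
-/

namespace HYP4

open scoped unitInterval
open Complex Topology Set ASP87

variable {Γ : Type} [Group Γ] {F : FD Γ}

/-- the quotient of two good functions -/
private noncomputable def quoG (f1 f2 : ℂ → ℂ) (z : ℂ) : ℂ :=
  if f2 z = 0 then deriv f1 z / deriv f2 z else f1 z / f2 z

private theorem quoG_at {x0 : ℂ} {f1 f2 : ℂ → ℂ} (h1 : Good F x0 f1)
    (h2 : Good F x0 f2) {z : ℂ} (hz : ‖z‖ < 1) :
    ContinuousAt (quoG f1 f2) z ∧ quoG f1 f2 z ≠ 0 ∧ f1 z = quoG f1 f2 z * f2 z := by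
  have hzD : z ∈ Dc := by simpa [Dc, Metric.mem_ball, dist_zero_right] using hz
  have hnhds : Dc ∈ 𝓝 z := Metric.isOpen_ball.mem_nhds hzD
  have c1 : ContinuousAt f1 z := h1.cont.continuousAt hnhds
  have c2 : ContinuousAt f2 z := h2.cont.continuousAt hnhds
  by_cases h : f2 z = 0
  · obtain ⟨γ, hγ⟩ := (h2.zero z hz).1 h
    have h1z : f1 z = 0 := (h1.zero z hz).2 ⟨γ, hγ⟩
    obtain ⟨a, ha, hda⟩ := h1.der γ
    obtain ⟨b, hb, hdb⟩ := h2.der γ
    rw [← hγ] at hda hdb
    have hq : quoG f1 f2 z = a / b := by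
      unfold quoG
      rw [if_pos h, hda.deriv, hdb.deriv]
    refine ⟨?_, ?_, ?_⟩
    · rw [continuousAt_iff_punctured_nhds, hq]
      have t1 := hasDerivAt_iff_tendsto_slope.1 hda
      have t2 := hasDerivAt_iff_tendsto_slope.1 hdb
      have t := t1.div t2 hb
      refine t.congr' ?_
      have hne : ∀ᶠ w in 𝓝[≠] z, f2 w ≠ 0 := hdb.eventually_ne hb
      filter_upwards [hne, self_mem_nhdsWithin] with w hw hwz
      have hwz' : w - z ≠ 0 := sub_ne_zero.2 hwz
      unfold quoG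
      rw [if_neg hw]
      simp only [Pi.div_apply, slope_def_field, h, h1z, sub_zero]
      rw [div_div_div_cancel_right₀ hwz']
    · rw [hq]
      exact div_ne_zero ha hb
    · rw [h1z, h, mul_zero]
  · have hq : quoG f1 f2 z = f1 z / f2 z := by
      unfold quoG
      rw [if_neg h]
    have h1z : f1 z ≠ 0 := fun h0 => h ((h2.zero z hz).2 ((h1.zero z hz).1 h0))
    refine ⟨?_, ?_, ?_⟩
    · have hne : ∀ᶠ w in 𝓝 z, f2 w ≠ 0 := c2.eventually_ne h
      refine (c1.div c2 h).congr ?_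
      filter_upwards [hne] with w hw
      unfold quoG
      rw [if_neg hw]
      rfl
    · rw [hq]
      exact div_ne_zero h1z h
    · rw [hq]
      field_simp

theorem exists_root {x0 : ℂ} (hx0 : ‖x0‖ < 1) {f1 f2 : ℂ → ℂ} (h1 : Good F x0 f1)
    (h2 : Good F x0 f2) {m : ℕ} (hm : m ≠ 0) :
    ∃ r : ℂ → ℂ, ContinuousOn r Dc ∧ ∀ z, ‖z‖ < 1 → r z ≠ 0 ∧ f1 z = r z ^ m * f2 z := by
  have hu : ∀ z : ℂ, ‖z‖ < 1 → _ := fun z hz => quoG_at h1 h2 hz
  have hmem : ∀ (t : I) (a : Dc), ‖((t : ℝ) : ℂ) * (a : ℂ)‖ < 1 := by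
    intro t a
    have ha : ‖(a : ℂ)‖ < 1 := by
      have h := a.2
      rwa [Metric.mem_ball, dist_zero_right] at h
    have ht0 := t.2.1
    have ht1 := t.2.2
    rw [norm_mul, Complex.norm_real, Real.norm_eq_abs, abs_of_nonneg ht0]
    calc (t : ℝ) * ‖(a : ℂ)‖ ≤ 1 * ‖(a : ℂ)‖ := mul_le_mul_of_nonneg_right ht1 (norm_nonneg _)
      _ < 1 := by rw [one_mul]; exact ha
  have h00 : quoG f1 f2 0 ≠ 0 := (hu 0 (by simp)).2.1
  obtain ⟨L, hL, hexp⟩ := exists_hlog (A := Dc)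
    (fun q => quoG f1 f2 (((q.1 : ℝ) : ℂ) * (q.2 : ℂ)) / quoG f1 f2 0)
    (by
      rw [continuous_iff_continuousAt]
      intro q
      have hc := (hu _ (hmem q.1 q.2)).1
      have hg : ContinuousAt (fun q : I × Dc => ((q.1 : ℝ) : ℂ) * (q.2 : ℂ)) q := by
        have : Continuous (fun q : I × Dc => ((q.1 : ℝ) : ℂ) * (q.2 : ℂ)) := by fun_prop
        exact this.continuousAt
      have hcomp : ContinuousAt (fun q : I × Dc => quoG f1 f2 (((q.1 : ℝ) : ℂ) * (q.2 : ℂ))) q :=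
        ContinuousAt.comp (f := fun q : I × Dc => ((q.1 : ℝ) : ℂ) * (q.2 : ℂ)) hc hg
      exact hcomp.div_const _)
    (fun q => div_ne_zero (hu _ (hmem q.1 q.2)).2.1 h00)
    (fun a => by simp [h00])
  obtain ⟨c, hc⟩ := IsAlgClosed.exists_pow_nat_eq (quoG f1 f2 0) (Nat.pos_of_ne_zero hm)
  classical
  refine ⟨fun z => if h : z ∈ Dc then exp (L ⟨z, h⟩ / m) * c else 0, ?_, ?_⟩
  · rw [continuousOn_iff_continuous_domRestrict]
    have : (Dc.domRestrict fun z => if h : z ∈ Dc then exp (L ⟨z, h⟩ / m) * c else 0) =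
        fun a : Dc => exp (L a / m) * c := by
      funext a
      rw [Set.domRestrict_apply, dif_pos a.2]
    rw [this]
    fun_prop
  · intro z hz
    have hzD : z ∈ Dc := by simpa [Dc, Metric.mem_ball, dist_zero_right] using hz
    have hc0 : c ≠ 0 := by
      intro h
      rw [h, zero_pow hm] at hc
      exact h00 hc.symm
    simp only [dif_pos hzD]
    refine ⟨mul_ne_zero (exp_ne_zero _) hc0, ?_⟩
    have he := hexp ⟨z, hzD⟩
    simp only [Set.Icc.coe_one, ofReal_one, one_mul] at he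
    have hm' : (m : ℂ) ≠ 0 := Nat.cast_ne_zero.2 hm
    have hpow : (exp (L ⟨z, hzD⟩ / m) * c) ^ m = quoG f1 f2 z := by
      rw [mul_pow, hc, ← Complex.exp_nat_mul, mul_div_cancel₀ _ hm', he]
      field_simp
    rw [hpow]
    exact (hu z hz).2.2

end HYP4
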