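import Pool.Agent.HYP4.MainG
import Pool.Agent.HYP4.RootG
import Pool.Agent.HYP4.CompG
import Pool.Agent.HYP4.GoodG
import Pool.Agent.HYP4.GP
import Pool.Agent.ASP87.ExtPi

/-!
# HYP4/CurG: the curve over a hyperbolic surface with one cone point, its group, `PB_n`

`orbitG`: given `q.1 = γ p.1`: `r` from `exists_root` for `cb (sg γ) (f (γ z)) = r(z)^m f(z)`; the homeomorphism
`(z, s) ↦ (γ z, cb (sg γ) (r z * s) * ζ)`, `ζ^m = 1` with value `q` at `p` (`ζ = q.2 / cb (r s)` if `q.2 ≠ 0`, else `1`),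
inverse `(z, s) ↦ (γ⁻¹ z, cb (s / ζ) / r (γ⁻¹ z))`. `PBg_homeo`: `PBg` is `XG F n m f` by `orbitG`. `XG_homeo`: multiply the
roots by `r`, `f = r^m G x0`.
-/

namespace HYP4

open Complex Topology Set ASP87

variable {Γ : Type} [Group Γ] {F : FD Γ}

/-- `M̃ = {(z, s) : ‖z‖ < 1, s^m = f z}` -/
def Mg (m : ℕ) (f : ℂ → ℂ) : Type := {p : ℂ × ℂ // ‖p.1‖ < 1 ∧ p.2 ^ m = f p.1}

noncomputable instance (m : ℕ) (f : ℂ → ℂ) : TopologicalSpace (Mg m f) := instTopologicalSpaceSubtype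

/-- `H` = the group of all homeomorphisms of `M̃` over the surface `D/Γ` -/
def HG (F : FD Γ) (m : ℕ) (f : ℂ → ℂ) : Subgroup (Mg m f ≃ₜ Mg m f) where
  carrier := {h | ∀ p, ∃ γ, (h p).1.1 = F.act γ p.1.1}
  mul_mem' := by
    intro h k hh hk p
    obtain ⟨γ, h1⟩ := hh (k p)
    obtain ⟨δ, h2⟩ := hk p
    refine ⟨γ * δ, ?_⟩
    show (h (k p)).1.1 = _
    rw [h1, h2, act_mul F γ δ p.2.1]
  one_mem' := fun p => ⟨1, (act_one F p.2.1).symm⟩
  inv_mem' := by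
    intro h hh p
    obtain ⟨γ, h1⟩ := hh (h.symm p)
    refine ⟨γ⁻¹, ?_⟩
    show (h.symm p).1.1 = _
    rw [Homeomorph.apply_symm_apply] at h1
    rw [h1, act_inv_act F γ (h.symm p).2.1]

/-- `PB_n(M̃, H)`: the tuples of points of `M̃` in pairwise different orbits of `H` -/
def PBg (F : FD Γ) (n m : ℕ) (f : ℂ → ℂ) : Type :=
  {x : Fin n → Mg m f // ∀ i j, i ≠ j → ∀ h ∈ HG F m f, h (x i) ≠ x j}

noncomputable instance (F : FD Γ) (n m : ℕ) (f : ℂ → ℂ) : TopologicalSpace (PBg F n m f) :=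
  instTopologicalSpaceSubtype

private theorem cg_fst {m : ℕ} {f : ℂ → ℂ} : Continuous fun p : Mg m f => p.1.1 :=
  continuous_fst.comp continuous_subtype_val

private theorem cg_snd {m : ℕ} {f : ℂ → ℂ} : Continuous fun p : Mg m f => p.1.2 :=
  continuous_snd.comp continuous_subtype_val

private theorem cg_on {m : ℕ} {f r : ℂ → ℂ} (hr : ContinuousOn r Dc) :
    Continuous fun p : Mg m f => r p.1.1 :=
  hr.comp_continuous cg_fst (fun p => by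
    rw [Metric.mem_ball, dist_zero_right]
    exact p.2.1)

/-- a homeomorphism of the curve over `γ` -/
private theorem cg_exists {m : ℕ} {f r : ℂ → ℂ} (γ : Γ) (hr : ContinuousOn r Dc)
    (hr0 : ∀ z, ‖z‖ < 1 → r z ≠ 0)
    (hrf : ∀ z, ‖z‖ < 1 → cb (F.sg γ) (f (F.act γ z)) = r z ^ m * f z) {ζ : ℂ} (hζ : ζ ^ m = 1)
    (hζ0 : ζ ≠ 0) :
    ∃ h ∈ HG F m f, ∀ p : Mg m f,
      (h p).1 = (F.act γ p.1.1, cb (F.sg γ) (r p.1.1 * p.1.2) * ζ) := by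
  have h1 : ∀ p : Mg m f, ‖F.act γ p.1.1‖ < 1 ∧
      (cb (F.sg γ) (r p.1.1 * p.1.2) * ζ) ^ m = f (F.act γ p.1.1) := by
    intro p
    refine ⟨act_norm F γ p.2.1, ?_⟩
    rw [mul_pow, hζ, mul_one, ← cb_pow, mul_pow, p.2.2, ← hrf _ p.2.1, cb_cb]
  have h2 : ∀ p : Mg m f, ‖F.act γ⁻¹ p.1.1‖ < 1 ∧
      (cb (F.sg γ) (p.1.2 / ζ) / r (F.act γ⁻¹ p.1.1)) ^ m = f (F.act γ⁻¹ p.1.1) := by
    intro p
    have h3 := act_norm F γ⁻¹ p.2.1
    refine ⟨h3, ?_⟩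
    have h4 := hrf _ h3
    rw [act_act_inv F γ p.2.1] at h4
    rw [div_pow, ← cb_pow, div_pow, hζ, div_one, p.2.2, h4]
    exact mul_div_cancel_left₀ _ (pow_ne_zero m (hr0 _ h3))
  refine ⟨⟨⟨fun p => ⟨(F.act γ p.1.1, cb (F.sg γ) (r p.1.1 * p.1.2) * ζ), h1 p⟩,
    fun p => ⟨(F.act γ⁻¹ p.1.1, cb (F.sg γ) (p.1.2 / ζ) / r (F.act γ⁻¹ p.1.1)), h2 p⟩, ?_, ?_⟩,
    ?_, ?_⟩, ?_, ?_⟩
  · intro p
    apply Subtype.ext
    apply Prod.ext
    · show F.act γ⁻¹ (F.act γ p.1.1) = p.1.1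
      exact act_inv_act F γ p.2.1
    · show cb (F.sg γ) (cb (F.sg γ) (r p.1.1 * p.1.2) * ζ / ζ) / r (F.act γ⁻¹ (F.act γ p.1.1)) =
        p.1.2
      rw [act_inv_act F γ p.2.1, mul_div_cancel_right₀ _ hζ0, cb_cb]
      exact mul_div_cancel_left₀ _ (hr0 _ p.2.1)
  · intro p
    apply Subtype.ext
    apply Prod.ext
    · show F.act γ (F.act γ⁻¹ p.1.1) = p.1.1
      exact act_act_inv F γ p.2.1
    · show cb (F.sg γ) (r (F.act γ⁻¹ p.1.1) * (cb (F.sg γ) (p.1.2 / ζ) / r (F.act γ⁻¹ p.1.1))) * ζ =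
        p.1.2
      rw [mul_div_cancel₀ _ (hr0 _ (act_norm F γ⁻¹ p.2.1)), cb_cb]
      exact div_mul_cancel₀ _ hζ0
  · refine Continuous.subtype_mk ?_ _
    exact (cg_on (act_cont F γ)).prodMk
      (((cb_cont _).comp ((cg_on hr).mul cg_snd)).mul continuous_const)
  · refine Continuous.subtype_mk ?_ _
    have h5 : Continuous fun p : Mg m f => r (F.act γ⁻¹ p.1.1) :=
      hr.comp_continuous (cg_on (act_cont F γ⁻¹)) (fun p => by
        rw [Metric.mem_ball, dist_zero_right]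
        exact act_norm F γ⁻¹ p.2.1)
    exact (cg_on (act_cont F γ⁻¹)).prodMk
      (((cb_cont _).comp (cg_snd.div_const ζ)).div h5 (fun p => hr0 _ (act_norm F γ⁻¹ p.2.1)))
  · intro p
    exact ⟨γ, rfl⟩
  · intro p
    rfl

/-- the orbits of `H` are the fibres of `M̃ → D/Γ` -/
theorem orbitG {m : ℕ} (hm : m ≠ 0) {x0 : ℂ} (hx0 : ‖x0‖ < 1) {f : ℂ → ℂ} (hf : Good F x0 f)
    (p q : Mg m f) : (∃ h ∈ HG F m f, h p = q) ↔ ∃ γ, q.1.1 = F.act γ p.1.1 := by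
  constructor
  · rintro ⟨h, hh, rfl⟩
    exact hh p
  · rintro ⟨γ, hq⟩
    obtain ⟨r, hr, hrf⟩ := exists_root hx0 (good_comp hx0 hf γ) hf hm
    have h1 : (cb (F.sg γ) (r p.1.1 * p.1.2)) ^ m = f (F.act γ p.1.1) := by
      rw [← cb_pow, mul_pow, p.2.2, ← (hrf _ p.2.1).2, cb_cb]
    have h2 : q.1.2 ^ m = f (F.act γ p.1.1) := by rw [q.2.2, hq]
    have key : ∃ ζ : ℂ, ζ ^ m = 1 ∧ cb (F.sg γ) (r p.1.1 * p.1.2) * ζ = q.1.2 := by
      by_cases h0 : cb (F.sg γ) (r p.1.1 * p.1.2) = 0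
      · refine ⟨1, one_pow m, ?_⟩
        rw [h0, zero_pow hm] at h1
        rw [h0, zero_mul]
        rw [← h1] at h2
        exact ((pow_eq_zero_iff hm).1 h2).symm
      · refine ⟨q.1.2 / cb (F.sg γ) (r p.1.1 * p.1.2), ?_, mul_div_cancel₀ _ h0⟩
        rw [div_pow, h2, ← h1]
        exact div_self (pow_ne_zero m h0)
    obtain ⟨ζ, hζ, hζq⟩ := key
    have hζ0 : ζ ≠ 0 := by
      rintro rfl
      rw [zero_pow hm] at hζ
      exact zero_ne_one hζ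
    obtain ⟨h, hh, hval⟩ := cg_exists (F := F) γ hr (fun z hz => (hrf z hz).1)
      (fun z hz => (hrf z hz).2) hζ hζ0
    refine ⟨h, hh, ?_⟩
    apply Subtype.ext
    rw [hval]
    exact Prod.ext hq.symm hζq

theorem PBg_homeo {n m : ℕ} (hm : m ≠ 0) {x0 : ℂ} (hx0 : ‖x0‖ < 1) {f : ℂ → ℂ}
    (hf : Good F x0 f) : Nonempty (PBg F n m f ≃ₜ XG F n m f) := by
  have hX : ∀ x : PBg F n m f, ((fun i => (x.1 i).1.1, fun i => (x.1 i).1.2) :
      (Fin n → ℂ) × (Fin n → ℂ)) ∈ XG F n m f := by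
    intro x
    refine ⟨fun i => (x.1 i).2.1, fun i => (x.1 i).2.2, ?_⟩
    intro i j hij γ h0
    obtain ⟨h, hh, hx⟩ := (orbitG hm hx0 hf (x.1 i) (x.1 j)).2 ⟨γ, h0⟩
    exact x.2 i j hij h hh hx
  have hk : ∀ (y : XG F n m f) (i : Fin n), ‖y.1.1 i‖ < 1 ∧ (y.1.2 i) ^ m = f (y.1.1 i) :=
    fun y i => ⟨y.2.1 i, y.2.2.1 i⟩
  have hk2 : ∀ y : XG F n m f, ∀ i j, i ≠ j → ∀ h ∈ HG F m f,
      h (⟨(y.1.1 i, y.1.2 i), hk y i⟩ : Mg m f) ≠ (⟨(y.1.1 j, y.1.2 j), hk y j⟩ : Mg m f) := by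
    intro y i j hij h hh hy
    obtain ⟨γ, hγ⟩ := (orbitG hm hx0 hf _ _).1 ⟨h, hh, hy⟩
    exact y.2.2.2 i j hij γ hγ
  refine ⟨⟨⟨fun x => ⟨_, hX x⟩, fun y => ⟨fun i => ⟨(y.1.1 i, y.1.2 i), hk y i⟩, hk2 y⟩, ?_, ?_⟩,
    ?_, ?_⟩⟩
  · intro x
    rfl
  · intro y
    rfl
  · refine Continuous.subtype_mk ?_ _
    refine (continuous_pi fun i => ?_).prodMk (continuous_pi fun i => ?_)
    · exact continuous_fst.comp (continuous_subtype_val.comp
        ((continuous_apply i).comp continuous_subtype_val))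
    · exact continuous_snd.comp (continuous_subtype_val.comp
        ((continuous_apply i).comp continuous_subtype_val))
  · refine Continuous.subtype_mk (continuous_pi fun i => ?_) _
    refine Continuous.subtype_mk ?_ _
    exact ((continuous_apply i).comp (continuous_fst.comp continuous_subtype_val)).prodMk
      ((continuous_apply i).comp (continuous_snd.comp continuous_subtype_val))

theorem XG_homeo {n m : ℕ} (hm : m ≠ 0) {x0 : ℂ} (hx0 : ‖x0‖ < 1) {f f' : ℂ → ℂ}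
    (hf : Good F x0 f) (hf' : Good F x0 f') : Nonempty (XG F n m f ≃ₜ XG F n m f') := by
  obtain ⟨r, hr, hrf⟩ := exists_root hx0 hf' hf hm
  have h1 : ∀ y : XG F n m f, ((y.1.1, fun i => r (y.1.1 i) * y.1.2 i) :
      (Fin n → ℂ) × (Fin n → ℂ)) ∈ XG F n m f' := by
    intro y
    refine ⟨y.2.1, fun i => ?_, y.2.2.2⟩
    show (r (y.1.1 i) * y.1.2 i) ^ m = f' (y.1.1 i)
    rw [mul_pow, y.2.2.1 i, (hrf _ (y.2.1 i)).2]
  have h2 : ∀ y : XG F n m f', ((y.1.1, fun i => y.1.2 i / r (y.1.1 i)) :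
      (Fin n → ℂ) × (Fin n → ℂ)) ∈ XG F n m f := by
    intro y
    refine ⟨y.2.1, fun i => ?_, y.2.2.2⟩
    show (y.1.2 i / r (y.1.1 i)) ^ m = f (y.1.1 i)
    rw [div_pow, y.2.2.1 i, (hrf _ (y.2.1 i)).2]
    exact mul_div_cancel_left₀ _ (pow_ne_zero m (hrf _ (y.2.1 i)).1)
  have c1 : ∀ (g : ℂ → ℂ) (i : Fin n), Continuous fun y : XG F n m g => y.1.1 i := fun g i =>
    (continuous_apply i).comp (continuous_fst.comp continuous_subtype_val)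
  have c2 : ∀ (g : ℂ → ℂ) (i : Fin n), Continuous fun y : XG F n m g => y.1.2 i := fun g i =>
    (continuous_apply i).comp (continuous_snd.comp continuous_subtype_val)
  have c3 : ∀ (g : ℂ → ℂ) (i : Fin n), Continuous fun y : XG F n m g => r (y.1.1 i) := fun g i =>
    hr.comp_continuous (c1 g i) (fun y => by
      rw [Metric.mem_ball, dist_zero_right]
      exact y.2.1 i)
  refine ⟨⟨⟨fun y => ⟨_, h1 y⟩, fun y => ⟨_, h2 y⟩, ?_, ?_⟩, ?_, ?_⟩⟩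
  · intro y
    apply Subtype.ext
    refine Prod.ext rfl (funext fun i => ?_)
    show r (y.1.1 i) * y.1.2 i / r (y.1.1 i) = y.1.2 i
    exact mul_div_cancel_left₀ _ (hrf _ (y.2.1 i)).1
  · intro y
    apply Subtype.ext
    refine Prod.ext rfl (funext fun i => ?_)
    show r (y.1.1 i) * (y.1.2 i / r (y.1.1 i)) = y.1.2 i
    exact mul_div_cancel₀ _ (hrf _ (y.2.1 i)).1
  · refine Continuous.subtype_mk ?_ _
    exact (continuous_pi (c1 f)).prodMk (continuous_pi fun i => (c3 f i).mul (c2 f i))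
  · refine Continuous.subtype_mk ?_ _
    exact (continuous_pi (c1 f')).prodMk (continuous_pi fun i =>
      (c2 f' i).div (c3 f' i) (fun y => (hrf _ (y.2.1 i)).1))

theorem exists_good (F : FD Γ) {x0 : ℂ} (hx0 : ‖x0‖ < 1) : ∃ f, Good F x0 f := by
  obtain ⟨G, hG⟩ := exists_G F
  exact ⟨G x0, good_G hG hx0⟩

theorem asph_PBg {n m : ℕ} (hm : m ≠ 0) {x0 : ℂ} (hx0 : ‖x0‖ < 1) {f : ℂ → ℂ}
    (hf : Good F x0 f) : Asph (PBg F n m f) := by
  obtain ⟨G, hG⟩ := exists_G F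
  obtain ⟨e⟩ := PBg_homeo (n := n) hm hx0 hf
  obtain ⟨e'⟩ := XG_homeo (n := n) hm hx0 hf (good_G hG hx0)
  intro r hr
  exact ext_homeo (e.trans e').symm (asph_XG hG hm hx0 r hr)

end HYP4
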