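import Pool.Agent.ASP87.Root
import Pool.Agent.ASP87.Defs
import Pool.Agent.ASP87.TLoc

/-!
# HYP4/Defs: groups of isometries of the hyperbolic disc, systems of points (definitions)

`FD Γ`: a group `Γ` acting on the open unit disc by `F.act γ z = (α w + β) / (conj β w + conj α)`, `w = z` or
`w = conj z` (orientation reversing if `F.sg γ = true`), `|α|² - |β|² = 1`, freely and with a discrete orbit of `0`
(so `D/Γ` is any hyperbolic surface). `IsG F G`: `G c z` is continuous with the simple zeros `z = γ c`.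
`GG G m S`: systems of points of the disc with `m`-th roots of `G (src) (tgt)`. `ConfG`: tuples in different orbits.
-/

namespace HYP4

open Complex Topology Set ASP87

/-- the open unit disc -/
abbrev Dc : Set ℂ := Metric.ball (0 : ℂ) 1

/-- identity or conjugation -/
noncomputable def cb (s : Bool) (z : ℂ) : ℂ := if s then (starRingEnd ℂ) z else z

/-- isometries of the hyperbolic disc -/
noncomputable def mb (α β : ℂ) (s : Bool) (z : ℂ) : ℂ :=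
  (α * cb s z + β) / ((starRingEnd ℂ) β * cb s z + (starRingEnd ℂ) α)

/-- a group of isometries of the hyperbolic disc acting freely and properly discontinuously -/
structure FD (Γ : Type) [Group Γ] where
  al : Γ → ℂ
  be : Γ → ℂ
  sg : Γ → Bool
  nm : ∀ γ, ‖al γ‖ ^ 2 - ‖be γ‖ ^ 2 = 1
  one : ∀ z, ‖z‖ < 1 → mb (al 1) (be 1) (sg 1) z = z
  mul : ∀ γ δ z, ‖z‖ < 1 → mb (al (γ * δ)) (be (γ * δ)) (sg (γ * δ)) z =
    mb (al γ) (be γ) (sg γ) (mb (al δ) (be δ) (sg δ) z)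
  free : ∀ γ z, ‖z‖ < 1 → mb (al γ) (be γ) (sg γ) z = z → γ = 1
  disc : ∃ ρ : ℝ, 0 < ρ ∧ ∀ γ, γ ≠ 1 → ρ ≤ ‖mb (al γ) (be γ) (sg γ) 0‖

variable {Γ : Type} [Group Γ]

/-- the action -/
noncomputable def FD.act (F : FD Γ) (γ : Γ) (z : ℂ) : ℂ := mb (F.al γ) (F.be γ) (F.sg γ) z

/-- `G c z` vanishes exactly for `z = γ c`, simple zeros, continuous -/
def IsG (F : FD Γ) (G : ℂ → ℂ → ℂ) : Prop :=
  ∀ R : ℝ, R < 1 → ∃ (S : Finset Γ) (V : ℂ × ℂ → ℂ),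
    ContinuousOn V (Metric.ball (0 : ℂ) R ×ˢ Metric.ball (0 : ℂ) R) ∧
    (∀ c z, ‖c‖ < R → ‖z‖ < R → V (c, z) ≠ 0 ∧ G c z = V (c, z) * ∏ γ ∈ S, (z - F.act γ c)) ∧
    ∀ γ, γ ∉ S → ∀ c z, ‖c‖ < R → ‖z‖ < R → z ≠ F.act γ c

/-- systems of points -/
structure SysG (A R : Type*) where
  src : R → A
  tgt : R → A
  ne : A → A → Prop

def GG {A R : Type*} (G : ℂ → ℂ → ℂ) (m : ℕ) (S : SysG A R) : Set ((A → ℂ) × (R → ℂ)) :=
  {y | (∀ a, ‖y.1 a‖ < 1) ∧ (∀ r, y.2 r ^ m = G (y.1 (S.src r)) (y.1 (S.tgt r))) ∧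
    ∀ a b, S.ne a b → G (y.1 a) (y.1 b) ≠ 0}

abbrev ConfG (G : ℂ → ℂ → ℂ) (B : Type*) : Type _ :=
  {b : B → ℂ // (∀ i, ‖b i‖ < 1) ∧ ∀ i j, i ≠ j → G (b i) (b j) ≠ 0}

/-- restriction to the points `j b` -/
def forgetG {A R B : Type*} (G : ℂ → ℂ → ℂ) (m : ℕ) (S : SysG A R) (j : B → A)
    (hj : ∀ b b', b ≠ b' → S.ne (j b) (j b')) (y : GG G m S) : ConfG G B :=
  ⟨fun b => y.1.1 (j b), fun b => y.2.1 _, fun b b' h => y.2.2.2 _ _ (hj b b' h)⟩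

theorem forgetG_continuous {A R B : Type*} (G : ℂ → ℂ → ℂ) (m : ℕ) (S : SysG A R) (j : B → A)
    (hj : ∀ b b', b ≠ b' → S.ne (j b) (j b')) : Continuous (forgetG G m S j hj) := by
  refine Continuous.subtype_mk (continuous_pi fun b => ?_) _
  exact (continuous_apply (j b)).comp (continuous_fst.comp continuous_subtype_val)

/-- transport data: homeomorphisms `H n` of the disc with inverse `K n`, and `m`-th roots `ka n c z` of
`G (H n c) (H n z) / G c z` -/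
structure TP {N : Type*} [TopologicalSpace N] (G : ℂ → ℂ → ℂ) (m : ℕ) (H K : N → ℂ → ℂ)
    (ka : N → ℂ → ℂ → ℂ) : Prop where
  Hc : ContinuousOn (fun q : N × ℂ => H q.1 q.2) (univ ×ˢ Dc)
  Kc : ContinuousOn (fun q : N × ℂ => K q.1 q.2) (univ ×ˢ Dc)
  Hm : ∀ n z, ‖z‖ < 1 → ‖H n z‖ < 1
  Km : ∀ n z, ‖z‖ < 1 → ‖K n z‖ < 1
  KH : ∀ n z, ‖z‖ < 1 → K n (H n z) = z
  HK : ∀ n z, ‖z‖ < 1 → H n (K n z) = z
  He : ∀ n c z, ‖c‖ < 1 → ‖z‖ < 1 → (G (H n c) (H n z) = 0 ↔ G c z = 0)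
  kc : ContinuousOn (fun q : N × (ℂ × ℂ) => ka q.1 q.2.1 q.2.2)
    {q | ‖q.2.1‖ < 1 ∧ ‖q.2.2‖ < 1 ∧ G q.2.1 q.2.2 ≠ 0}
  kp : ∀ n c z, ‖c‖ < 1 → ‖z‖ < 1 → G c z ≠ 0 → ka n c z ^ m * G c z = G (H n c) (H n z)

/-- the effect of the transport -/
noncomputable def trG {A R : Type*} (S : SysG A R) (H : ℂ → ℂ) (k : ℂ → ℂ → ℂ)
    (y : (A → ℂ) × (R → ℂ)) : (A → ℂ) × (R → ℂ) :=
  (fun a => H (y.1 a), fun r => y.2 r * k (y.1 (S.src r)) (y.1 (S.tgt r)))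

/-- the effect of the inverse transport -/
noncomputable def trI {A R : Type*} (S : SysG A R) (K : ℂ → ℂ) (k : ℂ → ℂ → ℂ)
    (y : (A → ℂ) × (R → ℂ)) : (A → ℂ) × (R → ℂ) :=
  (fun a => K (y.1 a), fun r => y.2 r / k (K (y.1 (S.src r))) (K (y.1 (S.tgt r))))

/-- the surface of the positions `c` of one point with roots of `G c (z i)`, punctures `d a` -/
def SG {ι κ : Type*} (G : ℂ → ℂ → ℂ) (m : ℕ) (z : ι → ℂ) (d : κ → ℂ) : Set (ℂ × (ι → ℂ)) :=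
  {y | ‖y.1‖ < 1 ∧ (∀ i, y.2 i ^ m = G y.1 (z i)) ∧ ∀ a, G y.1 (d a) ≠ 0}

/-- `f` is continuous on the disc, its zeros are the points `γ x0`, and it is complex differentiable there with
nonzero derivative -/
structure Good (F : FD Γ) (x0 : ℂ) (f : ℂ → ℂ) : Prop where
  cont : ContinuousOn f Dc
  zero : ∀ z, ‖z‖ < 1 → (f z = 0 ↔ ∃ γ, z = F.act γ x0)
  der : ∀ γ, ∃ f' : ℂ, f' ≠ 0 ∧ HasDerivAt f f' (F.act γ x0)

end HYP4
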