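import Pool.Agent.HYP4.GQ

/-! # HYP4/FactG: zeros of `c ↦ G c z` in a disc split off -/

namespace HYP4

open Complex Topology Set ASP87

variable {Γ : Type} [Group Γ] {F : FD Γ} {G : ℂ → ℂ → ℂ}

/-- the factor of `z - γ c` other than `cb (c - p)`, `p = γ⁻¹ z` -/
private noncomputable def wf (F : FD Γ) (z : ℂ) (γ : Γ) (c : ℂ) : ℂ :=
  -1 / (((starRingEnd ℂ) (F.be γ) * cb (F.sg γ) (F.act γ⁻¹ z) + (starRingEnd ℂ) (F.al γ)) *
    ((starRingEnd ℂ) (F.be γ) * cb (F.sg γ) c + (starRingEnd ℂ) (F.al γ)))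

private theorem wf_den (F : FD Γ) {z : ℂ} (hz : ‖z‖ < 1) (γ : Γ) {c : ℂ} (hc : ‖c‖ < 1) :
    ((starRingEnd ℂ) (F.be γ) * cb (F.sg γ) (F.act γ⁻¹ z) + (starRingEnd ℂ) (F.al γ)) *
    ((starRingEnd ℂ) (F.be γ) * cb (F.sg γ) c + (starRingEnd ℂ) (F.al γ)) ≠ 0 :=
  mul_ne_zero (mb_den (F.nm γ) (F.sg γ) (act_norm F γ⁻¹ hz)) (mb_den (F.nm γ) (F.sg γ) hc)

private theorem wf_ne (F : FD Γ) {z : ℂ} (hz : ‖z‖ < 1) (γ : Γ) {c : ℂ} (hc : ‖c‖ < 1) :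
    wf F z γ c ≠ 0 :=
  div_ne_zero (neg_ne_zero.2 one_ne_zero) (wf_den F hz γ hc)

private theorem wf_mul (F : FD Γ) {z : ℂ} (hz : ‖z‖ < 1) (γ : Γ) {c : ℂ} (hc : ‖c‖ < 1) :
    z - F.act γ c = wf F z γ c * cb (F.sg γ) (c - F.act γ⁻¹ z) := by
  have hp : ‖F.act γ⁻¹ z‖ < 1 := act_norm F γ⁻¹ hz
  have h1 : F.act γ (F.act γ⁻¹ z) - F.act γ c = _ := mb_sub (F.nm γ) (F.sg γ) hp hc
  rw [act_act_inv F γ hz] at h1
  rw [h1, wf, cb_sub, cb_sub, div_mul_eq_mul_div]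
  congr 1
  ring

private theorem wf_cont (F : FD Γ) {z : ℂ} (hz : ‖z‖ < 1) (γ : Γ) {R : ℝ} (hR : R < 1) :
    ContinuousOn (wf F z γ) (Metric.ball (0 : ℂ) R) := by
  unfold wf
  refine ContinuousOn.div continuousOn_const ?_ ?_
  · refine Continuous.continuousOn ?_
    exact continuous_const.mul ((continuous_const.mul (cb_cont _)).add continuous_const)
  · intro c hc
    rw [mem_ball_zero_iff] at hc
    exact wf_den F hz γ (hc.trans hR)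

/-- for fixed `z`: `z - γ c = γ p - γ c = cb (p - c)/(q(p) q(c))`, `p = γ⁻¹ z` (`mb_sub`); for `γ ∈ S` with
`‖γ⁻¹ z‖ ≥ R` the factor `z - γ c` does not vanish for `‖c‖ < R` and goes into `U`; the sign `cb (p - c) = -cb (c - p)` too -/
theorem exists_factG (hG : IsG F G) {z : ℂ} {R : ℝ} (hz : ‖z‖ < R) (hR : R < 1) :
    ∃ (Q : Finset Γ) (U : ℂ → ℂ), ContinuousOn U (Metric.ball (0 : ℂ) R) ∧
      (∀ c, ‖c‖ < R → U c ≠ 0 ∧ G c z = U c * ∏ γ ∈ Q, cb (F.sg γ) (c - F.act γ⁻¹ z)) ∧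
      ∀ γ, γ ∈ Q ↔ ‖F.act γ⁻¹ z‖ < R := by
  classical
  obtain ⟨S, V, hVc, hV, hS⟩ := hG R hR
  have hz1 : ‖z‖ < 1 := hz.trans hR
  have hmem : ∀ γ, ‖F.act γ⁻¹ z‖ < R → γ ∈ S := by
    intro γ hγ
    by_contra hγS
    exact hS γ hγS (F.act γ⁻¹ z) z hγ hz (act_act_inv F γ hz1).symm
  refine ⟨S.filter fun γ => ‖F.act γ⁻¹ z‖ < R,
    fun c => V (c, z) * (∏ γ ∈ S.filter fun γ => ¬ ‖F.act γ⁻¹ z‖ < R, (z - F.act γ c)) *
      ∏ γ ∈ S.filter fun γ => ‖F.act γ⁻¹ z‖ < R, wf F z γ c, ?_, ?_, ?_⟩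
  · refine ContinuousOn.mul (ContinuousOn.mul ?_ ?_) ?_
    · refine hVc.comp (f := fun c : ℂ => (c, z)) (Continuous.continuousOn (by fun_prop)) ?_
      intro c hc
      exact ⟨hc, mem_ball_zero_iff.2 hz⟩
    · refine continuousOn_finsetProd _ fun γ _ => ?_
      refine continuousOn_const.sub ((act_cont F γ).mono ?_)
      exact Metric.ball_subset_ball hR.le
    · exact continuousOn_finsetProd _ fun γ _ => wf_cont F hz1 γ hR
  · intro c hc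
    have hc1 : ‖c‖ < 1 := hc.trans hR
    obtain ⟨hVne, hGV⟩ := hV c z hc hz
    constructor
    · refine mul_ne_zero (mul_ne_zero hVne ?_) ?_
      · rw [Finset.prod_ne_zero_iff]
        intro γ hγ h0
        rw [Finset.mem_filter] at hγ
        refine hγ.2 ?_
        rw [sub_eq_zero.1 h0, act_inv_act F γ hc1]
        exact hc
      · rw [Finset.prod_ne_zero_iff]
        exact fun γ _ => wf_ne F hz1 γ hc1
    · rw [hGV, ← Finset.prod_filter_not_mul_prod_filter S (fun γ => ‖F.act γ⁻¹ z‖ < R)]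
      rw [mul_assoc, mul_assoc]
      congr 2
      rw [← Finset.prod_mul_distrib]
      exact Finset.prod_congr rfl fun γ _ => wf_mul F hz1 γ hc1
  · intro γ
    rw [Finset.mem_filter]
    exact ⟨fun h => h.2, fun h => ⟨hmem γ h, h⟩⟩

end HYP4
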