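import Pool.Agent.HYP4.Defs

/-!
# HYP4/HB: elementary facts on isometries of the disc

`w = cb s z`, `‖w‖ = ‖z‖`, `q = conj β w + conj α`. `‖β‖ < ‖α‖`, so `‖q‖ ≥ ‖α‖ - ‖β‖ ‖z‖ > 0` (`mb_den`, `mb_den_le`).
`‖q‖² - ‖α w + β‖² = (‖α‖² - ‖β‖²)(1 - ‖w‖²)` gives `mb_norm`. `mb_sub`: `(α w + β) q' - (α w' + β) q =
(w - w')(‖α‖² - ‖β‖²)`. `act_inv_act` etc. from `one`, `mul`.
-/

namespace HYP4

open Complex Topology Set ASP87

theorem cb_cont (s : Bool) : Continuous (cb s) := by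
  cases s
  · have : cb false = id := by
      funext z
      simp [cb]
    rw [this]
    exact continuous_id
  · have : cb true = fun z => (starRingEnd ℂ) z := by
      funext z
      simp [cb]
    rw [this]
    exact Complex.continuous_conj

theorem cb_cb (s : Bool) (z : ℂ) : cb s (cb s z) = z := by
  cases s <;> simp [cb]

theorem cb_norm (s : Bool) (z : ℂ) : ‖cb s z‖ = ‖z‖ := by
  cases s <;> simp [cb]

theorem cb_sub (s : Bool) (z z' : ℂ) : cb s (z - z') = cb s z - cb s z' := by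
  cases s <;> simp [cb]

theorem cb_mul (s : Bool) (z z' : ℂ) : cb s (z * z') = cb s z * cb s z' := by
  cases s <;> simp [cb]

theorem cb_pow (s : Bool) (z : ℂ) (m : ℕ) : cb s (z ^ m) = cb s z ^ m := by
  cases s <;> simp [cb]

theorem cb_eq_zero {s : Bool} {z : ℂ} : cb s z = 0 ↔ z = 0 := by
  rw [← norm_eq_zero, cb_norm, norm_eq_zero]

theorem cb_zero (s : Bool) : cb s 0 = 0 := cb_eq_zero.2 rfl

theorem mb_den_le {α β : ℂ} (s : Bool) (z : ℂ) :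
    ‖α‖ - ‖β‖ * ‖z‖ ≤ ‖(starRingEnd ℂ) β * cb s z + (starRingEnd ℂ) α‖ := by
  have h := norm_sub_norm_le ((starRingEnd ℂ) α) (-((starRingEnd ℂ) β * cb s z))
  rw [norm_neg, norm_mul, Complex.norm_conj, Complex.norm_conj, cb_norm, sub_neg_eq_add,
    add_comm] at h
  exact h

private theorem be_lt {α β : ℂ} (h : ‖α‖ ^ 2 - ‖β‖ ^ 2 = 1) : ‖β‖ < ‖α‖ := by
  have h1 := norm_nonneg α
  have h2 := norm_nonneg β
  nlinarith

theorem mb_den {α β : ℂ} (h : ‖α‖ ^ 2 - ‖β‖ ^ 2 = 1) (s : Bool) {z : ℂ} (hz : ‖z‖ < 1) :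
    (starRingEnd ℂ) β * cb s z + (starRingEnd ℂ) α ≠ 0 := by
  intro h0
  have h1 := mb_den_le (α := α) (β := β) s z
  rw [h0, norm_zero] at h1
  have h2 := be_lt h
  have h3 := norm_nonneg β
  have h4 := norm_nonneg z
  nlinarith

theorem mb_norm {α β : ℂ} (h : ‖α‖ ^ 2 - ‖β‖ ^ 2 = 1) (s : Bool) {z : ℂ} (hz : ‖z‖ < 1) :
    (1 - ‖mb α β s z‖ ^ 2) * ‖(starRingEnd ℂ) β * cb s z + (starRingEnd ℂ) α‖ ^ 2 = 1 - ‖z‖ ^ 2 := by
  have hq := mb_den h s hz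
  have hq' : ‖(starRingEnd ℂ) β * cb s z + (starRingEnd ℂ) α‖ ≠ 0 := norm_ne_zero_iff.2 hq
  have e1 : ‖mb α β s z‖ ^ 2 * ‖(starRingEnd ℂ) β * cb s z + (starRingEnd ℂ) α‖ ^ 2 =
      ‖α * cb s z + β‖ ^ 2 := by
    unfold mb
    rw [norm_div, div_pow, div_mul_cancel₀ _ (pow_ne_zero 2 hq')]
  rw [sub_mul, one_mul, e1, ← cb_norm s z]
  generalize cb s z = w
  rw [Complex.sq_norm, Complex.sq_norm, Complex.sq_norm]
  rw [Complex.sq_norm, Complex.sq_norm] at h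
  simp only [Complex.normSq_apply, Complex.add_re, Complex.add_im, Complex.mul_re, Complex.mul_im,
    Complex.conj_re, Complex.conj_im] at h ⊢
  linear_combination (1 - (w.re * w.re + w.im * w.im)) * h

theorem mb_sub {α β : ℂ} (h : ‖α‖ ^ 2 - ‖β‖ ^ 2 = 1) (s : Bool) {z z' : ℂ} (hz : ‖z‖ < 1)
    (hz' : ‖z'‖ < 1) : mb α β s z - mb α β s z' = cb s (z - z') /
      (((starRingEnd ℂ) β * cb s z + (starRingEnd ℂ) α) *
        ((starRingEnd ℂ) β * cb s z' + (starRingEnd ℂ) α)) := by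
  have hq := mb_den h s hz
  have hq' := mb_den h s hz'
  have hα : α * (starRingEnd ℂ) α = (‖α‖ : ℂ) ^ 2 := Complex.mul_conj' α
  have hβ : β * (starRingEnd ℂ) β = (‖β‖ : ℂ) ^ 2 := Complex.mul_conj' β
  have hC : (‖α‖ : ℂ) ^ 2 - (‖β‖ : ℂ) ^ 2 = 1 := by exact_mod_cast h
  rw [cb_sub]
  unfold mb
  rw [div_sub_div _ _ hq hq']
  congr 1
  linear_combination (cb s z - cb s z') * (hα - hβ + hC)

variable {Γ : Type} [Group Γ] (F : FD Γ)

theorem act_norm (γ : Γ) {z : ℂ} (hz : ‖z‖ < 1) : ‖F.act γ z‖ < 1 := by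
  have h := mb_norm (F.nm γ) (F.sg γ) hz
  have h1 : 0 < 1 - ‖z‖ ^ 2 := by
    have := norm_nonneg z
    nlinarith
  rw [← h] at h1
  have h2 : 0 < 1 - ‖mb (F.al γ) (F.be γ) (F.sg γ) z‖ ^ 2 := by
    by_contra hc
    push Not at hc
    have := mul_nonpos_of_nonpos_of_nonneg hc
      (sq_nonneg ‖(starRingEnd ℂ) (F.be γ) * cb (F.sg γ) z + (starRingEnd ℂ) (F.al γ)‖)
    linarith
  have h3 : ‖mb (F.al γ) (F.be γ) (F.sg γ) z‖ < 1 := by
    have := norm_nonneg (mb (F.al γ) (F.be γ) (F.sg γ) z)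
    nlinarith
  exact h3

theorem act_one {z : ℂ} (hz : ‖z‖ < 1) : F.act 1 z = z := F.one z hz

theorem act_mul (γ δ : Γ) {z : ℂ} (hz : ‖z‖ < 1) : F.act (γ * δ) z = F.act γ (F.act δ z) :=
  F.mul γ δ z hz

theorem act_inv_act (γ : Γ) {z : ℂ} (hz : ‖z‖ < 1) : F.act γ⁻¹ (F.act γ z) = z := by
  rw [← act_mul F _ _ hz, inv_mul_cancel, act_one F hz]

theorem act_act_inv (γ : Γ) {z : ℂ} (hz : ‖z‖ < 1) : F.act γ (F.act γ⁻¹ z) = z := by
  rw [← act_mul F _ _ hz, mul_inv_cancel, act_one F hz]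

theorem act_inj {γ : Γ} {z z' : ℂ} (hz : ‖z‖ < 1) (hz' : ‖z'‖ < 1) (h : F.act γ z = F.act γ z') :
    z = z' := by
  rw [← act_inv_act F γ hz, h, act_inv_act F γ hz']

theorem act_free {γ δ : Γ} {z : ℂ} (hz : ‖z‖ < 1) (h : F.act γ z = F.act δ z) : γ = δ := by
  have h1 : F.act (δ⁻¹ * γ) z = z := by
    rw [act_mul F _ _ hz, h, act_inv_act F δ hz]
  have h2 := F.free _ z hz h1
  exact (inv_mul_eq_one.1 h2).symm

theorem act_cont (γ : Γ) : ContinuousOn (F.act γ) Dc := by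
  have hc := cb_cont (F.sg γ)
  have h1 : ContinuousOn (fun z => F.al γ * cb (F.sg γ) z + F.be γ) Dc :=
    ((continuous_const.mul hc).add continuous_const).continuousOn
  have h2 : ContinuousOn (fun z => (starRingEnd ℂ) (F.be γ) * cb (F.sg γ) z +
      (starRingEnd ℂ) (F.al γ)) Dc :=
    ((continuous_const.mul hc).add continuous_const).continuousOn
  exact h1.div h2 fun z hz => mb_den (F.nm γ) (F.sg γ) (by simpa using hz)

/-- `1 - ‖γ 0‖² = 1 / ‖α‖²` -/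
theorem act_zero_norm (γ : Γ) : 1 - ‖F.act γ 0‖ ^ 2 = (‖F.al γ‖ ^ 2)⁻¹ := by
  have h := mb_norm (F.nm γ) (F.sg γ) (z := 0) (by simp)
  rw [cb_zero, mul_zero, zero_add, Complex.norm_conj, norm_zero] at h
  have hα : ‖F.al γ‖ ^ 2 ≠ 0 := by
    have h1 := F.nm γ
    have h2 := sq_nonneg ‖F.be γ‖
    nlinarith
  have h' : (1 - ‖F.act γ 0‖ ^ 2) * ‖F.al γ‖ ^ 2 = 1 := by
    have : (1 : ℝ) - 0 ^ 2 = 1 := by norm_num
    rw [this] at h
    exact h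
  exact eq_inv_of_mul_eq_one_left h'

end HYP4
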