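import Pool.Agent.HYP4.HS0

/-!
# HYP4/HS: the orbit of `0` is thin at the boundary

`summ_al`. `ρ` from `F.disc`, `r = min (1/4) (ρ/8)` (so `r' = r/(1-r) ≤ 4r/3`, `3 r' < ρ`). The Euclidean discs
`E γ = ball (γ 0) (r / ‖α γ‖²)` lie in the unit disc (`r/‖α‖² = r (1 - ‖γ 0‖²) < 1 - ‖γ 0‖` as `r ≤ 1/4`) and are pairwise
disjoint: for `w ∈ E γ`, `a = γ 0`: `‖γ⁻¹ w‖ = ‖w - a‖/‖1 - conj a w‖ ≤ r/(1-r) = r'` (identity: `mb_norm`/`mb_sub` for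
`γ` at `u = γ⁻¹ w` and `0`: `‖w - a‖ = ‖u‖/(‖q u‖ ‖α‖)`, `(1 - ‖w‖²) ‖q u‖² = 1 - ‖u‖²`, or compute
`(w - a)/(1 - conj a w)` directly). If also `w ∈ E δ`: `u' = δ⁻¹ w = η u`, `η = δ⁻¹ γ`, `‖u'‖ ≤ r'`, and
`‖η u - η 0‖ = ‖1 - conj (η 0) (η u)‖ ‖u‖ ≤ 2 r'`, so `‖η 0‖ ≤ 3 r' < ρ`, `η = 1`. Areas:
`Σ_{γ ∈ s} π (r/‖α‖²)² ≤ π` for finite `s` (`MeasureTheory.measure_biUnion_finset`, `Complex.volume_ball`), then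
`summable_of_sum_le`.
`finite_act`: `‖z‖ < R`, `‖γ z‖ < R`: `1 - R² < 1 - ‖γ z‖² = (1 - ‖z‖²)/‖q‖² ≤ 1/‖q‖²`, `‖q‖ ≥ ‖α‖ - ‖β‖ ‖z‖ ≥ ‖α‖ (1 - R)`, so `‖α‖`
is bounded, and only finitely many `γ` have `‖α γ‖ ≤ C` (summability).
-/

namespace HYP4

open Complex Topology Set ASP87

variable {Γ : Type} [Group Γ] (F : FD Γ)

theorem al_sq_ge (γ : Γ) : 1 ≤ ‖F.al γ‖ ^ 2 := by
  have h1 := F.nm γ
  have h2 : 0 ≤ ‖F.be γ‖ ^ 2 := sq_nonneg _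
  linarith

theorem finite_al (C : ℝ) : {γ | ‖F.al γ‖ ≤ C}.Finite := by
  by_cases hC : 0 < C
  · have h1 := (summ_al F).tendsto_cofinite_zero
    have hε : (0 : ℝ) < ((C ^ 2)⁻¹) ^ 2 := by positivity
    have h2 : ∀ᶠ γ in Filter.cofinite, ((‖F.al γ‖ ^ 2)⁻¹) ^ 2 < ((C ^ 2)⁻¹) ^ 2 :=
      h1.eventually (gt_mem_nhds hε)
    rw [Filter.eventually_cofinite] at h2
    refine h2.subset fun γ hγ => ?_
    simp only [mem_ofPred_eq] at hγ ⊢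
    intro h3
    have h4 := al_sq_ge F γ
    have h5 : ‖F.al γ‖ ^ 2 ≤ C ^ 2 := pow_le_pow_left₀ (norm_nonneg _) hγ 2
    have h6 : (C ^ 2)⁻¹ ≤ (‖F.al γ‖ ^ 2)⁻¹ := inv_anti₀ (by linarith) h5
    have h7 : ((C ^ 2)⁻¹) ^ 2 ≤ ((‖F.al γ‖ ^ 2)⁻¹) ^ 2 :=
      pow_le_pow_left₀ (by positivity) h6 2
    linarith
  · refine Set.Finite.subset (Set.finite_empty) fun γ hγ => ?_
    simp only [mem_ofPred_eq] at hγ
    have h4 := al_sq_ge F γ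
    have h5 := norm_nonneg (F.al γ)
    have h6 : ‖F.al γ‖ = 0 := le_antisymm (hγ.trans (not_lt.1 hC)) h5
    rw [h6] at h4
    norm_num at h4

theorem finite_act {R : ℝ} (hR : R < 1) : {γ | ∃ z, ‖z‖ < R ∧ ‖F.act γ z‖ < R}.Finite := by
  refine (finite_al F (√(1 / ((1 - R ^ 2) * (1 - R) ^ 2)))).subset ?_
  rintro γ ⟨z, hz, hγz⟩
  have hz0 := norm_nonneg z
  have hR0 : 0 < R := lt_of_le_of_lt hz0 hz
  have hz1 : ‖z‖ < 1 := hz.trans hR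
  have h1 := mb_norm (F.nm γ) (F.sg γ) hz1
  have h2 := mb_den_le (α := F.al γ) (β := F.be γ) (F.sg γ) z
  obtain ⟨q, hq⟩ : ∃ q : ℂ, q = (starRingEnd ℂ) (F.be γ) * cb (F.sg γ) z +
    (starRingEnd ℂ) (F.al γ) := ⟨_, rfl⟩
  rw [← hq] at h1 h2
  have hnorm : ‖mb (F.al γ) (F.be γ) (F.sg γ) z‖ < R := hγz
  obtain ⟨t, ht⟩ : ∃ t : ℝ, t = ‖mb (F.al γ) (F.be γ) (F.sg γ) z‖ := ⟨_, rfl⟩
  rw [← ht] at h1 hnorm
  have ht0 : 0 ≤ t := by rw [ht]; exact norm_nonneg _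
  have hnm := F.nm γ
  have ha0 := norm_nonneg (F.al γ)
  have hb0 := norm_nonneg (F.be γ)
  have hba : ‖F.be γ‖ ≤ ‖F.al γ‖ := by
    apply le_of_sq_le_sq _ ha0
    linarith
  have h3 : ‖F.al γ‖ * (1 - R) ≤ ‖q‖ := by
    have h4 : ‖F.be γ‖ * ‖z‖ ≤ ‖F.al γ‖ * R := mul_le_mul hba hz.le hz0 ha0
    linarith
  have h4 : 0 ≤ ‖F.al γ‖ * (1 - R) := mul_nonneg ha0 (by linarith)
  have h5 : (‖F.al γ‖ * (1 - R)) ^ 2 ≤ ‖q‖ ^ 2 := pow_le_pow_left₀ h4 h3 2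
  have h6 : 1 - R ^ 2 ≤ 1 - t ^ 2 := by
    have : t ^ 2 ≤ R ^ 2 := pow_le_pow_left₀ ht0 hnorm.le 2
    linarith
  have h7 : 0 < 1 - R ^ 2 := by nlinarith
  have h8 : (1 - R ^ 2) * (‖F.al γ‖ * (1 - R)) ^ 2 ≤ 1 := by
    have h9 : (1 - R ^ 2) * (‖F.al γ‖ * (1 - R)) ^ 2 ≤ (1 - t ^ 2) * ‖q‖ ^ 2 :=
      mul_le_mul h6 h5 (sq_nonneg _) (by linarith)
    have h10 : 0 ≤ ‖z‖ ^ 2 := sq_nonneg _
    linarith
  have h1R : 0 < 1 - R := by linarith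
  simp only [mem_ofPred_eq]
  apply Real.le_sqrt_of_sq_le
  rw [le_div_iff₀ (by positivity)]
  calc ‖F.al γ‖ ^ 2 * ((1 - R ^ 2) * (1 - R) ^ 2) = (1 - R ^ 2) * (‖F.al γ‖ * (1 - R)) ^ 2 := by
        ring
    _ ≤ 1 := h8

include F in
theorem countable_FD : Countable Γ := by
  have h1 := (summ_al F).countable_support
  have h2 : Function.support (fun γ => ((‖F.al γ‖ ^ 2)⁻¹) ^ 2) = univ := by
    rw [eq_univ_iff_forall]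
    intro γ
    rw [Function.mem_support]
    have h3 := al_sq_ge F γ
    positivity
  rw [h2] at h1
  exact Set.countable_univ_iff.1 h1

end HYP4
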