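import Pool.Agent.HYP4.HB

/-!
# HYP4/HS0: the orbit of `0` is thin at the boundary

`summ_al`. `ρ` from `F.disc`, `r = min (1/4) (ρ/8)`, `r' = r/(1-r)`. The Euclidean discs
`E γ = ball (γ 0) (r / ‖α γ‖²)` lie in the unit disc (`r/‖α‖² = r (1 - ‖γ 0‖²) < 1 - ‖γ 0‖` as `r ≤ 1/4`) and are pairwise
disjoint: for `w ∈ E γ`, `u = γ⁻¹ w`: `‖u‖/(‖q u‖ ‖α‖) = ‖w - γ 0‖ < r/‖α‖²` and `‖q u‖ ≤ ‖α‖ (1 + ‖u‖)` give `‖u‖ < r'`.
If also `w ∈ E δ`: `u' = δ⁻¹ w = η u`, `η = δ⁻¹ γ`, `‖u'‖ < r'`, and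
`‖η u - η 0‖ = ‖u‖/(‖q u‖ ‖α‖) ≤ ‖u‖/(1 - ‖u‖)`, so `‖η 0‖ < ρ`, `η = 1`. Areas:
`Σ_{γ ∈ s} π (r/‖α‖²)² ≤ π` for finite `s` (`MeasureTheory.measure_biUnion_finset`, `Complex.volume_ball`), then
`summable_of_sum_le`.
-/

namespace HYP4

open Complex Topology Set ASP87

variable {Γ : Type} [Group Γ] (F : FD Γ)

private theorem HS0_al_ge (γ : Γ) : 1 ≤ ‖F.al γ‖ := by
  have h := F.nm γ
  have h1 := norm_nonneg (F.al γ)
  nlinarith [sq_nonneg ‖F.be γ‖]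

private theorem HS0_be_le (γ : Γ) : ‖F.be γ‖ ≤ ‖F.al γ‖ := by
  have h := F.nm γ
  have h1 := norm_nonneg (F.al γ)
  exact le_of_sq_le_sq (by linarith) h1

private theorem HS0_dist (γ : Γ) {u : ℂ} (hu : ‖u‖ < 1) :
    ‖F.act γ u - F.act γ 0‖ = ‖u‖ / (‖(starRingEnd ℂ) (F.be γ) * cb (F.sg γ) u +
      (starRingEnd ℂ) (F.al γ)‖ * ‖F.al γ‖) := by
  have h := mb_sub (F.nm γ) (F.sg γ) hu (show ‖(0 : ℂ)‖ < 1 by simp)
  unfold FD.act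
  rw [h, cb_zero, mul_zero, zero_add, sub_zero, norm_div, norm_mul, cb_norm, RCLike.norm_conj]

private theorem HS0_near {r : ℝ} (hr0 : 0 < r) (hr1 : r ≤ 1 / 4) (γ : Γ) {u : ℂ} (hu : ‖u‖ < 1)
    (h : ‖F.act γ u - F.act γ 0‖ < r * (‖F.al γ‖ ^ 2)⁻¹) : ‖u‖ < r / (1 - r) := by
  rw [HS0_dist F γ hu] at h
  have ha := HS0_al_ge F γ
  have ha0 : 0 < ‖F.al γ‖ := by linarith
  have hq0 : 0 < ‖(starRingEnd ℂ) (F.be γ) * cb (F.sg γ) u + (starRingEnd ℂ) (F.al γ)‖ :=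
    norm_pos_iff.mpr (mb_den (F.nm γ) (F.sg γ) hu)
  have hq : ‖(starRingEnd ℂ) (F.be γ) * cb (F.sg γ) u + (starRingEnd ℂ) (F.al γ)‖ ≤
      ‖F.al γ‖ * (1 + ‖u‖) := by
    refine (norm_add_le _ _).trans ?_
    rw [norm_mul, cb_norm, RCLike.norm_conj, RCLike.norm_conj]
    have := mul_le_mul_of_nonneg_right (HS0_be_le F γ) (norm_nonneg u)
    linarith
  rw [div_lt_iff₀ (by positivity)] at h
  have h2 : r * (‖F.al γ‖ ^ 2)⁻¹ * (‖(starRingEnd ℂ) (F.be γ) * cb (F.sg γ) u +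
      (starRingEnd ℂ) (F.al γ)‖ * ‖F.al γ‖) ≤ r * (1 + ‖u‖) := by
    calc r * (‖F.al γ‖ ^ 2)⁻¹ * (‖(starRingEnd ℂ) (F.be γ) * cb (F.sg γ) u +
          (starRingEnd ℂ) (F.al γ)‖ * ‖F.al γ‖)
        ≤ r * (‖F.al γ‖ ^ 2)⁻¹ * (‖F.al γ‖ * (1 + ‖u‖) * ‖F.al γ‖) := by gcongr
      _ = r * (1 + ‖u‖) := by field_simp
  rw [lt_div_iff₀ (by linarith)]
  linarith

private theorem HS0_far (γ : Γ) {u : ℂ} (hu : ‖u‖ < 1) :
    ‖F.act γ 0‖ ≤ ‖F.act γ u‖ + ‖u‖ / (1 - ‖u‖) := by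
  have ha := HS0_al_ge F γ
  have hq : ‖F.al γ‖ * (1 - ‖u‖) ≤
      ‖(starRingEnd ℂ) (F.be γ) * cb (F.sg γ) u + (starRingEnd ℂ) (F.al γ)‖ := by
    refine le_trans ?_ (mb_den_le (F.sg γ) u)
    have := mul_le_mul_of_nonneg_right (HS0_be_le F γ) (norm_nonneg u)
    linarith
  have hq1 : 1 - ‖u‖ ≤ ‖(starRingEnd ℂ) (F.be γ) * cb (F.sg γ) u +
      (starRingEnd ℂ) (F.al γ)‖ * ‖F.al γ‖ := by
    calc 1 - ‖u‖ = 1 * (1 - ‖u‖) * 1 := by ring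
      _ ≤ ‖F.al γ‖ * (1 - ‖u‖) * ‖F.al γ‖ := by
          have h1 : 1 * (1 - ‖u‖) ≤ ‖F.al γ‖ * (1 - ‖u‖) :=
            mul_le_mul_of_nonneg_right ha (by linarith)
          exact mul_le_mul h1 ha (by norm_num) (le_trans (by linarith) h1)
      _ ≤ _ := mul_le_mul_of_nonneg_right hq (norm_nonneg _)
  have h1 : ‖F.act γ u - F.act γ 0‖ ≤ ‖u‖ / (1 - ‖u‖) := by
    rw [HS0_dist F γ hu]
    exact div_le_div_of_nonneg_left (norm_nonneg _) (by linarith) hq1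
  have h2 : ‖F.act γ 0‖ ≤ ‖F.act γ u‖ + ‖F.act γ u - F.act γ 0‖ := by
    have := norm_sub_le (F.act γ u) (F.act γ u - F.act γ 0)
    rwa [sub_sub_cancel] at this
  linarith

theorem summ_al : Summable (fun γ => ((‖F.al γ‖ ^ 2)⁻¹) ^ 2) := by
  obtain ⟨ρ, hρ, hdisc⟩ := F.disc
  set r : ℝ := min (1 / 4) (ρ / 8) with hr
  have hr0 : 0 < r := lt_min (by norm_num) (by positivity)
  have hr1 : r ≤ 1 / 4 := min_le_left _ _
  have hr2 : r ≤ ρ / 8 := min_le_right _ _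
  have hr' : r / (1 - r) ≤ 4 * r / 3 := by
    rw [div_le_div_iff₀ (by linarith) (by norm_num)]
    nlinarith
  let E : Γ → Set ℂ := fun γ => Metric.ball (F.act γ 0) (r * (‖F.al γ‖ ^ 2)⁻¹)
  have hin : ∀ γ, E γ ⊆ Metric.ball (0 : ℂ) 1 := by
    intro γ w hw
    rw [Metric.mem_ball, dist_eq_norm] at hw
    rw [Metric.mem_ball, dist_zero_right]
    have h1 := act_zero_norm F γ
    have h2 : ‖F.act γ 0‖ < 1 := act_norm F γ (by simp)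
    have h3 : ‖w‖ ≤ ‖F.act γ 0‖ + ‖w - F.act γ 0‖ := by
      have := norm_add_le (F.act γ 0) (w - F.act γ 0)
      rwa [add_sub_cancel] at this
    rw [← h1] at hw
    have h4 := norm_nonneg (F.act γ 0)
    have h5 : r * (1 - ‖F.act γ 0‖ ^ 2) ≤ 1 / 4 * (1 - ‖F.act γ 0‖ ^ 2) :=
      mul_le_mul_of_nonneg_right hr1 (by nlinarith)
    nlinarith
  have hnear : ∀ γ w, w ∈ E γ → ‖F.act γ⁻¹ w‖ < 4 * r / 3 := by
    intro γ w hw
    have hw1 : ‖w‖ < 1 := by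
      have := hin γ hw
      rwa [Metric.mem_ball, dist_zero_right] at this
    have hu : ‖F.act γ⁻¹ w‖ < 1 := act_norm F γ⁻¹ hw1
    refine lt_of_lt_of_le (HS0_near F hr0 hr1 γ hu ?_) hr'
    rw [act_act_inv F γ hw1]
    rwa [Metric.mem_ball, dist_eq_norm] at hw
  have hdisj : ∀ γ δ, γ ≠ δ → Disjoint (E γ) (E δ) := by
    intro γ δ hne
    rw [Set.disjoint_left]
    intro w hw hw'
    have hw1 : ‖w‖ < 1 := by
      have := hin γ hw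
      rwa [Metric.mem_ball, dist_zero_right] at this
    have h1 := hnear γ w hw
    have h2 := hnear δ w hw'
    have hu : ‖F.act γ⁻¹ w‖ < 1 := act_norm F γ⁻¹ hw1
    have h3 : F.act (δ⁻¹ * γ) (F.act γ⁻¹ w) = F.act δ⁻¹ w := by
      rw [act_mul F δ⁻¹ γ hu, act_act_inv F γ hw1]
    have h4 := HS0_far F (δ⁻¹ * γ) hu
    rw [h3] at h4
    have h5 : ‖F.act γ⁻¹ w‖ / (1 - ‖F.act γ⁻¹ w‖) ≤ 3 / 2 * ‖F.act γ⁻¹ w‖ := by
      have h6 := norm_nonneg (F.act γ⁻¹ w)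
      rw [div_le_iff₀ (by linarith)]
      nlinarith
    have h6 : δ⁻¹ * γ ≠ 1 := by
      intro h
      exact hne (inv_mul_eq_one.mp h).symm
    have h7 := hdisc (δ⁻¹ * γ) h6
    have h8 : ρ ≤ ‖F.act (δ⁻¹ * γ) 0‖ := h7
    linarith
  refine summable_of_sum_le (c := 1 / r ^ 2) (fun γ => by positivity) ?_
  intro s
  have hm : ∑ γ ∈ s, MeasureTheory.volume (E γ) ≤ MeasureTheory.volume (Metric.ball (0 : ℂ) 1) := by
    rw [← MeasureTheory.measure_biUnion_finset (fun γ _ δ _ hne => hdisj γ δ hne)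
      (fun γ _ => Metric.isOpen_ball.measurableSet)]
    exact MeasureTheory.measure_mono (Set.iUnion₂_subset fun γ _ => hin γ)
  have hm' := ENNReal.toReal_mono (by
    rw [Complex.volume_ball]
    exact ENNReal.mul_ne_top (ENNReal.pow_ne_top ENNReal.ofReal_ne_top) ENNReal.coe_ne_top) hm
  rw [ENNReal.toReal_sum (fun γ _ => by
    rw [Complex.volume_ball]
    exact ENNReal.mul_ne_top (ENNReal.pow_ne_top ENNReal.ofReal_ne_top) ENNReal.coe_ne_top)] at hm'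
  have hv : ∀ (a : ℂ) (t : ℝ), 0 ≤ t → (MeasureTheory.volume (Metric.ball a t)).toReal =
      t ^ 2 * Real.pi := by
    intro a t ht
    rw [Complex.volume_ball, ENNReal.toReal_mul, ENNReal.toReal_pow, ENNReal.toReal_ofReal ht]
    rfl
  rw [hv 0 1 (by norm_num), Finset.sum_congr rfl fun γ _ => hv _ _ (by positivity),
    ← Finset.sum_mul] at hm'
  have hm2 := le_of_mul_le_mul_right hm' Real.pi_pos
  have hm3 : ∑ γ ∈ s, (r * (‖F.al γ‖ ^ 2)⁻¹) ^ 2 = r ^ 2 * ∑ γ ∈ s, ((‖F.al γ‖ ^ 2)⁻¹) ^ 2 := by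
    rw [Finset.mul_sum]
    exact Finset.sum_congr rfl fun γ _ => mul_pow _ _ _
  rw [hm3] at hm2
  rw [le_div_iff₀ (by positivity)]
  linarith

end HYP4
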