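import Pool.Agent.HYP4.ConfAG

/-!
# HYP4/MainG: the E-trick (copy of TOR4/MainT)

Points `Fin n ⊕ Unit` (particles, cone point), relations `Fin n`: roots of `G c (z i)` (`src i` = cone point,
`tgt i` = particle). `p2` = forget the cone point: fibre `SG G m z Empty`; `p1` = forget the particles: base
`ConfG G Unit` (the disc), fibre over `x0` = `XG`.
-/

namespace HYP4

open Complex Topology Set ASP87

variable {Γ : Type} [Group Γ] {F : FD Γ} {G : ℂ → ℂ → ℂ}

/-- `n` particles with roots of `f` -/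
def XG (F : FD Γ) (n m : ℕ) (f : ℂ → ℂ) : Set ((Fin n → ℂ) × (Fin n → ℂ)) :=
  {y | (∀ i, ‖y.1 i‖ < 1) ∧ (∀ i, y.2 i ^ m = f (y.1 i)) ∧
    ∀ i j, i ≠ j → ∀ γ, y.1 j ≠ F.act γ (y.1 i)}

/-- two points must be in different orbits unless they are a particle and the cone point -/
private def neE {n : ℕ} (a b : Fin n ⊕ Unit) : Prop :=
  a ≠ b ∧ ¬ ∃ i : Fin n, (a = Sum.inl i ∧ b = Sum.inr ()) ∨ (b = Sum.inl i ∧ a = Sum.inr ())

private def SE (n : ℕ) : SysG (Fin n ⊕ Unit) (Fin n) where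
  src _ := Sum.inr ()
  tgt i := Sum.inl i
  ne := neE

private theorem neE_inr {n : ℕ} (b b' : Unit) (h : b ≠ b') :
    neE (n := n) (Sum.inr b) (Sum.inr b') := absurd rfl h

private theorem neE_inl {n : ℕ} (b b' : Fin n) (h : b ≠ b') : neE (Sum.inl b) (Sum.inl b') := by
  refine ⟨fun h' => h (Sum.inl_injective h'), ?_⟩
  rintro ⟨i, ⟨-, h1⟩ | ⟨-, h1⟩⟩ <;> cases h1

/-- the fibre over the particles -/
private theorem fib_z (hG : IsG F G) {n m : ℕ} (hm : m ≠ 0) (b0 : ConfG G (Fin n)) :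
    Asph (forgetG G m (SE n) Sum.inl neE_inl ⁻¹' {b0}) := by
  have h2 : Asph (SG G m (fun i : Fin n => b0.1 i) (Empty.elim : Empty → ℂ)) :=
    asph_SG hG hm (fun i => b0.2.1 i) (fun a => a.elim) (fun i j h => b0.2.2 i j h)
      (fun a => a.elim) (fun _ a => a.elim)
  have hval : ∀ y : (forgetG G m (SE n) Sum.inl neE_inl ⁻¹' {b0}), ∀ b,
      y.1.1.1 (Sum.inl b) = b0.1 b := fun y b => congrFun (congrArg Subtype.val y.2) b
  have hS : ∀ y : (forgetG G m (SE n) Sum.inl neE_inl ⁻¹' {b0}),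
      ((y.1.1.1 (Sum.inr ()), y.1.1.2) : ℂ × (Fin n → ℂ)) ∈
        SG G m (fun i : Fin n => b0.1 i) (Empty.elim : Empty → ℂ) := by
    intro y
    refine ⟨y.1.2.1 _, fun i => ?_, fun a => a.elim⟩
    have e : y.1.1.1 (Sum.inl i) = b0.1 i := hval y i
    have h' : y.1.1.2 i ^ m = G (y.1.1.1 (Sum.inr ())) (y.1.1.1 (Sum.inl i)) := y.1.2.2.1 i
    rw [e] at h'
    exact h'
  have hE : ∀ z : SG G m (fun i : Fin n => b0.1 i) (Empty.elim : Empty → ℂ),
      ((Sum.elim (fun i : Fin n => b0.1 i) (fun _ : Unit => z.1.1), z.1.2) :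
        (Fin n ⊕ Unit → ℂ) × (Fin n → ℂ)) ∈ GG G m (SE n) := by
    intro z
    refine ⟨?_, fun i => z.2.2.1 i, ?_⟩
    · rintro (i | u)
      · exact b0.2.1 i
      · exact z.2.1
    · rintro (i | u) (j | v) ⟨hab, hnc⟩
      · exact b0.2.2 _ _ fun h' => hab (congrArg Sum.inl h')
      · exact absurd ⟨i, Or.inl ⟨rfl, rfl⟩⟩ hnc
      · exact absurd ⟨j, Or.inr ⟨rfl, rfl⟩⟩ hnc
      · exact absurd rfl hab
  intro d hd
  refine ext_retract (X := SG G m (fun i : Fin n => b0.1 i) (Empty.elim : Empty → ℂ))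
    (Y := (forgetG G m (SE n) Sum.inl neE_inl ⁻¹' {b0}))
    (fun y => ⟨_, hS y⟩) ?_ (fun z => ⟨⟨_, hE z⟩, Subtype.ext (funext fun b => rfl)⟩) ?_ ?_ (h2 d hd)
  · refine Continuous.subtype_mk (Continuous.prodMk ?_ ?_) _
    · exact (continuous_apply _).comp (continuous_fst.comp
        (continuous_subtype_val.comp continuous_subtype_val))
    · exact continuous_snd.comp (continuous_subtype_val.comp continuous_subtype_val)
  · refine Continuous.subtype_mk (Continuous.subtype_mk (Continuous.prodMk ?_ ?_) _) _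
    · refine continuous_pi ?_
      rintro (i | u)
      · exact continuous_const
      · exact continuous_fst.comp continuous_subtype_val
    · exact continuous_snd.comp continuous_subtype_val
  · intro y
    refine Subtype.ext (Subtype.ext (Prod.ext (funext ?_) rfl))
    rintro (i | u)
    · exact (hval y i).symm
    · rfl

private theorem asph_KE (hG : IsG F G) {n m : ℕ} (hm : m ≠ 0) : Asph (GG G m (SE n)) := by
  intro e he f hf
  have b0 : ConfG G (Fin n) := forgetG G m (SE n) Sum.inl neE_inl (f fun _ => 0)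
  exact ext_total (forget_loctrivG hG hm (SE n) Sum.inl neE_inl b0)
    (asph_confG hG (Fin n) e he) (fib_z hG hm b0 e he) f hf

theorem asph_XG (hG : IsG F G) {n m : ℕ} (hm : m ≠ 0) {x0 : ℂ} (hx0 : ‖x0‖ < 1) :
    Asph (XG F n m (G x0)) := by
  let b0 : ConfG G Unit := ⟨fun _ => x0, fun _ => hx0, fun i j hij => absurd rfl hij⟩
  have hp := forget_loctrivG hG hm (SE n) (fun b : Unit => Sum.inr b) neE_inr b0
  have hval : ∀ y : (forgetG G m (SE n) (fun b : Unit => Sum.inr b) neE_inr ⁻¹' {b0}),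
      y.1.1.1 (Sum.inr ()) = x0 := fun y => congrFun (congrArg Subtype.val y.2) ()
  have hS : ∀ y : (forgetG G m (SE n) (fun b : Unit => Sum.inr b) neE_inr ⁻¹' {b0}),
      ((fun i => y.1.1.1 (Sum.inl i), y.1.1.2) : (Fin n → ℂ) × (Fin n → ℂ)) ∈
        XG F n m (G x0) := by
    intro y
    refine ⟨fun i => y.1.2.1 _, fun i => ?_, fun i j hij γ hγ => ?_⟩
    · have h' : y.1.1.2 i ^ m = G (y.1.1.1 (Sum.inr ())) (y.1.1.1 (Sum.inl i)) := y.1.2.2.1 i
      rw [hval y] at h'
      exact h'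
    · have h1 : G (y.1.1.1 (Sum.inl i)) (y.1.1.1 (Sum.inl j)) ≠ 0 :=
        y.1.2.2.2 _ _ (neE_inl i j hij)
      exact h1 ((G_zero hG (y.1.2.1 _) (y.1.2.1 _)).2 ⟨γ, hγ⟩)
  have hE : ∀ z : XG F n m (G x0),
      ((Sum.elim z.1.1 (fun _ : Unit => x0), z.1.2) :
        (Fin n ⊕ Unit → ℂ) × (Fin n → ℂ)) ∈ GG G m (SE n) := by
    intro z
    refine ⟨?_, fun i => z.2.2.1 i, ?_⟩
    · rintro (i | u)
      · exact z.2.1 i
      · exact hx0
    · rintro (i | u) (j | v) ⟨hab, hnc⟩
      · intro h0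
        obtain ⟨γ, hγ⟩ := (G_zero hG (z.2.1 i) (z.2.1 j)).1 h0
        exact z.2.2.2 i j (fun h => hab (congrArg Sum.inl h)) γ hγ
      · exact absurd ⟨i, Or.inl ⟨rfl, rfl⟩⟩ hnc
      · exact absurd ⟨j, Or.inr ⟨rfl, rfl⟩⟩ hnc
      · exact absurd rfl hab
  intro e he
  refine ext_retract (X := (forgetG G m (SE n) (fun b : Unit => Sum.inr b) neE_inr ⁻¹' {b0}))
    (Y := XG F n m (G x0)) (fun z => ⟨⟨_, hE z⟩, Subtype.ext (funext fun b => rfl)⟩) ?_
    (fun y => ⟨_, hS y⟩) ?_ (fun z => Subtype.ext rfl)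
    (ext_fibre hp b0 (asph_confG hG Unit (e + 1) (by omega)) (asph_KE hG hm e he))
  · refine Continuous.subtype_mk (Continuous.subtype_mk (Continuous.prodMk ?_ ?_) _) _
    · refine continuous_pi ?_
      rintro (i | b)
      · exact (continuous_apply i).comp (continuous_fst.comp continuous_subtype_val)
      · exact continuous_const
    · exact continuous_snd.comp continuous_subtype_val
  · refine Continuous.subtype_mk (Continuous.prodMk ?_ ?_) _
    · exact continuous_pi fun i => (continuous_apply _).comp (continuous_fst.comp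
        (continuous_subtype_val.comp continuous_subtype_val))
    · exact continuous_snd.comp (continuous_subtype_val.comp continuous_subtype_val)

end HYP4
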