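import Mathlib

/-!
# HYP4/PushL: equivariant pushes

`exists_pushL` (local push, copy of ASP87/TSmall for one point): `tsB z = max (1 - ‖z - a‖/r) 0`,
`tsC v = (ε / max ε ‖v‖) v`, `ε = r/2`, `P b z = z + tsB z * tsC (b - a)` (the perturbation is `1/2`-Lipschitz),
`Q b` = inverse (fixed point of `z ↦ ζ - tsB z * tsC (b - a)`). `P b` preserves `ball a r`: it is the identity outside
and bijective.
-/

namespace HYP4

open Complex Topology Set

private noncomputable def plB (δ : ℝ) (c z : ℂ) : ℝ := max (1 - ‖z - c‖ / δ) 0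

private theorem plB_lip {δ : ℝ} (hδ : 0 < δ) (c z z' : ℂ) :
    |plB δ c z - plB δ c z'| ≤ ‖z - z'‖ / δ := by
  unfold plB
  refine (abs_max_sub_max_le_abs _ _ _).trans ?_
  have h1 : 1 - ‖z - c‖ / δ - (1 - ‖z' - c‖ / δ) = (‖z' - c‖ - ‖z - c‖) / δ := by ring
  rw [h1, abs_div, abs_of_pos hδ]
  apply div_le_div_of_nonneg_right _ hδ.le
  have h2 := abs_norm_sub_norm_le (z' - c) (z - c)
  rw [sub_sub_sub_cancel_right, norm_sub_rev z' z] at h2
  exact h2

private theorem plB_nonneg (δ : ℝ) (c z : ℂ) : 0 ≤ plB δ c z := le_max_right _ _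

private theorem plB_le_one {δ : ℝ} (hδ : 0 < δ) (c z : ℂ) : plB δ c z ≤ 1 := by
  unfold plB
  have h : 0 ≤ ‖z - c‖ / δ := by positivity
  exact max_le (by linarith) zero_le_one

private theorem plB_self (δ : ℝ) (c : ℂ) : plB δ c c = 1 := by
  unfold plB
  simp

private theorem plB_far {δ : ℝ} (hδ : 0 < δ) {c z : ℂ} (h : δ ≤ ‖z - c‖) : plB δ c z = 0 := by
  unfold plB
  apply max_eq_right
  have : 1 ≤ ‖z - c‖ / δ := by rwa [le_div_iff₀ hδ, one_mul]
  linarith

private theorem plB_cont {δ : ℝ} (c : ℂ) : Continuous (plB δ c) := by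
  unfold plB
  fun_prop

private noncomputable def plC (ε : ℝ) (v : ℂ) : ℂ := ((ε / max ε ‖v‖ : ℝ) : ℂ) * v

private theorem plC_norm {ε : ℝ} (hε : 0 < ε) (v : ℂ) : ‖plC ε v‖ ≤ ε := by
  unfold plC
  have hm : 0 < max ε ‖v‖ := lt_of_lt_of_le hε (le_max_left _ _)
  rw [norm_mul, Complex.norm_real, Real.norm_of_nonneg (by positivity), div_mul_eq_mul_div,
    div_le_iff₀ hm]
  exact mul_le_mul_of_nonneg_left (le_max_right _ _) hε.le

private theorem plC_eq {ε : ℝ} (hε : 0 < ε) {v : ℂ} (hv : ‖v‖ ≤ ε) : plC ε v = v := by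
  unfold plC
  rw [max_eq_left hv, div_self hε.ne', Complex.ofReal_one, one_mul]

private theorem plC_cont {ε : ℝ} (hε : 0 < ε) : Continuous (plC ε) := by
  unfold plC
  have h1 : Continuous fun v : ℂ => ε / max ε ‖v‖ :=
    continuous_const.div (continuous_const.max continuous_norm) fun v =>
      (lt_of_lt_of_le hε (le_max_left _ _)).ne'
  exact (Complex.continuous_ofReal.comp h1).mul continuous_id

private noncomputable def plG (a : ℂ) (r : ℝ) (b z : ℂ) : ℂ :=
  ((plB r a z : ℝ) : ℂ) * plC (r / 2) (b - a)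

private theorem plG_cont {r : ℝ} (hr : 0 < r) (a : ℂ) :
    Continuous fun q : ℂ × ℂ => plG a r q.1 q.2 := by
  unfold plG
  refine (Complex.continuous_ofReal.comp ((plB_cont _).comp continuous_snd)).mul ?_
  exact (plC_cont (half_pos hr)).comp (continuous_fst.sub continuous_const)

private theorem plG_lip {r : ℝ} (hr : 0 < r) (a b z z' : ℂ) :
    ‖plG a r b z - plG a r b z'‖ ≤ 1 / 2 * ‖z - z'‖ := by
  unfold plG
  rw [← sub_mul, norm_mul, ← Complex.ofReal_sub, Complex.norm_real, Real.norm_eq_abs]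
  calc |plB r a z - plB r a z'| * ‖plC (r / 2) (b - a)‖ ≤ ‖z - z'‖ / r * (r / 2) :=
        mul_le_mul (plB_lip hr _ _ _) (plC_norm (half_pos hr) _) (norm_nonneg _) (by positivity)
    _ = 1 / 2 * ‖z - z'‖ := by field_simp

private theorem plG_diff {r : ℝ} (hr : 0 < r) (a b b' z : ℂ) :
    ‖plG a r b' z - plG a r b z‖ ≤ ‖plC (r / 2) (b' - a) - plC (r / 2) (b - a)‖ := by
  unfold plG
  rw [← mul_sub, norm_mul, Complex.norm_real, Real.norm_of_nonneg (plB_nonneg _ _ _)]
  calc _ ≤ 1 * ‖plC (r / 2) (b' - a) - plC (r / 2) (b - a)‖ :=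
        mul_le_mul_of_nonneg_right (plB_le_one hr _ _) (norm_nonneg _)
    _ = _ := one_mul _

private theorem plG_con {r : ℝ} (hr : 0 < r) (a b ζ : ℂ) :
    ContractingWith (1 / 2) fun z => ζ - plG a r b z := by
  refine ⟨?_, LipschitzWith.of_dist_le_mul fun z z' => ?_⟩
  · rw [← NNReal.coe_lt_coe]
    norm_num
  · rw [dist_eq_norm, dist_eq_norm, sub_sub_sub_cancel_left, norm_sub_rev]
    have := plG_lip hr a b z z'
    push_cast
    exact this

theorem exists_pushL (a : ℂ) {r : ℝ} (hr : 0 < r) :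
    ∃ (ε : ℝ) (P Q : ℂ → ℂ → ℂ), 0 < ε ∧ Continuous (fun q : ℂ × ℂ => P q.1 q.2) ∧
      Continuous (fun q : ℂ × ℂ => Q q.1 q.2) ∧ (∀ b z, Q b (P b z) = z) ∧ (∀ b z, P b (Q b z) = z) ∧
      (∀ b z, r ≤ ‖z - a‖ → P b z = z ∧ Q b z = z) ∧
      (∀ b z, ‖z - a‖ < r → ‖P b z - a‖ < r ∧ ‖Q b z - a‖ < r) ∧ (∀ z, P a z = z) ∧
      ∀ b, ‖b - a‖ ≤ ε → P b a = b := by
  have hε0 : 0 < r / 2 := half_pos hr
  set G : ℂ → ℂ → ℂ := plG a r with hG
  set P : ℂ → ℂ → ℂ := fun b z => z + G b z with hP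
  set Q : ℂ → ℂ → ℂ := fun b ζ => ContractingWith.fixedPoint _ (plG_con hr a b ζ) with hQ
  have hQf : ∀ b ζ, ζ - G b (Q b ζ) = Q b ζ := fun b ζ =>
    (plG_con hr a b ζ).fixedPoint_isFixedPt
  have hPQ : ∀ b ζ, P b (Q b ζ) = ζ := by
    intro b ζ
    have h := hQf b ζ
    show Q b ζ + G b (Q b ζ) = ζ
    linear_combination -h
  have hQP : ∀ b z, Q b (P b z) = z := by
    intro b z
    refine ((plG_con hr a b (P b z)).fixedPoint_unique (x := z) ?_).symm
    show z + G b z - G b z = z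
    ring
  have hPl : ∀ b z z', ‖z - z'‖ ≤ 2 * ‖P b z - P b z'‖ := by
    intro b z z'
    have h1 : z - z' = (P b z - P b z') - (G b z - G b z') := by
      rw [hP]
      simp only
      ring
    have h2 := norm_sub_le (P b z - P b z') (G b z - G b z')
    rw [← h1] at h2
    have := plG_lip hr a b z z'
    linarith
  have hfar : ∀ b z, r ≤ ‖z - a‖ → P b z = z ∧ Q b z = z := by
    intro b z hz
    have h1 : P b z = z := by
      show z + plG a r b z = z
      unfold plG
      rw [plB_far hr hz, Complex.ofReal_zero, zero_mul, add_zero]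
    refine ⟨h1, ?_⟩
    have h2 := hQP b z
    rwa [h1] at h2
  refine ⟨r / 2, P, Q, hε0, ?_, ?_, hQP, hPQ, hfar, ?_, ?_, ?_⟩
  · exact continuous_snd.add (plG_cont hr a)
  · rw [continuous_iff_continuousAt]
    rintro ⟨b, ζ⟩
    have hb : ∀ q : ℂ × ℂ, ‖Q q.1 q.2 - Q b ζ‖ ≤ 2 * ‖q.2 - ζ‖ +
        2 * ‖plC (r / 2) (q.1 - a) - plC (r / 2) (b - a)‖ := by
      intro q
      have h1 := hPl b (Q q.1 q.2) (Q b ζ)
      rw [hPQ] at h1
      have h2 : P b (Q q.1 q.2) - ζ = (q.2 - ζ) - (G q.1 (Q q.1 q.2) - G b (Q q.1 q.2)) := by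
        have h3 := hPQ q.1 q.2
        rw [hP] at h3 ⊢
        simp only at h3 ⊢
        linear_combination h3
      have h3 := norm_sub_le (q.2 - ζ) (G q.1 (Q q.1 q.2) - G b (Q q.1 q.2))
      rw [← h2] at h3
      have h4 := plG_diff hr a b q.1 (Q q.1 q.2)
      rw [← hG] at h4
      linarith
    have hlim : Filter.Tendsto (fun q : ℂ × ℂ => 2 * ‖q.2 - ζ‖ +
        2 * ‖plC (r / 2) (q.1 - a) - plC (r / 2) (b - a)‖) (𝓝 (b, ζ)) (𝓝 0) := by
      have hc : Continuous fun q : ℂ × ℂ => 2 * ‖q.2 - ζ‖ +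
          2 * ‖plC (r / 2) (q.1 - a) - plC (r / 2) (b - a)‖ := by
        refine (continuous_const.mul (continuous_snd.sub continuous_const).norm).add
          (continuous_const.mul ?_)
        exact (((plC_cont hε0).comp (continuous_fst.sub continuous_const)).sub
          continuous_const).norm
      have h := hc.tendsto (b, ζ)
      simpa using h
    rw [ContinuousAt, tendsto_iff_norm_sub_tendsto_zero]
    exact squeeze_zero (fun _ => norm_nonneg _) hb hlim
  · intro b z hz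
    constructor
    · by_contra h
      have h1 := (hfar b (P b z) (not_lt.1 h)).2
      rw [hQP] at h1
      rw [← h1] at h
      exact h hz
    · by_contra h
      have h1 := (hfar b (Q b z) (not_lt.1 h)).1
      rw [hPQ] at h1
      rw [← h1] at h
      exact h hz
  · intro z
    show z + plG a r a z = z
    unfold plG
    rw [sub_self, plC_eq hε0 (by rw [norm_zero]; exact hε0.le), mul_zero, add_zero]
  · intro b hb
    show a + plG a r b a = b
    unfold plG
    rw [plB_self, Complex.ofReal_one, one_mul, plC_eq hε0 hb]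
    ring

end HYP4
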