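import Pool.Agent.HYP4.Sep
import Pool.Agent.HYP4.PushL

/-!
# HYP4/Push: equivariant pushes

`exists_push`: `r` from `exists_sep`, local pushes `P i, Q i` for `a = b0 i`; `epush b z = γ (P i (b i) (γ⁻¹ z))` if
`‖γ⁻¹ z - b0 i‖ < r` for some `(i, γ)` (unique by `exists_sep`), `epush b z = z` otherwise. Locally
`epush b z = z + ∑ (i, γ), (γ (P i (b i) (γ⁻¹ z)) - z)` with a finite sum (at most one term is nonzero; `‖z‖ < R` and
`‖γ⁻¹ z‖ < R` only for finitely many `γ`), so `epush` is continuous.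
-/

namespace HYP4

open Complex Topology Set ASP87

variable {Γ : Type} [Group Γ] (F : FD Γ)

/-- local maps near the points `b0 i` -/
private structure LocP {B : Type*} (b0 : B → ℂ) (r : ℝ) (P : B → ℂ → ℂ → ℂ) : Prop where
  cont : ∀ i, Continuous (fun q : ℂ × ℂ => P i q.1 q.2)
  out : ∀ i b z, r ≤ ‖z - b0 i‖ → P i b z = z
  inn : ∀ i b z, ‖z - b0 i‖ < r → ‖P i b z - b0 i‖ < r
  sum : ∀ i, ‖b0 i‖ + r < 1

/-- the separation property -/
private def SepP {B : Type*} (b0 : B → ℂ) (r : ℝ) : Prop :=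
  ∀ i j γ z, ‖z - b0 i‖ < r → ‖F.act γ z - b0 j‖ < r → i = j ∧ γ = 1

open Classical in
/-- the equivariant extension of the local maps `P i` -/
private noncomputable def epush {B : Type*} (b0 : B → ℂ) (r : ℝ) (P : B → ℂ → ℂ → ℂ) (b : B → ℂ)
    (z : ℂ) : ℂ :=
  if h : ∃ p : B × Γ, ‖F.act p.2⁻¹ z - b0 p.1‖ < r then
    F.act h.choose.2 (P h.choose.1 (b h.choose.1) (F.act h.choose.2⁻¹ z)) else z

variable {B : Type*} {b0 : B → ℂ} {r : ℝ} {P Q : B → ℂ → ℂ → ℂ}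

private theorem LocP.norm (hP : LocP b0 r P) (i : B) (b : ℂ) {z : ℂ} (hz : ‖z‖ < 1) :
    ‖P i b z‖ < 1 := by
  rcases lt_or_ge (‖z - b0 i‖) r with h | h
  · have h1 := hP.inn i b z h
    have h2 := norm_add_le (P i b z - b0 i) (b0 i)
    rw [sub_add_cancel] at h2
    have h3 := hP.sum i
    linarith
  · rw [hP.out i b z h]
    exact hz

private theorem sep_uniq (hs : SepP F b0 r) {z : ℂ} (hz : ‖z‖ < 1) {i j : B} {γ δ : Γ}
    (h : ‖F.act γ⁻¹ z - b0 i‖ < r) (h' : ‖F.act δ⁻¹ z - b0 j‖ < r) : i = j ∧ γ = δ := by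
  have hw := act_norm F γ⁻¹ hz
  have h1 : F.act (δ⁻¹ * γ) (F.act γ⁻¹ z) = F.act δ⁻¹ z := by
    rw [act_mul F _ _ hw, act_act_inv F γ hz]
  obtain ⟨h2, h3⟩ := hs i j (δ⁻¹ * γ) (F.act γ⁻¹ z) h (by rw [h1]; exact h')
  refine ⟨h2, ?_⟩
  rw [inv_mul_eq_one] at h3
  exact h3.symm

private theorem epush_in (hs : SepP F b0 r) (b : B → ℂ) {z : ℂ} (hz : ‖z‖ < 1) {i : B} {γ : Γ}
    (h : ‖F.act γ⁻¹ z - b0 i‖ < r) :
    epush F b0 r P b z = F.act γ (P i (b i) (F.act γ⁻¹ z)) := by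
  have he : ∃ p : B × Γ, ‖F.act p.2⁻¹ z - b0 p.1‖ < r := ⟨(i, γ), h⟩
  have hk : he.choose = (i, γ) := by
    obtain ⟨h1, h2⟩ := sep_uniq F hs hz he.choose_spec h
    exact Prod.ext h1 h2
  rw [epush, dif_pos he, hk]

private theorem epush_out (b : B → ℂ) {z : ℂ}
    (h : ∀ i γ, r ≤ ‖F.act γ⁻¹ z - b0 i‖) : epush F b0 r P b z = z := by
  have he : ¬ ∃ p : B × Γ, ‖F.act p.2⁻¹ z - b0 p.1‖ < r := by
    rintro ⟨p, hp⟩
    exact absurd hp (not_lt.2 (h p.1 p.2))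
  rw [epush, dif_neg he]

private theorem in_or_out (b0 : B → ℂ) (r : ℝ) (z : ℂ) :
    (∃ i γ, ‖F.act γ⁻¹ z - b0 i‖ < r) ∨ ∀ i γ, r ≤ ‖F.act γ⁻¹ z - b0 i‖ := by
  by_cases h : ∃ i γ, ‖F.act γ⁻¹ z - b0 i‖ < r
  · exact Or.inl h
  · push Not at h
    exact Or.inr h

private theorem epush_norm (hP : LocP b0 r P) (hs : SepP F b0 r) (b : B → ℂ) {z : ℂ}
    (hz : ‖z‖ < 1) : ‖epush F b0 r P b z‖ < 1 := by
  rcases in_or_out F b0 r z with ⟨i, γ, h⟩ | h
  · rw [epush_in F hs b hz h]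
    exact act_norm F γ (hP.norm i _ (act_norm F _ hz))
  · rw [epush_out F b h]
    exact hz

private theorem epush_inv (hP : LocP b0 r P) (hs : SepP F b0 r)
    (hQP : ∀ i b z, Q i b (P i b z) = z) (b : B → ℂ) {z : ℂ} (hz : ‖z‖ < 1) :
    epush F b0 r Q b (epush F b0 r P b z) = z := by
  rcases in_or_out F b0 r z with ⟨i, γ, h⟩ | h
  · have hw := act_norm F γ⁻¹ hz
    have hw' := hP.norm i (b i) hw
    have h1 : F.act γ⁻¹ (epush F b0 r P b z) = P i (b i) (F.act γ⁻¹ z) := by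
      rw [epush_in F hs b hz h, act_inv_act F γ hw']
    have h2 : ‖F.act γ⁻¹ (epush F b0 r P b z) - b0 i‖ < r := by
      rw [h1]
      exact hP.inn i _ _ h
    rw [epush_in F hs b (epush_norm F hP hs b hz) h2, h1, hQP, act_act_inv F γ hz]
  · rw [epush_out F b h, epush_out F b h]

private theorem epush_eq (hP : LocP b0 r P) (hs : SepP F b0 r) (b : B → ℂ) (γ : Γ) {z : ℂ}
    (hz : ‖z‖ < 1) : epush F b0 r P b (F.act γ z) = F.act γ (epush F b0 r P b z) := by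
  have key : ∀ δ : Γ, F.act (γ * δ)⁻¹ (F.act γ z) = F.act δ⁻¹ z := by
    intro δ
    rw [← act_mul F _ _ hz]
    congr 1
    group
  rcases in_or_out F b0 r z with ⟨i, δ, h⟩ | h
  · have h1 : ‖F.act (γ * δ)⁻¹ (F.act γ z) - b0 i‖ < r := by
      rw [key]
      exact h
    rw [epush_in F hs b hz h, epush_in F hs b (act_norm F γ hz) h1, key,
      act_mul F _ _ (hP.norm i _ (act_norm F _ hz))]
  · have h1 : ∀ i δ, r ≤ ‖F.act δ⁻¹ (F.act γ z) - b0 i‖ := by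
      intro i δ
      have h2 := key (γ⁻¹ * δ)
      rw [mul_inv_cancel_left] at h2
      rw [h2]
      exact h i _
    rw [epush_out F b h, epush_out F b h1]

private theorem epush_cont [Finite B] (hP : LocP b0 r P) (hs : SepP F b0 r) :
    ContinuousOn (fun q : (B → ℂ) × ℂ => epush F b0 r P q.1 q.2) (univ ×ˢ Dc) := by
  classical
  have := Fintype.ofFinite B
  intro q hq
  have hq2 : ‖q.2‖ < 1 := by
    have := hq.2
    rwa [mem_ball_zero_iff] at this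
  obtain ⟨R, hR1, hR2, hR3⟩ : ∃ R : ℝ, R < 1 ∧ ‖q.2‖ < R ∧ ∀ i, ‖b0 i‖ + r ≤ R := by
    rcases isEmpty_or_nonempty B with hB | hB
    · obtain ⟨R, h1, h2⟩ := exists_between hq2
      exact ⟨R, h2, h1, fun i => hB.elim i⟩
    · obtain ⟨i0, hi0⟩ := Finite.exists_max (fun i => ‖b0 i‖ + r)
      obtain ⟨R, h1, h2⟩ := exists_between (max_lt hq2 (hP.sum i0))
      exact ⟨R, h2, (le_max_left _ _).trans_lt h1,
        fun i => (hi0 i).trans ((le_max_right _ _).trans h1.le)⟩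
  obtain ⟨T, hT⟩ : ∃ T : Finset Γ, ∀ γ, (∃ z, ‖z‖ < R ∧ ‖F.act γ z‖ < R) → γ ∈ T :=
    ⟨(finite_act F hR1).toFinset, fun γ hγ => by
      rw [Set.Finite.mem_toFinset]
      exact hγ⟩
  have hzero : ∀ (b : B → ℂ) (z : ℂ) (i : B) (γ : Γ), ‖z‖ < 1 → r ≤ ‖F.act γ⁻¹ z - b0 i‖ →
      F.act γ (P i (b i) (F.act γ⁻¹ z)) - z = 0 := by
    intro b z i γ hz h
    rw [hP.out i _ _ h, act_act_inv F γ hz, sub_self]
  have hform : ∀ (b : B → ℂ) (z : ℂ), ‖z‖ < R → epush F b0 r P b z =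
      z + ∑ p ∈ (Finset.univ : Finset B) ×ˢ T,
        (F.act p.2 (P p.1 (b p.1) (F.act p.2⁻¹ z)) - z) := by
    intro b z hzR
    have hz : ‖z‖ < 1 := hzR.trans hR1
    rcases in_or_out F b0 r z with ⟨i, γ, h⟩ | h
    · have hγ : γ ∈ T := by
        refine hT γ ⟨F.act γ⁻¹ z, ?_, ?_⟩
        · have h2 := norm_add_le (F.act γ⁻¹ z - b0 i) (b0 i)
          rw [sub_add_cancel] at h2
          have h3 := hR3 i
          linarith
        · rw [act_act_inv F γ hz]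
          exact hzR
      rw [epush_in F hs b hz h, Finset.sum_eq_single (i, γ)]
      · simp
      · rintro ⟨j, δ⟩ _ hne
        apply hzero b z j δ hz
        by_contra h4
        obtain ⟨h5, h6⟩ := sep_uniq F hs hz h (not_le.1 h4)
        exact hne (by rw [h5, h6])
      · intro h4
        exact absurd (Finset.mem_product.2 ⟨Finset.mem_univ _, hγ⟩) h4
    · rw [epush_out F b h, Finset.sum_eq_zero, add_zero]
      rintro ⟨j, δ⟩ _
      exact hzero b z j δ hz (h j δ)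
  have hterm : ∀ (i : B) (γ : Γ), ContinuousOn (fun q : (B → ℂ) × ℂ =>
      F.act γ (P i (q.1 i) (F.act γ⁻¹ q.2)) - q.2) (univ ×ˢ Dc) := by
    intro i γ
    refine ContinuousOn.sub ?_ continuousOn_snd
    refine (act_cont F γ).comp ?_ ?_
    · refine (hP.cont i).comp_continuousOn (ContinuousOn.prodMk ?_ ?_)
      · exact ((continuous_apply i).comp continuous_fst).continuousOn
      · exact (act_cont F γ⁻¹).comp continuousOn_snd fun q hq => hq.2
    · intro q hq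
      have h1 : ‖q.2‖ < 1 := by
        have := hq.2
        rwa [mem_ball_zero_iff] at this
      rw [mem_ball_zero_iff]
      exact hP.norm i _ (act_norm F _ h1)
  have hsum : ContinuousOn (fun q : (B → ℂ) × ℂ => q.2 +
      ∑ p ∈ (Finset.univ : Finset B) ×ˢ T,
        (F.act p.2 (P p.1 (q.1 p.1) (F.act p.2⁻¹ q.2)) - q.2)) (univ ×ˢ Dc) :=
    continuousOn_snd.add (continuousOn_finsetSum _ fun p _ => hterm p.1 p.2)
  have hev : (fun q : (B → ℂ) × ℂ => epush F b0 r P q.1 q.2) =ᶠ[𝓝[univ ×ˢ Dc] q]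
      fun q : (B → ℂ) × ℂ => q.2 + ∑ p ∈ (Finset.univ : Finset B) ×ˢ T,
        (F.act p.2 (P p.1 (q.1 p.1) (F.act p.2⁻¹ q.2)) - q.2) := by
    apply mem_nhdsWithin_of_mem_nhds
    have hopen : IsOpen {q : (B → ℂ) × ℂ | ‖q.2‖ < R} :=
      isOpen_lt continuous_snd.norm continuous_const
    filter_upwards [hopen.mem_nhds (show q ∈ {q : (B → ℂ) × ℂ | ‖q.2‖ < R} from hR2)] with p hp
    exact hform p.1 p.2 hp
  exact (hsum q hq).congr_of_eventuallyEq hev (hform q.1 q.2 hR2)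

theorem exists_push {B : Type*} [Finite B] {b0 : B → ℂ} (hb : ∀ i, ‖b0 i‖ < 1)
    (hne : ∀ i j, i ≠ j → ∀ γ, b0 j ≠ F.act γ (b0 i)) :
    ∃ (ε : ℝ) (H K : (B → ℂ) → ℂ → ℂ), 0 < ε ∧
      ContinuousOn (fun q : (B → ℂ) × ℂ => H q.1 q.2) (univ ×ˢ Dc) ∧
      ContinuousOn (fun q : (B → ℂ) × ℂ => K q.1 q.2) (univ ×ˢ Dc) ∧
      (∀ b z, ‖z‖ < 1 → ‖H b z‖ < 1 ∧ ‖K b z‖ < 1 ∧ K b (H b z) = z ∧ H b (K b z) = z) ∧
      (∀ b γ z, ‖z‖ < 1 → H b (F.act γ z) = F.act γ (H b z)) ∧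
      (∀ z, ‖z‖ < 1 → H b0 z = z) ∧
      ∀ b, (∀ i, ‖b i - b0 i‖ ≤ ε) → ∀ i, H b (b0 i) = b i := by
  obtain ⟨r, hr, hbr, hsep⟩ := exists_sep F hb hne
  choose e P Q he hPc hQc hQP hPQ hout hin hid hmv using fun i => exists_pushL (b0 i) hr
  have hP : LocP b0 r P := ⟨hPc, fun i b z h => (hout i b z h).1, fun i b z h => (hin i b z h).1,
    hbr⟩
  have hQ : LocP b0 r Q := ⟨hQc, fun i b z h => (hout i b z h).2, fun i b z h => (hin i b z h).2,
    hbr⟩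
  have hs : SepP F b0 r := hsep
  obtain ⟨ε, hε, hεe⟩ : ∃ ε : ℝ, 0 < ε ∧ ∀ i, ε ≤ e i := by
    rcases isEmpty_or_nonempty B with hB | hB
    · exact ⟨1, one_pos, fun i => hB.elim i⟩
    · obtain ⟨i0, hi0⟩ := Finite.exists_min e
      exact ⟨e i0, he i0, hi0⟩
  refine ⟨ε, epush F b0 r P, epush F b0 r Q, hε, epush_cont F hP hs, epush_cont F hQ hs,
    fun b z hz => ⟨epush_norm F hP hs b hz, epush_norm F hQ hs b hz,
      epush_inv F hP hs hQP b hz, epush_inv F hQ hs hPQ b hz⟩,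
    fun b γ z hz => epush_eq F hP hs b γ hz, ?_, ?_⟩
  · intro z hz
    rcases in_or_out F b0 r z with ⟨i, γ, h⟩ | h
    · rw [epush_in F hs b0 hz h, hid, act_act_inv F γ hz]
    · rw [epush_out F b0 h]
  · intro b hbε i
    have h1 : F.act (1 : Γ)⁻¹ (b0 i) = b0 i := by
      rw [inv_one, act_one F (hb i)]
    have h2 : ‖F.act (1 : Γ)⁻¹ (b0 i) - b0 i‖ < r := by
      rw [h1, sub_self, norm_zero]
      exact hr
    have h3 : P i (b i) (b0 i) = b i := hmv i (b i) ((hbε i).trans (hεe i))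
    have h4 : ‖b i‖ < 1 := by
      rw [← h3]
      exact hP.norm i _ (hb i)
    rw [epush_in F hs b (hb i) h2, h1, h3, act_one F h4]

end HYP4
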