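import Pool.Agent.HYP4.FactG
import Pool.Agent.TOR4.ProdCov
import Pool.Agent.TOR4.DiscY
import Pool.Agent.ASP87.LogCov

/-!
# HYP4/SGA: the surfaces `SG G m z d` are aspherical (compare TOR4/SFAsph)

`U i` = the function of `exists_factG` for `z i`; `Q i` its finite set. `P = {(i, γ) : ‖γ⁻¹ (z i)‖ < R}`,
`E = {(a, γ) : ‖γ⁻¹ (d a)‖ < R}` (finite by `finite_act`, as `‖z i‖, ‖d a‖ < R`). Zeros: `c = γ⁻¹ (z i)`, punctures
`c = γ⁻¹ (d a)` (`G_zero`). Exhaustion by `‖c‖ < R`, `R < 1`: the function `ρ y = 1/(1 - ‖y.1‖)`.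
-/

namespace HYP4

open scoped unitInterval
open Complex Topology Set ASP87 TOR4

variable {Γ : Type} [Group Γ] {F : FD Γ} {G : ℂ → ℂ → ℂ}

/-- exhaustion -/
private theorem sga_exh {X : Type*} [TopologicalSpace X] {N : ℕ} (hN : N ≠ 0) (ρ : X → ℝ)
    (hρ : Continuous ρ) (h : ∀ R0 : ℝ, ∃ R, R0 < R ∧ Ext N {x : X | ρ x < R}) : Ext N X := by
  intro f hf
  have hK : IsCompact (Cube.boundary (Fin N)) := by
    refine IsClosed.isCompact ?_
    have h1 : Cube.boundary (Fin N) = ⋃ i : Fin N, ({y | y i = 0} ∪ {y | y i = 1}) := by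
      ext y
      rw [mem_iUnion]
      rfl
    rw [h1]
    refine isClosed_iUnion_of_finite (fun i => ?_)
    exact (isClosed_eq (continuous_apply i) continuous_const).union
      (isClosed_eq (continuous_apply i) continuous_const)
  have h0 : (fun _ => 0 : Fin N → I) ∈ Cube.boundary (Fin N) :=
    ⟨⟨0, Nat.pos_of_ne_zero hN⟩, Or.inl rfl⟩
  obtain ⟨R0, hR0⟩ := (hK.bddAbove_image (hρ.comp_continuousOn hf))
  obtain ⟨R, hR, hE⟩ := h R0
  have hfs : ∀ x ∈ Cube.boundary (Fin N), f x ∈ {x : X | ρ x < R} := by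
    intro x hx
    exact (hR0 ⟨x, hx, rfl⟩).trans_lt hR
  obtain ⟨H, hH, -, hHf⟩ := ext_set ⟨_, hfs _ h0⟩ hE f hf hfs
  exact ⟨H, hH, hHf⟩

private theorem sga_fin (F : FD Γ) {z : ℂ} {R : ℝ} (hz : ‖z‖ < R) (hR : R < 1) :
    {γ : Γ | ‖F.act γ⁻¹ z‖ < R}.Finite := by
  refine (finite_act F hR).subset ?_
  intro γ hγ
  refine ⟨F.act γ⁻¹ z, hγ, ?_⟩
  rw [act_act_inv F γ (hz.trans hR)]
  exact hz

/-- one disc -/
private theorem sga_disc (hG : IsG F G) {ι κ : Type} [Fintype ι] [Fintype κ] {m : ℕ} (hm : m ≠ 0)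
    {z : ι → ℂ} {d : κ → ℂ} (hz : ∀ i j, i ≠ j → G (z i) (z j) ≠ 0)
    (hd : ∀ a b, a ≠ b → G (d a) (d b) ≠ 0) (hzd : ∀ i a, G (z i) (d a) ≠ 0) {R : ℝ} (hR : 0 < R)
    (hR1 : R < 1) (hzR : ∀ i, ‖z i‖ < R) (hdR : ∀ a, ‖d a‖ < R) {N : ℕ} (hN : 3 ≤ N) :
    Ext N {y : SG G m z d | ‖y.1.1‖ < R} := by
  classical
  have hz1 : ∀ i, ‖z i‖ < 1 := fun i => (hzR i).trans hR1
  have hd1 : ∀ a, ‖d a‖ < 1 := fun a => (hdR a).trans hR1
  -- the zeros in the disc
  let P : Type := {p : ι × Γ // ‖F.act p.2⁻¹ (z p.1)‖ < R}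
  let E : Type := {p : κ × Γ // ‖F.act p.2⁻¹ (d p.1)‖ < R}
  have hPf : Finite P := by
    have h1 : {p : ι × Γ | ‖F.act p.2⁻¹ (z p.1)‖ < R}.Finite := by
      have h2 : {p : ι × Γ | ‖F.act p.2⁻¹ (z p.1)‖ < R} =
          ⋃ i : ι, (fun q => (i, q)) '' {q | ‖F.act q⁻¹ (z i)‖ < R} := by
        ext ⟨i, q⟩
        simp
      rw [h2]
      exact Set.finite_iUnion fun i => (sga_fin F (hzR i) hR1).image _
    exact h1.to_subtype
  have hEf : Finite E := by
    have h1 : {p : κ × Γ | ‖F.act p.2⁻¹ (d p.1)‖ < R}.Finite := by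
      have h2 : {p : κ × Γ | ‖F.act p.2⁻¹ (d p.1)‖ < R} =
          ⋃ i : κ, (fun q => (i, q)) '' {q | ‖F.act q⁻¹ (d i)‖ < R} := by
        ext ⟨i, q⟩
        simp
      rw [h2]
      exact Set.finite_iUnion fun i => (sga_fin F (hdR i) hR1).image _
    exact h1.to_subtype
  cases nonempty_fintype P
  cases nonempty_fintype E
  choose Q U hUc hUG hQ using fun i => exists_factG hG (hzR i) hR1
  have hprod : ∀ i (T : Γ → ℂ), ∏ p ∈ Finset.univ.filter (fun p : P => p.1.1 = i), T p.1.2 =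
      ∏ q ∈ Q i, T q := by
    intro i T
    refine Finset.prod_bij (fun p _ => p.1.2) ?_ ?_ ?_ (fun _ _ => rfl)
    · rintro ⟨⟨j, q⟩, hp⟩ hj
      have hj' : j = i := (Finset.mem_filter.1 hj).2
      subst hj'
      exact (hQ _ _).2 hp
    · rintro ⟨⟨j, q⟩, hp⟩ hj ⟨⟨j', q'⟩, hp'⟩ hj' he
      have h1 : j = i := (Finset.mem_filter.1 hj).2
      have h2 : j' = i := (Finset.mem_filter.1 hj').2
      have h3 : q = q' := he
      subst h1 h2 h3
      rfl
    · intro q hq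
      exact ⟨⟨(i, q), (hQ _ _).1 hq⟩, Finset.mem_filter.2 ⟨Finset.mem_univ _, rfl⟩, rfl⟩
  -- the space `DY`
  let b : P ⊕ E → ℂ := Sum.elim (fun p => F.act p.1.2⁻¹ (z p.1.1)) (fun p => F.act p.1.2⁻¹ (d p.1.1))
  let w : P ⊕ E → ℕ := Sum.elim (fun _ => m) (fun _ => 0)
  have hzero : ∀ (x y : ℂ) (γ δ : Γ), ‖x‖ < 1 → ‖y‖ < 1 → F.act γ⁻¹ x = F.act δ⁻¹ y → G x y = 0 := by
    intro x y γ δ hx hy h
    refine (G_zero hG hx hy).2 ⟨δ * γ⁻¹, ?_⟩
    rw [act_mul F δ γ⁻¹ hx, h, act_act_inv F δ hy]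
  have hfree : ∀ (x : ℂ) (γ δ : Γ), ‖x‖ < 1 → F.act γ⁻¹ x = F.act δ⁻¹ x → γ = δ := by
    intro x γ δ hx h
    exact inv_injective (act_free F hx h)
  have hb : Function.Injective b := by
    rintro (⟨⟨i, q⟩, hp⟩ | ⟨⟨i, q⟩, hp⟩) (⟨⟨i', q'⟩, hp'⟩ | ⟨⟨i', q'⟩, hp'⟩) he
    · have he' : F.act q⁻¹ (z i) = F.act q'⁻¹ (z i') := he
      have h1 : i = i' := by
        by_contra hne
        exact hz _ _ hne (hzero _ _ _ _ (hz1 i) (hz1 i') he')
      subst h1
      have h2 : q = q' := hfree _ _ _ (hz1 i) he'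
      subst h2
      rfl
    · exact absurd (hzero _ _ _ _ (hz1 i) (hd1 i') he) (hzd i i')
    · have he' : F.act q⁻¹ (d i) = F.act q'⁻¹ (z i') := he
      exact absurd (hzero _ _ _ _ (hz1 i') (hd1 i) he'.symm) (hzd i' i)
    · have he' : F.act q⁻¹ (d i) = F.act q'⁻¹ (d i') := he
      have h1 : i = i' := by
        by_contra hne
        exact hd _ _ hne (hzero _ _ _ _ (hd1 i) (hd1 i') he')
      subst h1
      have h2 : q = q' := hfree _ _ _ (hd1 i) he'
      subst h2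
      rfl
  have hbR : ∀ p, ‖b p‖ < R := by
    rintro (p | p)
    · exact p.2
    · exact p.2
  have h1 : Ext N (DY R b w) := asph_DY hR hb hbR w N hN
  have hball : ∀ {c : ℂ}, ‖c‖ < R → c ∈ Metric.ball (0 : ℂ) R := fun h => by
    rwa [Metric.mem_ball, dist_zero_right]
  -- logarithms of `U i c` added
  let fD : ι → DY R b w → ℂ := fun i y => U i y.1.1
  have hfD : ∀ i, Continuous (fD i) := fun i =>
    (hUc i).comp_continuous (continuous_fst.comp continuous_subtype_val) fun y => hball y.2.1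
  have hfD0 : ∀ i y, fD i y ≠ 0 := fun i y => (hUG i _ y.2.1).1
  have h2 : Ext N (LogE fD) := ext_cover (logCov fD hfD hfD0).1 (by omega) h1
  -- the base space with logarithms
  let X1 : Type := {x : ℂ × (ι → ℂ) × (E → ℂ) // ‖x.1‖ < R ∧ (∀ i, exp (x.2.1 i) = U i x.1) ∧
    ∀ p : E, exp (x.2.2 p) = x.1 - F.act p.1.2⁻¹ (d p.1.1)}
  have hX1c : Continuous (fun x : X1 => x.1.1) := continuous_fst.comp continuous_subtype_val
  have hX1l : ∀ i, Continuous (fun x : X1 => x.1.2.1 i) := fun i =>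
    (continuous_apply i).comp (continuous_fst.comp (continuous_snd.comp continuous_subtype_val))
  have hX1e : ∀ i, Continuous (fun x : X1 => x.1.2.2 i) := fun i =>
    (continuous_apply i).comp (continuous_snd.comp (continuous_snd.comp continuous_subtype_val))
  let a : P → X1 → ℂ := fun p x => cb (F.sg p.1.2) (x.1.1 - F.act p.1.2⁻¹ (z p.1.1))
  have ha : ∀ p, Continuous (a p) := fun p => (cb_cont _).comp (hX1c.sub continuous_const)
  let v : ι → X1 → ℂ := fun i x => exp (x.1.2.1 i / m)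
  have hv : ∀ i, Continuous (v i) := fun i => continuous_exp.comp ((hX1l i).div_const _)
  have hv0 : ∀ i x, v i x ≠ 0 := fun i x => exp_ne_zero _
  have hmC : (m : ℂ) ≠ 0 := by exact_mod_cast hm
  have hvm : ∀ i x, v i x ^ m = U i x.1.1 := by
    intro i x
    rw [← x.2.2.1 i, ← exp_nat_mul, mul_div_cancel₀ _ hmC]
  have h3 : Ext N (PT m a) := by
    refine ext_retract (X := LogE fD) (Y := PT m a)
      (fun y => ⟨(⟨(y.1.1.1.1, Sum.elim (fun p => cb (F.sg p.1.2) (y.1.2 p)) (fun p => y.1.1.1.2.2 p)), ?_⟩,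
        fun i => y.1.1.1.2.1 i), fun i => y.1.1.2.2.1 i⟩) ?_
      (fun y => ⟨(⟨(y.1.1.1.1, y.1.2, fun p => y.1.1.1.2 (Sum.inr p)), y.1.1.2.1, fun i => y.2 i, ?_⟩,
        fun p => cb (F.sg p.1.2) (y.1.1.1.2 (Sum.inl p))), ?_⟩) ?_ ?_ h2
    · refine ⟨y.1.1.2.1, ?_⟩
      rintro (p | p)
      · show bw m (cb (F.sg p.1.2) (y.1.2 p)) = _
        rw [bw, if_neg hm, ← cb_pow, y.2 p, cb_cb]
        rfl
      · show bw 0 (y.1.1.1.2.2 p) = _
        rw [bw, if_pos rfl]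
        exact y.1.1.2.2.2 p
    · refine Continuous.subtype_mk (Continuous.prodMk (Continuous.subtype_mk (Continuous.prodMk ?_ ?_) _)
        (continuous_pi fun i => ?_)) _
      · exact hX1c.comp (continuous_fst.comp continuous_subtype_val)
      · refine continuous_pi fun p => ?_
        rcases p with p | p
        · exact (cb_cont _).comp ((continuous_apply p).comp (continuous_snd.comp continuous_subtype_val))
        · exact (hX1e p).comp (continuous_fst.comp continuous_subtype_val)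
      · exact (hX1l i).comp (continuous_fst.comp continuous_subtype_val)
    · intro p
      have h5 : bw 0 (y.1.1.1.2 (Sum.inr p)) = y.1.1.1.1 - F.act p.1.2⁻¹ (d p.1.1) :=
        y.1.1.2.2 (Sum.inr p)
      rw [bw, if_pos rfl] at h5
      exact h5
    · intro p
      have h4 : bw m (y.1.1.1.2 (Sum.inl p)) = y.1.1.1.1 - F.act p.1.2⁻¹ (z p.1.1) :=
        y.1.1.2.2 (Sum.inl p)
      rw [bw, if_neg hm] at h4
      show cb (F.sg p.1.2) (y.1.1.1.2 (Sum.inl p)) ^ m =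
        cb (F.sg p.1.2) (y.1.1.1.1 - F.act p.1.2⁻¹ (z p.1.1))
      rw [← cb_pow, h4]
    · have hc0 : Continuous (fun y : LogE fD => y.1.1.1.1) :=
        continuous_fst.comp (continuous_subtype_val.comp (continuous_fst.comp continuous_subtype_val))
      have hc1 : ∀ p, Continuous (fun y : LogE fD => y.1.1.1.2 p) := fun p =>
        (continuous_apply p).comp (continuous_snd.comp (continuous_subtype_val.comp
          (continuous_fst.comp continuous_subtype_val)))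
      refine Continuous.subtype_mk (Continuous.prodMk (Continuous.subtype_mk (hc0.prodMk
        (Continuous.prodMk ?_ ?_)) _) ?_) _
      · exact continuous_snd.comp continuous_subtype_val
      · exact continuous_pi fun p => hc1 _
      · exact continuous_pi fun p => (cb_cont _).comp (hc1 _)
    · intro y
      apply Subtype.ext
      refine Prod.ext rfl (funext fun p => ?_)
      exact cb_cb _ _
  have h4 : Ext N (PS m (fun p : P => p.1.1) a v) := by
    have hc := prodCov hm (π := fun p : P => p.1.1) (fun i => ⟨⟨(i, 1), by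
      show ‖F.act 1⁻¹ (z i)‖ < R
      rw [inv_one, act_one F (hz1 i)]
      exact hzR i⟩, rfl⟩) ha (fun x p p' hne hp h5 h6 => ?_) hv hv0
    · exact ext_of_cover hc.1 hc.2 hN h3
    · have h7 := cb_eq_zero.1 h5
      have h8 := cb_eq_zero.1 h6
      have h9 : b (Sum.inl p) = b (Sum.inl p') := by
        show F.act p.1.2⁻¹ (z p.1.1) = F.act p'.1.2⁻¹ (z p'.1.1)
        linear_combination h8 - h7
      exact hne (Sum.inl.inj (hb h9))
  -- logarithms over the disc part of `SG`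
  let fS : ι ⊕ E → {y : SG G m z d | ‖y.1.1‖ < R} → ℂ := fun k y => match k with
    | Sum.inl i => U i y.1.1.1
    | Sum.inr p => y.1.1.1 - F.act p.1.2⁻¹ (d p.1.1)
  have hSc : Continuous (fun y : {y : SG G m z d | ‖y.1.1‖ < R} => y.1.1.1) :=
    continuous_fst.comp (continuous_subtype_val.comp continuous_subtype_val)
  have hSs : Continuous (fun y : {y : SG G m z d | ‖y.1.1‖ < R} => y.1.1.2) :=
    continuous_snd.comp (continuous_subtype_val.comp continuous_subtype_val)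
  have hfS : ∀ k, Continuous (fS k) := by
    rintro (i | p)
    · exact (hUc i).comp_continuous hSc fun y => hball y.2
    · exact hSc.sub continuous_const
  have hfS0 : ∀ k y, fS k y ≠ 0 := by
    rintro (i | p) y
    · exact (hUG i _ y.2).1
    · show y.1.1.1 - F.act p.1.2⁻¹ (d p.1.1) ≠ 0
      intro h5
      refine y.1.2.2.2 p.1.1 ((G_zero hG y.1.2.1 (hd1 _)).2 ⟨p.1.2, ?_⟩)
      rw [sub_eq_zero.1 h5, act_act_inv F _ (hd1 _)]
  refine ext_of_cover (logCov fS hfS hfS0).1 (logCov fS hfS hfS0).2 hN ?_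
  refine ext_retract (X := PS m (fun p : P => p.1.1) a v) (Y := LogE fS)
    (fun y => ⟨(⟨(y.1.1.1.1.1, fun i => y.1.2 (Sum.inl i), fun p => y.1.2 (Sum.inr p)), y.1.1.2,
      fun i => y.2 (Sum.inl i), fun p => y.2 (Sum.inr p)⟩, y.1.1.1.1.2), fun i => ?_⟩) ?_
    (fun y => ⟨(⟨⟨(y.1.1.1.1, y.1.2), ?_, ?_, ?_⟩, y.1.1.2.1⟩,
      Sum.elim (fun i => y.1.1.1.2.1 i) (fun p => y.1.1.1.2.2 p)), ?_⟩) ?_ ?_ h4
  · rw [hvm]
    have h5 := hprod i (fun q => cb (F.sg q) (y.1.1.1.1.1 - F.act q⁻¹ (z i)))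
    have h6 : ∏ p ∈ Finset.univ.filter (fun p : P => p.1.1 = i),
        cb (F.sg p.1.2) (y.1.1.1.1.1 - F.act p.1.2⁻¹ (z p.1.1)) =
        ∏ p ∈ Finset.univ.filter (fun p : P => p.1.1 = i),
        cb (F.sg p.1.2) (y.1.1.1.1.1 - F.act p.1.2⁻¹ (z i)) :=
      Finset.prod_congr rfl fun p hp => by rw [(Finset.mem_filter.1 hp).2]
    show y.1.1.1.1.2 i ^ m = U i y.1.1.1.1.1 * ∏ p ∈ Finset.univ.filter (fun p : P => p.1.1 = i),
        cb (F.sg p.1.2) (y.1.1.1.1.1 - F.act p.1.2⁻¹ (z p.1.1))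
    rw [h6, h5, y.1.1.1.2.2.1 i]
    exact (hUG i _ y.1.1.2).2
  · refine Continuous.subtype_mk (Continuous.prodMk (Continuous.subtype_mk (Continuous.prodMk ?_
      (Continuous.prodMk ?_ ?_)) _) ?_) _
    · exact hSc.comp (continuous_fst.comp continuous_subtype_val)
    · exact continuous_pi fun i => (continuous_apply _).comp (continuous_snd.comp continuous_subtype_val)
    · exact continuous_pi fun i => (continuous_apply _).comp (continuous_snd.comp continuous_subtype_val)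
    · exact hSs.comp (continuous_fst.comp continuous_subtype_val)
  · exact y.1.1.2.1.trans hR1
  · intro i
    have h5 := hprod i (fun q => cb (F.sg q) (y.1.1.1.1 - F.act q⁻¹ (z i)))
    have h6 : ∏ p ∈ Finset.univ.filter (fun p : P => p.1.1 = i),
        cb (F.sg p.1.2) (y.1.1.1.1 - F.act p.1.2⁻¹ (z p.1.1)) =
        ∏ p ∈ Finset.univ.filter (fun p : P => p.1.1 = i),
        cb (F.sg p.1.2) (y.1.1.1.1 - F.act p.1.2⁻¹ (z i)) :=
      Finset.prod_congr rfl fun p hp => by rw [(Finset.mem_filter.1 hp).2]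
    have h7 := y.2 i
    rw [hvm] at h7
    have h8 : y.1.2 i ^ m = U i y.1.1.1.1 * ∏ p ∈ Finset.univ.filter (fun p : P => p.1.1 = i),
        cb (F.sg p.1.2) (y.1.1.1.1 - F.act p.1.2⁻¹ (z p.1.1)) := h7
    rw [h6, h5] at h8
    show y.1.2 i ^ m = G y.1.1.1.1 (z i)
    rw [h8]
    exact ((hUG i _ y.1.1.2.1).2).symm
  · intro k h5
    obtain ⟨q, hq⟩ := (G_zero hG (y.1.1.2.1.trans hR1) (hd1 k)).1 h5
    have hq' : F.act q⁻¹ (d k) = y.1.1.1.1 := by
      have h6 : d k = F.act q y.1.1.1.1 := hq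
      rw [h6, act_inv_act F q (y.1.1.2.1.trans hR1)]
    have hmem : ‖F.act q⁻¹ (d k)‖ < R := by
      rw [hq']
      exact y.1.1.2.1
    have h7 : exp (y.1.1.1.2.2 ⟨(k, q), hmem⟩) = y.1.1.1.1 - F.act q⁻¹ (d k) :=
      y.1.1.2.2.2 ⟨(k, q), hmem⟩
    exact exp_ne_zero _ (h7.trans (sub_eq_zero.2 hq'.symm))
  · rintro (i | p)
    · exact y.1.1.2.2.1 i
    · exact y.1.1.2.2.2 p
  · have hc0 : Continuous (fun y : PS m (fun p : P => p.1.1) a v => y.1.1) :=
      continuous_fst.comp continuous_subtype_val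
    refine Continuous.subtype_mk (Continuous.prodMk (Continuous.subtype_mk (Continuous.subtype_mk
      (Continuous.prodMk ?_ ?_) _) _) ?_) _
    · exact hX1c.comp hc0
    · exact continuous_snd.comp continuous_subtype_val
    · refine continuous_pi fun k => ?_
      rcases k with i | p
      · exact (hX1l i).comp hc0
      · exact (hX1e p).comp hc0
  · intro y
    apply Subtype.ext
    refine Prod.ext rfl (funext fun k => ?_)
    rcases k with i | p <;> rfl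

theorem asph_SG (hG : IsG F G) {ι κ : Type} [Finite ι] [Finite κ] {m : ℕ} (hm : m ≠ 0)
    {z : ι → ℂ} {d : κ → ℂ} (hz1 : ∀ i, ‖z i‖ < 1) (hd1 : ∀ a, ‖d a‖ < 1)
    (hz : ∀ i j, i ≠ j → G (z i) (z j) ≠ 0) (hd : ∀ a b, a ≠ b → G (d a) (d b) ≠ 0)
    (hzd : ∀ i a, G (z i) (d a) ≠ 0) : Asph (SG G m z d) := by
  cases nonempty_fintype ι
  cases nonempty_fintype κ
  intro N hN
  have hc : Continuous (fun y : SG G m z d => ‖y.1.1‖) :=
    (continuous_fst.comp continuous_subtype_val).norm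
  have hy1 : ∀ y : SG G m z d, 0 < 1 - ‖y.1.1‖ := fun y => sub_pos.2 y.2.1
  refine sga_exh (by omega) (fun y => (1 - ‖y.1.1‖)⁻¹)
    ((continuous_const.sub hc).inv₀ fun y => (hy1 y).ne') fun R0 => ?_
  have h1z : ∀ i, 0 < (1 - ‖z i‖)⁻¹ := fun i => inv_pos.2 (sub_pos.2 (hz1 i))
  have h1d : ∀ a, 0 < (1 - ‖d a‖)⁻¹ := fun a => inv_pos.2 (sub_pos.2 (hd1 a))
  have hs1 : ∀ i, (1 - ‖z i‖)⁻¹ ≤ ∑ j, (1 - ‖z j‖)⁻¹ := fun i =>
    Finset.single_le_sum (f := fun j => (1 - ‖z j‖)⁻¹) (fun j _ => (h1z j).le) (Finset.mem_univ i)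
  have hs2 : ∀ i, (1 - ‖d i‖)⁻¹ ≤ ∑ j, (1 - ‖d j‖)⁻¹ := fun i =>
    Finset.single_le_sum (f := fun j => (1 - ‖d j‖)⁻¹) (fun j _ => (h1d j).le) (Finset.mem_univ i)
  have h01 : 0 ≤ ∑ j, (1 - ‖z j‖)⁻¹ := Finset.sum_nonneg fun j _ => (h1z j).le
  have h02 : 0 ≤ ∑ j, (1 - ‖d j‖)⁻¹ := Finset.sum_nonneg fun j _ => (h1d j).le
  set R' : ℝ := |R0| + 2 + ∑ j, (1 - ‖z j‖)⁻¹ + ∑ j, (1 - ‖d j‖)⁻¹ with hR'
  have habs := abs_nonneg R0
  have hR'0 : 0 < R' := by linarith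
  have key : ∀ t : ℝ, t < 1 → ((1 - t)⁻¹ < R' ↔ t < 1 - R'⁻¹) := by
    intro t ht
    have h2 : 0 < 1 - t := sub_pos.2 ht
    rw [inv_lt_comm₀ h2 hR'0]
    constructor <;> intro h <;> linarith
  refine ⟨R', by linarith [le_abs_self R0], ?_⟩
  have hset : {y : SG G m z d | (1 - ‖y.1.1‖)⁻¹ < R'} = {y : SG G m z d | ‖y.1.1‖ < 1 - R'⁻¹} := by
    ext y
    exact key _ y.2.1
  rw [hset]
  have hRi : R'⁻¹ < 1 := inv_lt_one_of_one_lt₀ (by linarith)
  refine sga_disc hG hm hz hd hzd (by linarith) (by linarith [inv_pos.2 hR'0]) (fun i => ?_)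
    (fun i => ?_) hN
  · exact (key _ (hz1 i)).1 (by linarith [hs1 i])
  · exact (key _ (hd1 i)).1 (by linarith [hs2 i])

end HYP4
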