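import Pool.Agent.HYP4.HS

/-!
# HYP4/Sep: separation radius

`exists_sep`: `R0 < 1` with `‖b0 i‖ < R0`; only finitely many `γ` have `‖z‖ < R0`, `‖γ z‖ < R0` for some `z` (`finite_act`); for
these `γ` and `i, j` with `(i ≠ j or γ ≠ 1)`: `γ (b0 i) ≠ b0 j` (`F.free`), continuity of `γ` at `b0 i` gives a radius; take the
minimum.
-/

namespace HYP4

open Complex Topology Set ASP87

variable {Γ : Type} [Group Γ] (F : FD Γ)

theorem exists_sep {B : Type*} [Finite B] {b0 : B → ℂ} (hb : ∀ i, ‖b0 i‖ < 1)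
    (hne : ∀ i j, i ≠ j → ∀ γ, b0 j ≠ F.act γ (b0 i)) :
    ∃ r : ℝ, 0 < r ∧ (∀ i, ‖b0 i‖ + r < 1) ∧
      ∀ i j γ z, ‖z - b0 i‖ < r → ‖F.act γ z - b0 j‖ < r → i = j ∧ γ = 1 := by
  have h1 : ∀ᶠ r in 𝓝[>] (0 : ℝ), ∀ i, ‖b0 i‖ + r < 1 := by
    rw [Filter.eventually_all]
    intro i
    filter_upwards [Ioo_mem_nhdsGT (sub_pos.2 (hb i))] with r hr
    have := hr.2
    linarith
  have h0 : ∀ᶠ r in 𝓝[>] (0 : ℝ), 0 < r := self_mem_nhdsWithin
  obtain ⟨r0, hr0, hr0'⟩ := (h1.and h0).exists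
  have hR : 1 - r0 / 2 < 1 := by linarith
  have hfin := finite_act F hR
  have h2 : ∀ᶠ r in 𝓝[>] (0 : ℝ), ∀ γ ∈ {γ | ∃ z, ‖z‖ < 1 - r0 / 2 ∧ ‖F.act γ z‖ < 1 - r0 / 2},
      ∀ i j z, ‖z - b0 i‖ < r → ‖F.act γ z - b0 j‖ < r → i = j ∧ γ = 1 := by
    rw [Filter.eventually_all_finite hfin]
    intro γ _
    rw [Filter.eventually_all]
    intro i
    rw [Filter.eventually_all]
    intro j
    by_cases h : i = j ∧ γ = 1
    · exact Filter.Eventually.of_forall (fun _ _ _ _ => h)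
    · have hd : 0 < ‖F.act γ (b0 i) - b0 j‖ := by
        rw [norm_pos_iff, sub_ne_zero]
        intro he
        by_cases hij : i = j
        · subst hij
          exact h ⟨rfl, F.free γ (b0 i) (hb i) he⟩
        · exact hne i j hij γ he.symm
      have hc : ContinuousAt (F.act γ) (b0 i) :=
        (act_cont F γ).continuousAt (Metric.isOpen_ball.mem_nhds (by simpa using hb i))
      obtain ⟨δ, hδ, hδ'⟩ := Metric.continuousAt_iff.1 hc _ (half_pos hd)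
      filter_upwards [Ioo_mem_nhdsGT hδ, Ioo_mem_nhdsGT (half_pos hd)] with r hr hr' z hz hz'
      exfalso
      have h3 : dist (F.act γ z) (F.act γ (b0 i)) < ‖F.act γ (b0 i) - b0 j‖ / 2 :=
        hδ' (by rw [dist_eq_norm]; exact hz.trans hr.2)
      have h4 : ‖F.act γ (b0 i) - b0 j‖ ≤ dist (F.act γ z) (F.act γ (b0 i)) + ‖F.act γ z - b0 j‖ := by
        rw [dist_comm, dist_eq_norm]
        have : F.act γ (b0 i) - b0 j = (F.act γ (b0 i) - F.act γ z) + (F.act γ z - b0 j) := by ring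
        rw [this]
        exact norm_add_le _ _
      have h5 := hr'.2
      linarith
  obtain ⟨r, ⟨⟨h3, h4⟩, h5⟩, h6⟩ := (((h2.and h1).and h0).and (Ioo_mem_nhdsGT (half_pos hr0'))).exists
  refine ⟨r, h5, h4, fun i j γ z hz hz' => h3 γ ⟨z, ?_, ?_⟩ i j z hz hz'⟩
  · have h7 : ‖z‖ ≤ ‖z - b0 i‖ + ‖b0 i‖ := by
      have : z = (z - b0 i) + b0 i := by ring
      calc ‖z‖ = ‖(z - b0 i) + b0 i‖ := by rw [← this]
        _ ≤ _ := norm_add_le _ _
    have h8 := hr0 i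
    have h9 := h6.2
    linarith
  · have h7 : ‖F.act γ z‖ ≤ ‖F.act γ z - b0 j‖ + ‖b0 j‖ := by
      have : F.act γ z = (F.act γ z - b0 j) + b0 j := by ring
      calc ‖F.act γ z‖ = ‖(F.act γ z - b0 j) + b0 j‖ := by rw [← this]
        _ ≤ _ := norm_add_le _ _
    have h8 := hr0 j
    have h9 := h6.2
    linarith

end HYP4
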