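import Pool.Agent.HYP4.Defs

/-!
# HYP4/TrG: transport (compare TOR4/TrT)

Membership: `(s k)^m = s^m k^m = G c z * k^m = G (H c) (H z)` (`kp`); if `G c z = 0` then `s = 0` and
`G (H c) (H z) = 0` (`He`). For `trI` at `(K c, K z)`: `s / k`, `k^m G (K c) (K z) = G c z`. Continuity at a point with
`G c z ≠ 0`: `kc` (the set is relatively open in the space of all `c, z` of the disc by `hGc`); at a point with
`G c z = 0` the `m`-th power of the component tends to 0 (see TOR4/TrT, `trT_cont`). For `trI` compose with `K`.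
-/

namespace HYP4

open Complex Topology Set ASP87

variable {A R : Type*} {S : SysG A R} {G : ℂ → ℂ → ℂ} {m : ℕ} {N : Type*} [TopologicalSpace N]
  {H K : N → ℂ → ℂ} {ka : N → ℂ → ℂ → ℂ}

private theorem TrG_ka_ne (h : TP G m H K ka) (hm : m ≠ 0) (n : N) {c z : ℂ} (hc : ‖c‖ < 1)
    (hz : ‖z‖ < 1) (hcz : G c z ≠ 0) : ka n c z ≠ 0 := by
  intro h0
  have h1 := h.kp n c z hc hz hcz
  rw [h0, zero_pow hm, zero_mul] at h1
  exact hcz ((h.He n c z hc hz).1 h1.symm)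

private theorem TrG_K (h : TP G m H K ka) (n : N) {c z : ℂ} (hc : ‖c‖ < 1)
    (hz : ‖z‖ < 1) : G (K n c) (K n z) = 0 ↔ G c z = 0 := by
  have h1 := h.He n (K n c) (K n z) (h.Km n c hc) (h.Km n z hz)
  rw [h.HK n c hc, h.HK n z hz] at h1
  exact h1.symm

private theorem TrG_root {X : Type*} [TopologicalSpace X] {s : Set X} {p : X} (hp : p ∈ s)
    {Φ Ψ : X → ℂ} (hm : m ≠ 0) (h : ∀ q ∈ s, Φ q ^ m = Ψ q) (hΨ : ContinuousWithinAt Ψ s p)
    (h0 : Ψ p = 0) : ContinuousWithinAt Φ s p := by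
  have hs0 : Φ p = 0 := by
    have h1 := h p hp
    rw [h0] at h1
    exact (pow_eq_zero_iff hm).1 h1
  show Filter.Tendsto _ _ _
  rw [hs0]
  have h6 : Filter.Tendsto (fun q => ‖Ψ q‖) (𝓝[s] p) (𝓝 0) := by
    have h7 := hΨ.norm
    have h8 : Filter.Tendsto (fun q => ‖Ψ q‖) (𝓝[s] p) (𝓝 ‖Ψ p‖) := h7
    rwa [h0, norm_zero] at h8
  have h8 : Filter.Tendsto (fun q => ‖Φ q‖ ^ m) (𝓝[s] p) (𝓝 0) := by
    refine h6.congr' ?_
    filter_upwards [self_mem_nhdsWithin] with q hq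
    rw [← norm_pow, h q hq]
  have h9 : Filter.Tendsto (fun q => ‖Φ q‖) (𝓝[s] p) (𝓝 0) := by
    have h10 := h8.rpow_const (p := (1 : ℝ) / m) (Or.inr (by positivity))
    have hm' : (0 : ℝ) < 1 / m := by positivity
    rw [Real.zero_rpow hm'.ne'] at h10
    refine h10.congr fun q => ?_
    rw [← Real.rpow_natCast, ← Real.rpow_mul (norm_nonneg _), mul_one_div_cancel, Real.rpow_one]
    exact_mod_cast hm
  exact tendsto_zero_iff_norm_tendsto_zero.2 h9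

theorem trG_mem (h : TP G m H K ka) (hm : m ≠ 0) (n : N) {y : (A → ℂ) × (R → ℂ)}
    (hy : y ∈ GG G m S) : trG S (H n) (ka n) y ∈ GG G m S := by
  obtain ⟨h1, h2, h3⟩ := hy
  refine ⟨fun a => h.Hm n _ (h1 a), fun r => ?_, fun a b hab => ?_⟩
  · show (y.2 r * ka n (y.1 (S.src r)) (y.1 (S.tgt r))) ^ m =
      G (H n (y.1 (S.src r))) (H n (y.1 (S.tgt r)))
    rw [mul_pow, h2 r]
    by_cases he : G (y.1 (S.src r)) (y.1 (S.tgt r)) = 0
    · rw [he, zero_mul, (h.He n _ _ (h1 _) (h1 _)).2 he]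
    · rw [mul_comm, h.kp n _ _ (h1 _) (h1 _) he]
  · show G (H n (y.1 a)) (H n (y.1 b)) ≠ 0
    exact fun h4 => h3 a b hab ((h.He n _ _ (h1 _) (h1 _)).1 h4)

theorem trI_mem (h : TP G m H K ka) (hm : m ≠ 0) (n : N) {y : (A → ℂ) × (R → ℂ)}
    (hy : y ∈ GG G m S) : trI S (K n) (ka n) y ∈ GG G m S := by
  obtain ⟨h1, h2, h3⟩ := hy
  refine ⟨fun a => h.Km n _ (h1 a), fun r => ?_, fun a b hab => ?_⟩
  · show (y.2 r / ka n (K n (y.1 (S.src r))) (K n (y.1 (S.tgt r)))) ^ m =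
      G (K n (y.1 (S.src r))) (K n (y.1 (S.tgt r)))
    have h4 := h.Km n _ (h1 (S.src r))
    have h5 := h.Km n _ (h1 (S.tgt r))
    rw [div_pow, h2 r]
    by_cases he : G (y.1 (S.src r)) (y.1 (S.tgt r)) = 0
    · rw [he, zero_div, (TrG_K h n (h1 _) (h1 _)).2 he]
    · have h6 : G (K n (y.1 (S.src r))) (K n (y.1 (S.tgt r))) ≠ 0 :=
        fun h7 => he ((TrG_K h n (h1 _) (h1 _)).1 h7)
      have h7 := h.kp n _ _ h4 h5 h6
      rw [h.HK n _ (h1 _), h.HK n _ (h1 _)] at h7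
      rw [← h7, mul_div_cancel_left₀ _ (pow_ne_zero m (TrG_ka_ne h hm n h4 h5 h6))]
  · show G (K n (y.1 a)) (K n (y.1 b)) ≠ 0
    exact fun h4 => h3 a b hab ((TrG_K h n (h1 _) (h1 _)).1 h4)

theorem trG_cont (hGc : ContinuousOn (fun q : ℂ × ℂ => G q.1 q.2) (Dc ×ˢ Dc))
    (h : TP G m H K ka) (hm : m ≠ 0) :
    ContinuousOn (fun q : N × ((A → ℂ) × (R → ℂ)) => trG S (H q.1) (ka q.1) q.2) (univ ×ˢ GG G m S) := by
  have hc : ∀ a : A, Continuous (fun q : N × ((A → ℂ) × (R → ℂ)) => q.2.1 a) := fun a =>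
    (continuous_apply a).comp (continuous_fst.comp continuous_snd)
  have hpos : ∀ a : A, ContinuousOn (fun q : N × ((A → ℂ) × (R → ℂ)) => H q.1 (q.2.1 a))
      (univ ×ˢ GG G m S) := by
    intro a
    exact h.Hc.comp (continuous_fst.prodMk (hc a)).continuousOn fun q hq =>
      ⟨mem_univ _, mem_ball_zero_iff.2 (hq.2.1 a)⟩
  refine ContinuousOn.prodMk (continuousOn_pi.2 hpos) (continuousOn_pi.2 fun r => ?_)
  have hs : Continuous (fun q : N × ((A → ℂ) × (R → ℂ)) => q.2.2 r) :=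
    (continuous_apply r).comp (continuous_snd.comp continuous_snd)
  have hG1 : ContinuousOn (fun q : N × ((A → ℂ) × (R → ℂ)) =>
      G (q.2.1 (S.src r)) (q.2.1 (S.tgt r))) (univ ×ˢ GG G m S) :=
    hGc.comp ((hc _).prodMk (hc _)).continuousOn fun q hq =>
      ⟨mem_ball_zero_iff.2 (hq.2.1 _), mem_ball_zero_iff.2 (hq.2.1 _)⟩
  have hG2 : ContinuousOn (fun q : N × ((A → ℂ) × (R → ℂ)) =>
      G (H q.1 (q.2.1 (S.src r))) (H q.1 (q.2.1 (S.tgt r)))) (univ ×ˢ GG G m S) :=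
    hGc.comp ((hpos _).prodMk (hpos _)) fun q hq =>
      ⟨mem_ball_zero_iff.2 (h.Hm _ _ (hq.2.1 _)), mem_ball_zero_iff.2 (h.Hm _ _ (hq.2.1 _))⟩
  intro p hp
  by_cases he : G (p.2.1 (S.src r)) (p.2.1 (S.tgt r)) = 0
  · exact TrG_root hp hm (fun q hq => (trG_mem h hm q.1 hq.2).2.1 r) (hG2 p hp)
      ((h.He _ _ _ (hp.2.1 _) (hp.2.1 _)).2 he)
  · refine hs.continuousWithinAt.mul ?_
    have h1 : ContinuousOn (fun q : N × ((A → ℂ) × (R → ℂ)) =>
        ka q.1 (q.2.1 (S.src r)) (q.2.1 (S.tgt r)))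
        ((univ ×ˢ GG G m S) ∩ {q | G (q.2.1 (S.src r)) (q.2.1 (S.tgt r)) ≠ 0}) := by
      refine h.kc.comp (continuous_fst.prodMk ((hc _).prodMk (hc _))).continuousOn fun q hq =>
        ⟨hq.1.2.1 _, hq.1.2.1 _, hq.2⟩
    refine (h1 p ⟨hp, he⟩).mono_of_mem_nhdsWithin ?_
    exact Filter.inter_mem self_mem_nhdsWithin
      ((hG1 p hp).eventually (isOpen_ne.mem_nhds he))

theorem trI_cont (hGc : ContinuousOn (fun q : ℂ × ℂ => G q.1 q.2) (Dc ×ˢ Dc))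
    (h : TP G m H K ka) (hm : m ≠ 0) :
    ContinuousOn (fun q : N × ((A → ℂ) × (R → ℂ)) => trI S (K q.1) (ka q.1) q.2) (univ ×ˢ GG G m S) := by
  have hc : ∀ a : A, Continuous (fun q : N × ((A → ℂ) × (R → ℂ)) => q.2.1 a) := fun a =>
    (continuous_apply a).comp (continuous_fst.comp continuous_snd)
  have hpos : ∀ a : A, ContinuousOn (fun q : N × ((A → ℂ) × (R → ℂ)) => K q.1 (q.2.1 a))
      (univ ×ˢ GG G m S) := by
    intro a
    exact h.Kc.comp (continuous_fst.prodMk (hc a)).continuousOn fun q hq =>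
      ⟨mem_univ _, mem_ball_zero_iff.2 (hq.2.1 a)⟩
  refine ContinuousOn.prodMk (continuousOn_pi.2 hpos) (continuousOn_pi.2 fun r => ?_)
  have hs : Continuous (fun q : N × ((A → ℂ) × (R → ℂ)) => q.2.2 r) :=
    (continuous_apply r).comp (continuous_snd.comp continuous_snd)
  have hG2 : ContinuousOn (fun q : N × ((A → ℂ) × (R → ℂ)) =>
      G (K q.1 (q.2.1 (S.src r))) (K q.1 (q.2.1 (S.tgt r)))) (univ ×ˢ GG G m S) :=
    hGc.comp ((hpos _).prodMk (hpos _)) fun q hq =>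
      ⟨mem_ball_zero_iff.2 (h.Km _ _ (hq.2.1 _)), mem_ball_zero_iff.2 (h.Km _ _ (hq.2.1 _))⟩
  intro p hp
  by_cases he : G (K p.1 (p.2.1 (S.src r))) (K p.1 (p.2.1 (S.tgt r))) = 0
  · exact TrG_root hp hm (fun q hq => (trI_mem h hm q.1 hq.2).2.1 r) (hG2 p hp) he
  · refine hs.continuousWithinAt.div ?_ (TrG_ka_ne h hm _ (h.Km _ _ (hp.2.1 _))
      (h.Km _ _ (hp.2.1 _)) he)
    have h1 : ContinuousOn (fun q : N × ((A → ℂ) × (R → ℂ)) =>
        ka q.1 (K q.1 (q.2.1 (S.src r))) (K q.1 (q.2.1 (S.tgt r))))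
        ((univ ×ˢ GG G m S) ∩ {q | G (K q.1 (q.2.1 (S.src r))) (K q.1 (q.2.1 (S.tgt r))) ≠ 0}) := by
      refine h.kc.comp (continuous_fst.continuousOn.prodMk
        (((hpos _).mono inter_subset_left).prodMk ((hpos _).mono inter_subset_left))) fun q hq =>
        ⟨h.Km _ _ (hq.1.2.1 _), h.Km _ _ (hq.1.2.1 _), hq.2⟩
    refine (h1 p ⟨hp, he⟩).mono_of_mem_nhdsWithin ?_
    exact Filter.inter_mem self_mem_nhdsWithin
      ((hG2 p hp).eventually (isOpen_ne.mem_nhds he))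

theorem trI_trG (h : TP G m H K ka) (hm : m ≠ 0) (n : N) {y : (A → ℂ) × (R → ℂ)}
    (hy : y ∈ GG G m S) : trI S (K n) (ka n) (trG S (H n) (ka n) y) = y := by
  obtain ⟨h1, h2, h3⟩ := hy
  refine Prod.ext (funext fun a => h.KH n _ (h1 a)) (funext fun r => ?_)
  show y.2 r * ka n (y.1 (S.src r)) (y.1 (S.tgt r)) /
    ka n (K n (H n (y.1 (S.src r)))) (K n (H n (y.1 (S.tgt r)))) = y.2 r
  rw [h.KH n _ (h1 _), h.KH n _ (h1 _)]
  by_cases he : G (y.1 (S.src r)) (y.1 (S.tgt r)) = 0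
  · have hs0 : y.2 r = 0 := by
      have h4 := h2 r
      rw [he] at h4
      exact (pow_eq_zero_iff hm).1 h4
    rw [hs0, zero_mul, zero_div]
  · rw [mul_div_cancel_right₀ _ (TrG_ka_ne h hm n (h1 _) (h1 _) he)]

theorem trG_trI (h : TP G m H K ka) (hm : m ≠ 0) (n : N) {y : (A → ℂ) × (R → ℂ)}
    (hy : y ∈ GG G m S) : trG S (H n) (ka n) (trI S (K n) (ka n) y) = y := by
  obtain ⟨h1, h2, h3⟩ := hy
  refine Prod.ext (funext fun a => h.HK n _ (h1 a)) (funext fun r => ?_)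
  show y.2 r / ka n (K n (y.1 (S.src r))) (K n (y.1 (S.tgt r))) *
    ka n (K n (y.1 (S.src r))) (K n (y.1 (S.tgt r))) = y.2 r
  by_cases he : G (y.1 (S.src r)) (y.1 (S.tgt r)) = 0
  · have hs0 : y.2 r = 0 := by
      have h4 := h2 r
      rw [he] at h4
      exact (pow_eq_zero_iff hm).1 h4
    rw [hs0, zero_div, zero_mul]
  · rw [div_mul_cancel₀ _ (TrG_ka_ne h hm n (h.Km _ _ (h1 _)) (h.Km _ _ (h1 _))
      fun h4 => he ((TrG_K h n (h1 _) (h1 _)).1 h4))]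

end HYP4
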